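import Mathlib

/-!
# Project NT : the exact value of `n_1(L_p(μ))` near `p = 2` (real scalars), MP_d0ed5b_an

Notation: `p = 2 + ε` with `0 < ε ≤ 1/10`, `y > 1` is the root of
`(y+1)^(2-p) + (y-1)^(2-p) = 2`.
-/

set_option autoImplicit false

namespace Pool.Agent.H47.NT

/-- The signed power `x ↦ |x|^(p-2) x`. -/
noncomputable def j (p x : ℝ) : ℝ := |x| ^ (p - 2) * x

/-- `C = y + 1 - (y+1)^(2-p)`. -/
noncomputable def CC (p y : ℝ) : ℝ := y + 1 - (y + 1) ^ (2 - p)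

/-- `k = (p-1) y / C`. -/
noncomputable def kk (p y : ℝ) : ℝ := (p - 1) * y / CC p y

/-- `R = (y+1)^p + (y-1)^p - 2`. -/
noncomputable def RR (p y : ℝ) : ℝ := (y + 1) ^ p + (y - 1) ^ p - 2

/-- `a^p = R / (2 (p-1)) / y^p`. -/
noncomputable def ap (p y : ℝ) : ℝ := RR p y / (2 * (p - 1)) / y ^ p

/-- `c = (y+1)^(p-1) - (y-1)^(p-1)`. -/
noncomputable def cc (p y : ℝ) : ℝ := (y + 1) ^ (p - 1) - (y - 1) ^ (p - 1)

/-- The value of the index. -/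
noncomputable def F (p y : ℝ) : ℝ :=
  (p - 1) / (p * CC p y) * (RR p y / (2 * (p - 1))) ^ (1 / p)

/-- `Φ(z) = z R'(z) - k R(z) - 2 k a^p z^p` with `R(z) = |1+z|^p + |1-z|^p - 2`. -/
noncomputable def Phi (p y z : ℝ) : ℝ :=
  p * z * (j p (1 + z) - j p (1 - z)) - kk p y * (|1 + z| ^ p + |1 - z| ^ p - 2)
    - 2 * kk p y * ap p y * z ^ p

/-- `L(z) = j(1+z) + j(1-z)`. -/
noncomputable def LL (p z : ℝ) : ℝ := j p (1 + z) + j p (1 - z)

/-- Admissible parameters. -/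
structure Par (p y : ℝ) : Prop where
  hp : 2 < p
  hp' : p ≤ 21 / 10
  hy : 1 < y
  heq : (y + 1) ^ (2 - p) + (y - 1) ^ (2 - p) = 2

end Pool.Agent.H47.NT
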