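import Mathlib
import Pool.Agent.H47.NT.Defs

/-!
Convexity lemmas for `n(s) = (1+s)^e - (1-s)^e` (`0 < e < 1`, convex on `[0,1]`, `n(0) = 0`) and
`n2(s) = (1+s)^r - (1-s)^r` (`1 ≤ r ≤ 2`, concave on `[0,1]`, `n2(0) = 0`); star-shaped forms.
Proofs: `n'' = e(e-1)((1+s)^(e-2) - (1-s)^(e-2)) ≥ 0`, `n2'' = r(r-1)((1+s)^(r-2) - (1-s)^(r-2)) ≤ 0`
on `(0,1)`; then convexity between `0` and `s`.
-/

set_option autoImplicit false

namespace Pool.Agent.H47.NT

private lemma nf_deriv (e s : ℝ) (hs : s ∈ Set.Ioo (0 : ℝ) 1) :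
    HasDerivAt (fun x : ℝ => (1 + x) ^ e - (1 - x) ^ e)
      (e * ((1 + s) ^ (e - 1) + (1 - s) ^ (e - 1))) s := by
  have h1 : HasDerivAt (fun x : ℝ => 1 + x) 1 s := (hasDerivAt_id s).const_add 1
  have h2 : HasDerivAt (fun x : ℝ => 1 - x) (-1) s := (hasDerivAt_id s).const_sub 1
  have h3 := h1.rpow_const (p := e) (Or.inl (by have := hs.1; linarith))
  have h4 := h2.rpow_const (p := e) (Or.inl (by have := hs.2; linarith))
  have h5 := h3.sub h4
  refine h5.congr_deriv ?_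
  ring

private lemma nf_deriv2 (e s : ℝ) (hs : s ∈ Set.Ioo (0 : ℝ) 1) :
    HasDerivAt (fun x : ℝ => e * ((1 + x) ^ (e - 1) + (1 - x) ^ (e - 1)))
      (e * (e - 1) * ((1 + s) ^ (e - 2) - (1 - s) ^ (e - 2))) s := by
  have h1 : HasDerivAt (fun x : ℝ => 1 + x) 1 s := (hasDerivAt_id s).const_add 1
  have h2 : HasDerivAt (fun x : ℝ => 1 - x) (-1) s := (hasDerivAt_id s).const_sub 1
  have h3 := h1.rpow_const (p := e - 1) (Or.inl (by have := hs.1; linarith))
  have h4 := h2.rpow_const (p := e - 1) (Or.inl (by have := hs.2; linarith))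
  have h5 := (h3.add h4).const_mul e
  refine h5.congr_deriv ?_
  have : e - 1 - 1 = e - 2 := by ring
  rw [this]
  ring

private lemma nf_cont (e : ℝ) (he : 0 < e) :
    ContinuousOn (fun x : ℝ => (1 + x) ^ e - (1 - x) ^ e) (Set.Icc 0 1) := by
  apply Continuous.continuousOn
  have h1 : Continuous (fun x : ℝ => (1 + x) ^ e) :=
    (continuous_const.add continuous_id).rpow_const (fun x => Or.inr he.le)
  have h2 : Continuous (fun x : ℝ => (1 - x) ^ e) :=
    (continuous_const.sub continuous_id).rpow_const (fun x => Or.inr he.le)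
  exact h1.sub h2

private lemma nf_pow (e s : ℝ) (he : e ≤ 2) (hs : s ∈ Set.Ioo (0 : ℝ) 1) :
    (1 + s) ^ (e - 2) ≤ (1 - s) ^ (e - 2) :=
  Real.rpow_le_rpow_of_nonpos (by have := hs.2; linarith) (by have := hs.1; linarith)
    (by linarith)

/-- `n(t s) ≤ t n(s)`. -/
lemma n_star {e s t : ℝ} (he : 0 < e) (he1 : e < 1) (hs : 0 ≤ s) (hs1 : s ≤ 1) (ht : 0 ≤ t)
    (ht1 : t ≤ 1) : (1 + t * s) ^ e - (1 - t * s) ^ e ≤ t * ((1 + s) ^ e - (1 - s) ^ e) := by
  have hc : ConvexOn ℝ (Set.Icc (0 : ℝ) 1) (fun x : ℝ => (1 + x) ^ e - (1 - x) ^ e) := by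
    apply convexOn_of_hasDerivWithinAt2_nonneg (convex_Icc 0 1) (nf_cont e he)
      (f' := fun x : ℝ => e * ((1 + x) ^ (e - 1) + (1 - x) ^ (e - 1)))
      (f'' := fun x : ℝ => e * (e - 1) * ((1 + x) ^ (e - 2) - (1 - x) ^ (e - 2)))
    · intro x hx
      rw [interior_Icc] at hx
      exact (nf_deriv e x hx).hasDerivWithinAt
    · intro x hx
      rw [interior_Icc] at hx
      exact (nf_deriv2 e x hx).hasDerivWithinAt
    · intro x hx
      rw [interior_Icc] at hx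
      have h1 := nf_pow e x (by linarith) hx
      have h2 : e * (e - 1) ≤ 0 := by nlinarith
      exact mul_nonneg_of_nonpos_of_nonpos h2 (by linarith)
  have h := hc.2 (Set.mem_Icc.2 ⟨hs, hs1⟩) (Set.mem_Icc.2 ⟨le_refl (0 : ℝ), zero_le_one⟩) ht
    (sub_nonneg.2 ht1) (by ring)
  simp only [smul_eq_mul, mul_zero, add_zero, sub_zero, Real.one_rpow, sub_self] at h
  exact h

/-- `t n2(s) ≤ n2(t s)`. -/
lemma n2_star {r s t : ℝ} (hr : 1 ≤ r) (hr1 : r ≤ 2) (hs : 0 ≤ s) (hs1 : s ≤ 1) (ht : 0 ≤ t)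
    (ht1 : t ≤ 1) : t * ((1 + s) ^ r - (1 - s) ^ r) ≤ (1 + t * s) ^ r - (1 - t * s) ^ r := by
  have hc : ConcaveOn ℝ (Set.Icc (0 : ℝ) 1) (fun x : ℝ => (1 + x) ^ r - (1 - x) ^ r) := by
    apply concaveOn_of_hasDerivWithinAt2_nonpos (convex_Icc 0 1) (nf_cont r (by linarith))
      (f' := fun x : ℝ => r * ((1 + x) ^ (r - 1) + (1 - x) ^ (r - 1)))
      (f'' := fun x : ℝ => r * (r - 1) * ((1 + x) ^ (r - 2) - (1 - x) ^ (r - 2)))
    · intro x hx
      rw [interior_Icc] at hx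
      exact (nf_deriv r x hx).hasDerivWithinAt
    · intro x hx
      rw [interior_Icc] at hx
      exact (nf_deriv2 r x hx).hasDerivWithinAt
    · intro x hx
      rw [interior_Icc] at hx
      have h1 := nf_pow r x hr1 hx
      have h2 : 0 ≤ r * (r - 1) := mul_nonneg (by linarith) (by linarith)
      exact mul_nonpos_of_nonneg_of_nonpos h2 (by linarith)
  have h := hc.2 (Set.mem_Icc.2 ⟨hs, hs1⟩) (Set.mem_Icc.2 ⟨le_refl (0 : ℝ), zero_le_one⟩) ht
    (sub_nonneg.2 ht1) (by ring)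
  simp only [smul_eq_mul, mul_zero, add_zero, sub_zero, Real.one_rpow, sub_self] at h
  exact h

end Pool.Agent.H47.NT
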