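import Mathlib
import Pool.Agent.H47.NT.Defs
import Pool.Agent.H47.NT.Conv

/-!
Bounds for `L(z) = j(1+z) + j(1-z)`, `p ∈ (2, 3)`, `r = p - 1 ∈ (1,2)`.
* On `[0,1]`: `L(z) = (1+z)^r + (1-z)^r`, `2 ≤ L(z) ≤ 2^r` (convexity of `x^r`; superadditivity
  `a^r + b^r ≤ (a+b)^r`), and `L(z) - 2 ≤ z^2 (2^r - 2)`: put
  `G(s) = z^2 (L(s) - 2) - (L(z s) - 2)` on `[0,1]`, `G(0) = 0`,
  `G'(s) = r z (z n(s) - n(z s)) ≥ 0` with `n(s) = (1+s)^(r-1) - (1-s)^(r-1)` (`n_star`).
* On `[1,∞)`: `L(z) = (z+1)^r - (z-1)^r` is concave (`L'' = r(r-1)((z+1)^(r-2) - (z-1)^(r-2)) ≤ 0`)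
  and nondecreasing.
-/

set_option autoImplicit false

namespace Pool.Agent.H47.NT

private lemma j_nonneg {p x : ℝ} (hp : 1 < p) (hx : 0 ≤ x) : j p x = x ^ (p - 1) := by
  unfold j
  rcases hx.lt_or_eq with h | h
  · rw [abs_of_pos h]
    have h1 : p - 1 = (p - 2) + 1 := by ring
    rw [h1, Real.rpow_add_one h.ne']
  · rw [← h]
    have h1 : p - 1 ≠ 0 := by linarith
    rw [Real.zero_rpow h1]
    simp

private lemma j_neg (p x : ℝ) : j p (-x) = - j p x := by
  unfold j
  rw [abs_neg]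
  ring

lemma LL_small {p z : ℝ} (hp : 1 < p) (hz : 0 ≤ z) (hz1 : z ≤ 1) :
    LL p z = (1 + z) ^ (p - 1) + (1 - z) ^ (p - 1) := by
  unfold LL
  rw [j_nonneg hp (by linarith), j_nonneg hp (by linarith)]

lemma LL_large {p z : ℝ} (hp : 1 < p) (hz : 1 ≤ z) :
    LL p z = (z + 1) ^ (p - 1) - (z - 1) ^ (p - 1) := by
  unfold LL
  have h1 : (1 - z) = -(z - 1) := by ring
  rw [h1, j_neg, j_nonneg hp (by linarith), j_nonneg hp (by linarith), add_comm 1 z]
  ring

lemma LL_ge_two {p z : ℝ} (hp : 2 ≤ p) (hz : 0 ≤ z) (hz1 : z ≤ 1) : 2 ≤ LL p z := by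
  rw [LL_small (by linarith) hz hz1]
  have h1 := one_add_mul_self_le_rpow_one_add (s := z) (p := p - 1) (by linarith) (by linarith)
  have h2 := one_add_mul_self_le_rpow_one_add (s := -z) (p := p - 1) (by linarith) (by linarith)
  have h3 : (1 : ℝ) + -z = 1 - z := by ring
  rw [h3] at h2
  linarith

lemma LL_le {p z : ℝ} (hp : 2 ≤ p) (hz : 0 ≤ z) (hz1 : z ≤ 1) : LL p z ≤ 2 ^ (p - 1) := by
  rw [LL_small (by linarith) hz hz1]
  have h := Real.add_rpow_le_rpow_add (p := p - 1) (a := 1 + z) (b := 1 - z) (by linarith)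
    (by linarith) (by linarith)
  have h2 : (1 + z) + (1 - z) = (2 : ℝ) := by ring
  rw [h2] at h
  exact h

private lemma small_cont (r : ℝ) (hr : 0 ≤ r) :
    Continuous (fun x : ℝ => (1 + x) ^ r + (1 - x) ^ r) := by
  have h1 : Continuous (fun x : ℝ => (1 + x) ^ r) :=
    (continuous_const.add continuous_id).rpow_const (fun x => Or.inr hr)
  have h2 : Continuous (fun x : ℝ => (1 - x) ^ r) :=
    (continuous_const.sub continuous_id).rpow_const (fun x => Or.inr hr)
  exact h1.add h2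

private lemma small_deriv (r s : ℝ) (hs : s ∈ Set.Ioo (0 : ℝ) 1) :
    HasDerivAt (fun x : ℝ => (1 + x) ^ r + (1 - x) ^ r)
      (r * ((1 + s) ^ (r - 1) - (1 - s) ^ (r - 1))) s := by
  have h1 : HasDerivAt (fun x : ℝ => 1 + x) 1 s := (hasDerivAt_id s).const_add 1
  have h2 : HasDerivAt (fun x : ℝ => 1 - x) (-1) s := (hasDerivAt_id s).const_sub 1
  have h3 := h1.rpow_const (p := r) (Or.inl (by have := hs.1; linarith))
  have h4 := h2.rpow_const (p := r) (Or.inl (by have := hs.2; linarith))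
  have h5 := h3.add h4
  refine h5.congr_deriv ?_
  ring

lemma LL_sub_two_le {p z : ℝ} (hp : 2 < p) (hp3 : p < 3) (hz : 0 ≤ z) (hz1 : z ≤ 1) :
    LL p z - 2 ≤ z ^ 2 * (2 ^ (p - 1) - 2) := by
  rw [LL_small (by linarith) hz hz1]
  rcases hz.lt_or_eq with hz0 | hz0
  swap
  · rw [← hz0]
    simp
    norm_num
  set r : ℝ := p - 1 with hr
  have hr1 : 1 < r := by rw [hr]; linarith
  have hr2 : r < 2 := by rw [hr]; linarith
  let G : ℝ → ℝ := fun s => z ^ 2 * (((1 + s) ^ r + (1 - s) ^ r) - 2) -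
    (((1 + z * s) ^ r + (1 - z * s) ^ r) - 2)
  have hc : Continuous G := by
    have h1 := small_cont r (by linarith)
    have h2 : Continuous (fun s : ℝ => ((1 + z * s) ^ r + (1 - z * s) ^ r)) :=
      h1.comp (continuous_const.mul continuous_id)
    exact (continuous_const.mul (h1.sub continuous_const)).sub (h2.sub continuous_const)
  have hd : ∀ s ∈ Set.Ioo (0 : ℝ) 1, HasDerivAt G
      (z ^ 2 * (r * ((1 + s) ^ (r - 1) - (1 - s) ^ (r - 1))) -
        (r * ((1 + z * s) ^ (r - 1) - (1 - z * s) ^ (r - 1))) * z) s := by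
    intro s hs
    have h1 := small_deriv r s hs
    have hzs : z * s ∈ Set.Ioo (0 : ℝ) 1 := by
      refine ⟨mul_pos hz0 hs.1, ?_⟩
      have := hs.1
      have := hs.2
      nlinarith
    have h2 := small_deriv r (z * s) hzs
    have h3 : HasDerivAt (fun s : ℝ => z * s) z s := by
      simpa using (hasDerivAt_id s).const_mul z
    have h4 : HasDerivAt (fun s : ℝ => ((1 + z * s) ^ r + (1 - z * s) ^ r))
        ((r * ((1 + z * s) ^ (r - 1) - (1 - z * s) ^ (r - 1))) * z) s :=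
      HasDerivAt.comp s (h₂ := fun x : ℝ => (1 + x) ^ r + (1 - x) ^ r)
        (h := fun s : ℝ => z * s) h2 h3
    exact ((h1.sub_const 2).const_mul (z ^ 2)).sub (h4.sub_const 2)
  have hmono : MonotoneOn G (Set.Icc 0 1) := by
    apply monotoneOn_of_deriv_nonneg (convex_Icc 0 1) hc.continuousOn
    · intro s hs
      rw [interior_Icc] at hs
      exact (hd s hs).differentiableAt.differentiableWithinAt
    · intro s hs
      rw [interior_Icc] at hs
      rw [(hd s hs).deriv]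
      have h1 := n_star (e := r - 1) (s := s) (t := z) (by linarith) (by linarith) hs.1.le
        hs.2.le hz hz1
      have h2 : 0 ≤ z * r := by positivity
      have h3 := mul_nonneg h2 (sub_nonneg.2 h1)
      nlinarith [h3]
  have h0 : G 0 = 0 := by
    simp only [G, mul_zero, add_zero, sub_zero, Real.one_rpow]
    norm_num
  have h1 : G 0 ≤ G 1 := hmono (Set.mem_Icc.2 ⟨le_refl _, zero_le_one⟩)
    (Set.mem_Icc.2 ⟨zero_le_one, le_refl _⟩) zero_le_one
  rw [h0] at h1
  have h2 : G 1 = z ^ 2 * (2 ^ r - 2) - (((1 + z) ^ r + (1 - z) ^ r) - 2) := by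
    simp only [G, mul_one, sub_self]
    rw [Real.zero_rpow (by linarith : r ≠ 0)]
    norm_num
  rw [h2] at h1
  linarith

private lemma big_cont (r : ℝ) (hr : 0 ≤ r) :
    Continuous (fun x : ℝ => (x + 1) ^ r - (x - 1) ^ r) := by
  have h1 : Continuous (fun x : ℝ => (x + 1) ^ r) :=
    (continuous_id.add continuous_const).rpow_const (fun x => Or.inr hr)
  have h2 : Continuous (fun x : ℝ => (x - 1) ^ r) :=
    (continuous_id.sub continuous_const).rpow_const (fun x => Or.inr hr)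
  exact h1.sub h2

private lemma big_deriv (r s : ℝ) (hs : 1 < s) :
    HasDerivAt (fun x : ℝ => (x + 1) ^ r - (x - 1) ^ r)
      (r * ((s + 1) ^ (r - 1) - (s - 1) ^ (r - 1))) s := by
  have h1 : HasDerivAt (fun x : ℝ => x + 1) 1 s := (hasDerivAt_id s).add_const 1
  have h2 : HasDerivAt (fun x : ℝ => x - 1) 1 s := (hasDerivAt_id s).sub_const 1
  have h3 := h1.rpow_const (p := r) (Or.inl (by linarith))
  have h4 := h2.rpow_const (p := r) (Or.inl (by linarith))
  have h5 := h3.sub h4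
  refine h5.congr_deriv ?_
  ring

private lemma big_deriv2 (r s : ℝ) (hs : 1 < s) :
    HasDerivAt (fun x : ℝ => r * ((x + 1) ^ (r - 1) - (x - 1) ^ (r - 1)))
      (r * (r - 1) * ((s + 1) ^ (r - 2) - (s - 1) ^ (r - 2))) s := by
  have h1 : HasDerivAt (fun x : ℝ => x + 1) 1 s := (hasDerivAt_id s).add_const 1
  have h2 : HasDerivAt (fun x : ℝ => x - 1) 1 s := (hasDerivAt_id s).sub_const 1
  have h3 := h1.rpow_const (p := r - 1) (Or.inl (by linarith))
  have h4 := h2.rpow_const (p := r - 1) (Or.inl (by linarith))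
  have h5 := (h3.sub h4).const_mul r
  refine h5.congr_deriv ?_
  have : r - 1 - 1 = r - 2 := by ring
  rw [this]
  ring

private lemma big_concave {r : ℝ} (hr : 1 ≤ r) (hr2 : r ≤ 2) :
    ConcaveOn ℝ (Set.Ici (1 : ℝ)) (fun x : ℝ => (x + 1) ^ r - (x - 1) ^ r) := by
  apply concaveOn_of_hasDerivWithinAt2_nonpos (convex_Ici 1)
    (big_cont r (by linarith)).continuousOn
    (f' := fun x : ℝ => r * ((x + 1) ^ (r - 1) - (x - 1) ^ (r - 1)))
    (f'' := fun x : ℝ => r * (r - 1) * ((x + 1) ^ (r - 2) - (x - 1) ^ (r - 2)))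
  · intro x hx
    rw [interior_Ici] at hx
    exact (big_deriv r x hx).hasDerivWithinAt
  · intro x hx
    rw [interior_Ici] at hx
    exact (big_deriv2 r x hx).hasDerivWithinAt
  · intro x hx
    rw [interior_Ici] at hx
    have hx1 : 1 < x := hx
    have h1 : (x + 1) ^ (r - 2) ≤ (x - 1) ^ (r - 2) :=
      Real.rpow_le_rpow_of_nonpos (by linarith) (by linarith) (by linarith)
    have h2 : 0 ≤ r * (r - 1) := mul_nonneg (by linarith) (by linarith)
    exact mul_nonpos_of_nonneg_of_nonpos h2 (by linarith)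

/-- Monotone on `[1,∞)`. -/
lemma LL_mono {p z z' : ℝ} (hp : 2 < p) (hz : 1 ≤ z) (hzz : z ≤ z') : LL p z ≤ LL p z' := by
  rw [LL_large (by linarith) hz, LL_large (by linarith) (hz.trans hzz)]
  have hmono : MonotoneOn (fun x : ℝ => (x + 1) ^ (p - 1) - (x - 1) ^ (p - 1)) (Set.Ici 1) := by
    apply monotoneOn_of_deriv_nonneg (convex_Ici 1) (big_cont (p - 1) (by linarith)).continuousOn
    · intro s hs
      rw [interior_Ici] at hs
      exact (big_deriv (p - 1) s hs).differentiableAt.differentiableWithinAt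
    · intro s hs
      rw [interior_Ici] at hs
      have hs1 : 1 < s := hs
      rw [(big_deriv (p - 1) s hs).deriv]
      have h1 : (s - 1) ^ (p - 1 - 1) ≤ (s + 1) ^ (p - 1 - 1) :=
        Real.rpow_le_rpow (by linarith) (by linarith) (by linarith)
      exact mul_nonneg (by linarith) (by linarith)
  exact hmono (Set.mem_Ici.2 hz) (Set.mem_Ici.2 (hz.trans hzz)) hzz

/-- Chord bound. -/
lemma LL_chord {p y z : ℝ} (hp : 2 < p) (hp3 : p < 3) (hz : 1 ≤ z) (hzy : z ≤ y) (hy : 1 < y) :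
    LL p y - LL p z ≤ (LL p y - 2 ^ (p - 1)) / (y - 1) * (y - z) := by
  have hc := big_concave (r := p - 1) (by linarith) (by linarith)
  have hy1 : 0 < y - 1 := by linarith
  have ha0 : 0 ≤ (y - z) / (y - 1) := div_nonneg (by linarith) hy1.le
  have hb0 : 0 ≤ (z - 1) / (y - 1) := div_nonneg (by linarith) hy1.le
  have hab : (y - z) / (y - 1) + (z - 1) / (y - 1) = 1 := by
    rw [← add_div]
    rw [div_eq_one_iff_eq hy1.ne']
    ring
  have h := hc.2 (Set.mem_Ici.2 (le_refl (1 : ℝ))) (Set.mem_Ici.2 hy.le) ha0 hb0 hab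
  have hpt : ((y - z) / (y - 1)) • (1 : ℝ) + ((z - 1) / (y - 1)) • y = z := by
    simp only [smul_eq_mul]
    field_simp
    ring
  rw [hpt] at h
  simp only [smul_eq_mul, sub_self] at h
  rw [Real.zero_rpow (by linarith : p - 1 ≠ 0), sub_zero] at h
  have h11 : (1 : ℝ) + 1 = 2 := by norm_num
  rw [h11] at h
  rw [LL_large (p := p) (z := y) (by linarith) hy.le, LL_large (p := p) (z := z) (by linarith) hz]
  set A := (y + 1) ^ (p - 1) - (y - 1) ^ (p - 1) with hA
  set B := (z + 1) ^ (p - 1) - (z - 1) ^ (p - 1) with hB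
  set D := (2 : ℝ) ^ (p - 1) with hD
  have e1 : (A - D) / (y - 1) * (y - z) = A - ((y - z) / (y - 1) * D + (z - 1) / (y - 1) * A) := by
    field_simp
    ring
  rw [e1]
  linarith

/-- Tangent bound. -/
lemma LL_tangent {p y z : ℝ} (hp : 2 < p) (hp3 : p < 3) (hy : 1 < y) (hzy : y ≤ z) :
    LL p z - LL p y ≤ (p - 1) * ((y + 1) ^ (p - 2) - (y - 1) ^ (p - 2)) * (z - y) := by
  rcases hzy.lt_or_eq with h | h
  swap
  · rw [← h]
    simp
  have hc := big_concave (r := p - 1) (by linarith) (by linarith)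
  have hd := big_deriv (p - 1) y hy
  have h1 := hc.slope_le_of_hasDerivAt (Set.mem_Ici.2 hy.le) (Set.mem_Ici.2 (hy.le.trans hzy)) h hd
  rw [slope_def_field, div_le_iff₀ (by linarith)] at h1
  rw [LL_large (p := p) (z := y) (by linarith) hy.le,
    LL_large (p := p) (z := z) (by linarith) (hy.le.trans hzy)]
  have h2 : p - 1 - 1 = p - 2 := by ring
  rw [h2] at h1
  exact h1

end Pool.Agent.H47.NT
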