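import Mathlib
import Pool.Agent.H47.NT.Defs

/-!
Identities at the root, `P = (y+1)^(p-1)`, `Q = (y-1)^(p-1)`, `w = 1/y`.
`CC = y - 1 + (y-1)^(2-p)` (from the equation), hence `CC (y+1)^(p-2) = P - 1`,
`CC (y-1)^(p-2) = Q + 1`, `CC (P + Q) = RR`; with `kk = (p-1) y / CC`, `2 ap y^p = RR/(p-1)`:
* `Ψ(w) = 0` after multiplication by `y^p` is `(p-1) y (P+Q) = kk RR`;
* `E(w) = 0` after multiplication by `y^(p-1)` is `(p-1) y ((y+1)^(p-2) - (y-1)^(p-2)) = kk (P-Q-2)`.
-/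

set_option autoImplicit false

namespace Pool.Agent.H47.NT

lemma Par.CC_eq {p y : ℝ} (h : Par p y) : CC p y = y - 1 + (y - 1) ^ (2 - p) := by
  have := h.heq
  unfold CC
  linarith

/-- `CC > y ≥ 1`: since `(y+1)^(2-p) < 1`. -/
lemma Par.CC_gt {p y : ℝ} (h : Par p y) : y < CC p y := by
  have h1 : (y + 1) ^ (2 - p) < 1 :=
    Real.rpow_lt_one_of_one_lt_of_neg (by linarith [h.hy]) (by linarith [h.hp])
  unfold CC
  linarith

private lemma rpow_split1 {p x : ℝ} (hx : 0 < x) : x ^ (p - 1) = x ^ (p - 2) * x := by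
  have : p - 1 = (p - 2) + 1 := by ring
  rw [this, Real.rpow_add_one hx.ne']

private lemma rpow_split0 {p x : ℝ} (hx : 0 < x) : x ^ p = x ^ (p - 1) * x := by
  have : p = (p - 1) + 1 := by ring
  conv_lhs => rw [this]
  rw [Real.rpow_add_one hx.ne']

private lemma rpow_inv2 {p x : ℝ} (hx : 0 < x) : x ^ (2 - p) * x ^ (p - 2) = 1 := by
  rw [← Real.rpow_add hx]
  have : 2 - p + (p - 2) = 0 := by ring
  rw [this, Real.rpow_zero]

lemma Par.CC_mul_plus {p y : ℝ} (h : Par p y) :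
    CC p y * (y + 1) ^ (p - 2) = (y + 1) ^ (p - 1) - 1 := by
  have hy : 0 < y + 1 := by linarith [h.hy]
  have h1 := rpow_inv2 (p := p) hy
  have h2 := rpow_split1 (p := p) hy
  unfold CC
  rw [h2]
  linear_combination -h1

lemma Par.CC_mul_minus {p y : ℝ} (h : Par p y) :
    CC p y * (y - 1) ^ (p - 2) = (y - 1) ^ (p - 1) + 1 := by
  have hy : 0 < y - 1 := by linarith [h.hy]
  have h1 := rpow_inv2 (p := p) hy
  have h2 := rpow_split1 (p := p) hy
  rw [h.CC_eq, h2]
  linear_combination h1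

lemma Par.CC_mul_sum {p y : ℝ} (h : Par p y) :
    CC p y * ((y + 1) ^ (p - 1) + (y - 1) ^ (p - 1)) = RR p y := by
  have hy : 0 < y + 1 := by linarith [h.hy]
  have hy' : 0 < y - 1 := by linarith [h.hy]
  have h1 := h.CC_mul_plus
  have h2 := h.CC_mul_minus
  have h3 := rpow_split1 (p := p) hy
  have h4 := rpow_split1 (p := p) hy'
  have h5 := rpow_split0 (p := p) hy
  have h6 := rpow_split0 (p := p) hy'
  unfold RR
  rw [h5, h6]
  linear_combination (y + 1) * h1 + (y - 1) * h2 + CC p y * h3 + CC p y * h4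

lemma Par.RR_pos {p y : ℝ} (h : Par p y) : 0 < RR p y := by
  have hy : 0 < y + 1 := by linarith [h.hy]
  have hy' : 0 < y - 1 := by linarith [h.hy]
  have hC : 0 < CC p y := by linarith [h.CC_gt, h.hy]
  rw [← h.CC_mul_sum]
  positivity

lemma Par.kk_pos {p y : ℝ} (h : Par p y) : 0 < kk p y := by
  have hC : 0 < CC p y := by linarith [h.CC_gt, h.hy]
  have hp : 0 < p - 1 := by linarith [h.hp]
  have hy : 0 < y := by linarith [h.hy]
  unfold kk
  positivity

lemma Par.ap_pos {p y : ℝ} (h : Par p y) : 0 < ap p y := by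
  have hR := h.RR_pos
  have hp : 0 < p - 1 := by linarith [h.hp]
  have hy : 0 < y := by linarith [h.hy]
  unfold ap
  positivity

private lemma one_add_div {y : ℝ} (hy : 0 < y) : 1 + 1 / y = (y + 1) / y := by
  field_simp

private lemma one_sub_div' {y : ℝ} (hy : 0 < y) : 1 - 1 / y = (y - 1) / y := by
  field_simp

private lemma rpow_plus {y s : ℝ} (hy : 1 < y) : (1 + 1 / y) ^ s = (y + 1) ^ s / y ^ s := by
  rw [one_add_div (by linarith), Real.div_rpow (by linarith) (by linarith)]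

private lemma rpow_minus {y s : ℝ} (hy : 1 < y) : (1 - 1 / y) ^ s = (y - 1) ^ s / y ^ s := by
  rw [one_sub_div' (by linarith), Real.div_rpow (by linarith) (by linarith)]

/-- `2 k a^p = (1+w)^(p-1) + (1-w)^(p-1)`. -/
lemma Par.two_kk_ap {p y : ℝ} (h : Par p y) :
    2 * kk p y * ap p y = (1 + 1 / y) ^ (p - 1) + (1 - 1 / y) ^ (p - 1) := by
  have hC : 0 < CC p y := by linarith [h.CC_gt, h.hy]
  have hp : 0 < p - 1 := by linarith [h.hp]
  have hy : 0 < y := by linarith [h.hy]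
  have h0 := rpow_split0 (p := p) hy
  have hyp : 0 < y ^ (p - 1) := Real.rpow_pos_of_pos hy _
  rw [rpow_plus h.hy, rpow_minus h.hy]
  unfold kk ap
  rw [← h.CC_mul_sum, h0]
  field_simp

/-- `Ψ(w) = 0`. -/
lemma Par.Psi_w {p y : ℝ} (h : Par p y) :
    p * ((1 + 1 / y) ^ (p - 1) + (1 - 1 / y) ^ (p - 1))
      - kk p y * ((1 + 1 / y) ^ p + (1 - 1 / y) ^ p - 2 * (1 / y) ^ p)
      - 2 * kk p y * ap p y = 0 := by
  have hC : 0 < CC p y := by linarith [h.CC_gt, h.hy]
  have hp : 0 < p - 1 := by linarith [h.hp]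
  have hy : 0 < y := by linarith [h.hy]
  have h0 := rpow_split0 (p := p) hy
  have hyp : 0 < y ^ (p - 1) := Real.rpow_pos_of_pos hy _
  have hypp : 0 < y ^ p := Real.rpow_pos_of_pos hy _
  have key : (p - 1) * ((1 + 1 / y) ^ (p - 1) + (1 - 1 / y) ^ (p - 1))
      = kk p y * ((1 + 1 / y) ^ p + (1 - 1 / y) ^ p - 2 * (1 / y) ^ p) := by
    have h1 : (1 / y) ^ p = 1 / y ^ p := by
      rw [Real.div_rpow (by norm_num) hy.le, Real.one_rpow]
    have h2 : (1 + 1 / y) ^ p + (1 - 1 / y) ^ p - 2 * (1 / y) ^ p = RR p y / y ^ p := by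
      rw [rpow_plus h.hy, rpow_minus h.hy, h1]
      unfold RR
      ring
    rw [h2, rpow_plus h.hy, rpow_minus h.hy, ← h.CC_mul_sum, h0]
    unfold kk
    field_simp
  rw [h.two_kk_ap, ← key]
  ring

/-- `E(w) = 0`. -/
lemma Par.E_w {p y : ℝ} (h : Par p y) :
    (p - 1) * ((1 + 1 / y) ^ (p - 2) - (1 - 1 / y) ^ (p - 2))
      - kk p y * ((1 + 1 / y) ^ (p - 1) - (1 - 1 / y) ^ (p - 1))
      + 2 * kk p y * (1 / y) ^ (p - 1) = 0 := by
  have hC : 0 < CC p y := by linarith [h.CC_gt, h.hy]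
  have hp : 0 < p - 1 := by linarith [h.hp]
  have hy : 0 < y := by linarith [h.hy]
  have h0 := rpow_split1 (p := p) hy
  have hyp : 0 < y ^ (p - 2) := Real.rpow_pos_of_pos hy _
  have h1 : (1 / y) ^ (p - 1) = 1 / y ^ (p - 1) := by
    rw [Real.div_rpow (by norm_num) hy.le, Real.one_rpow]
  have e1 := h.CC_mul_plus
  have e2 := h.CC_mul_minus
  have e3 : (y + 1) ^ (p - 1) = CC p y * (y + 1) ^ (p - 2) + 1 := by linarith
  have e4 : (y - 1) ^ (p - 1) = CC p y * (y - 1) ^ (p - 2) - 1 := by linarith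
  rw [rpow_plus h.hy, rpow_minus h.hy, rpow_plus h.hy, rpow_minus h.hy, h1, e3, e4, h0]
  unfold kk
  field_simp
  ring

/-- `F = k / (p b)` with `b = (a^p)^(-1/p)`. -/
lemma Par.F_eq {p y : ℝ} (h : Par p y) : F p y = kk p y / (p * (1 / ap p y) ^ (1 / p)) := by
  have hC : 0 < CC p y := by linarith [h.CC_gt, h.hy]
  have hp : 0 < p - 1 := by linarith [h.hp]
  have hp0 : 0 < p := by linarith [h.hp]
  have hy : 0 < y := by linarith [h.hy]
  have hR := h.RR_pos
  have hX : 0 < RR p y / (2 * (p - 1)) := by positivity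
  have h1 : (1 / ap p y) ^ (1 / p) = y / (RR p y / (2 * (p - 1))) ^ (1 / p) := by
    have : 1 / ap p y = y ^ p / (RR p y / (2 * (p - 1))) := by
      unfold ap
      rw [one_div_div]
    rw [this, Real.div_rpow (by positivity) hX.le, ← Real.rpow_mul hy.le, mul_one_div_cancel hp0.ne',
      Real.rpow_one]
  have hZ : 0 < (RR p y / (2 * (p - 1))) ^ (1 / p) := Real.rpow_pos_of_pos hX _
  rw [h1]
  unfold F kk
  generalize (RR p y / (2 * (p - 1))) ^ (1 / p) = Z at hZ
  field_simp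

lemma Par.F_pos {p y : ℝ} (h : Par p y) : 0 < F p y := by
  have hC : 0 < CC p y := by linarith [h.CC_gt, h.hy]
  have hp : 0 < p - 1 := by linarith [h.hp]
  have hp0 : 0 < p := by linarith [h.hp]
  have hR := h.RR_pos
  unfold F
  positivity

end Pool.Agent.H47.NT
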