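import Mathlib
import Pool.Agent.H47.NT.Defs

/-!
The root `y`. `G(y) = (y+1)^(-ε) + (y-1)^(-ε)` is strictly decreasing and continuous on `(1,∞)`.
* `y < √2` would give `(y+1)(y-1) < 1` and by AM-GM `G(y) ≥ 2 ((y+1)(y-1))^(-ε/2) > 2`.
* `G(1.45) < 2` : `ε ↦ 2.45^(-ε) + 0.45^(-ε)` is convex, equals `2` at `0`, and at `ε = 1/10` it is
  `0.91430 + 1.08312 < 2`.
* existence by the intermediate value theorem on `[√2, 1.45]`.
-/

set_option autoImplicit false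

namespace Pool.Agent.H47.NT

lemma G_lt {p y y' : ℝ} (hp : 2 < p) (hy : 1 < y) (hyy : y < y') :
    (y' + 1) ^ (2 - p) + (y' - 1) ^ (2 - p) < (y + 1) ^ (2 - p) + (y - 1) ^ (2 - p) := by
  have h1 : (y' + 1) ^ (2 - p) < (y + 1) ^ (2 - p) :=
    Real.rpow_lt_rpow_of_neg (by linarith) (by linarith) (by linarith)
  have h2 : (y' - 1) ^ (2 - p) < (y - 1) ^ (2 - p) :=
    Real.rpow_lt_rpow_of_neg (by linarith) (by linarith) (by linarith)
  linarith

/-- the value at `ε = 1/10` -/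
private lemma G_hi_aux : ((49 / 20 : ℝ)) ^ (-(1 / 10) : ℝ) + ((9 / 20 : ℝ)) ^ (-(1 / 10) : ℝ) < 2 := by
  have h1 : ((49 / 20 : ℝ)) ^ (-(1 / 10) : ℝ) ≤ 915 / 1000 := by
    have : ((49 / 20 : ℝ)) ^ (-(1 / 10) : ℝ) = ((20 / 49 : ℝ)) ^ ((1 / 10) : ℝ) := by
      rw [Real.rpow_neg (by norm_num), ← Real.inv_rpow (by norm_num)]
      norm_num
    rw [this]
    have h10 : (20 / 49 : ℝ) ≤ (915 / 1000 : ℝ) ^ (10 : ℕ) := by norm_num
    calc (20 / 49 : ℝ) ^ ((1 / 10) : ℝ) ≤ ((915 / 1000 : ℝ) ^ (10 : ℕ)) ^ ((1 / 10) : ℝ) :=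
          Real.rpow_le_rpow (by norm_num) h10 (by norm_num)
      _ = 915 / 1000 := by
          rw [← Real.rpow_natCast, ← Real.rpow_mul (by norm_num)]
          norm_num
  have h2 : ((9 / 20 : ℝ)) ^ (-(1 / 10) : ℝ) ≤ 1084 / 1000 := by
    have : ((9 / 20 : ℝ)) ^ (-(1 / 10) : ℝ) = ((20 / 9 : ℝ)) ^ ((1 / 10) : ℝ) := by
      rw [Real.rpow_neg (by norm_num), ← Real.inv_rpow (by norm_num)]
      norm_num
    rw [this]
    have h10 : (20 / 9 : ℝ) ≤ (1084 / 1000 : ℝ) ^ (10 : ℕ) := by norm_num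
    calc (20 / 9 : ℝ) ^ ((1 / 10) : ℝ) ≤ ((1084 / 1000 : ℝ) ^ (10 : ℕ)) ^ ((1 / 10) : ℝ) :=
          Real.rpow_le_rpow (by norm_num) h10 (by norm_num)
      _ = 1084 / 1000 := by
          rw [← Real.rpow_natCast, ← Real.rpow_mul (by norm_num)]
          norm_num
  linarith

/-- chord bound for the convex function `ε ↦ a^(-ε)` on `[0,1/10]` -/
private lemma rpow_chord {a e : ℝ} (ha : 0 < a) (he : 0 ≤ e) (he' : e ≤ 1 / 10) :
    a ^ (-e) ≤ (1 - 10 * e) + 10 * e * a ^ (-(1 / 10) : ℝ) := by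
  have hc := convexOn_exp.2 (Set.mem_univ (0 : ℝ)) (Set.mem_univ (Real.log a * (-(1 / 10))))
    (show 0 ≤ 1 - 10 * e by linarith) (show 0 ≤ 10 * e by linarith) (by ring)
  have h1 : a ^ (-e) = Real.exp ((1 - 10 * e) • (0 : ℝ) + (10 * e) • (Real.log a * (-(1 / 10)))) := by
    rw [Real.rpow_def_of_pos ha]
    congr 1
    simp only [smul_eq_mul]
    ring
  have h2 : a ^ (-(1 / 10) : ℝ) = Real.exp (Real.log a * (-(1 / 10))) := Real.rpow_def_of_pos ha _
  rw [h1, h2]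
  simpa using hc

lemma G_hi {p : ℝ} (hp : 2 < p) (hp' : p ≤ 21 / 10) :
    ((29 / 20 : ℝ) + 1) ^ (2 - p) + ((29 / 20 : ℝ) - 1) ^ (2 - p) < 2 := by
  have e1 : ((29 / 20 : ℝ) + 1) = 49 / 20 := by norm_num
  have e2 : ((29 / 20 : ℝ) - 1) = 9 / 20 := by norm_num
  have e3 : (2 - p) = -(p - 2) := by ring
  rw [e1, e2, e3]
  have h1 := rpow_chord (a := 49 / 20) (e := p - 2) (by norm_num) (by linarith) (by linarith)
  have h2 := rpow_chord (a := 9 / 20) (e := p - 2) (by norm_num) (by linarith) (by linarith)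
  have h3 := G_hi_aux
  nlinarith

/-- AM-GM lower bound. -/
private lemma G_lo {p y : ℝ} (hp : 2 < p) (hy : 1 < y) (hy2 : y ^ 2 < 2) :
    2 < (y + 1) ^ (2 - p) + (y - 1) ^ (2 - p) := by
  have ha : 0 < (y + 1) ^ (2 - p) := Real.rpow_pos_of_pos (by linarith) _
  have hb : 0 < (y - 1) ^ (2 - p) := Real.rpow_pos_of_pos (by linarith) _
  have hm : (y + 1) ^ (2 - p) * (y - 1) ^ (2 - p) = ((y + 1) * (y - 1)) ^ (2 - p) :=
    (Real.mul_rpow (by linarith) (by linarith)).symm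
  have h1 : 1 < ((y + 1) * (y - 1)) ^ (2 - p) := by
    apply Real.one_lt_rpow_of_pos_of_lt_one_of_neg
    · nlinarith
    · nlinarith
    · linarith
  nlinarith [sq_nonneg ((y + 1) ^ (2 - p) - (y - 1) ^ (2 - p))]

/-- AM-GM lower bound, closed case. -/
private lemma G_lo' {p y : ℝ} (hp : 2 < p) (hy : 1 < y) (hy2 : y ^ 2 ≤ 2) :
    2 ≤ (y + 1) ^ (2 - p) + (y - 1) ^ (2 - p) := by
  have ha : 0 < (y + 1) ^ (2 - p) := Real.rpow_pos_of_pos (by linarith) _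
  have hb : 0 < (y - 1) ^ (2 - p) := Real.rpow_pos_of_pos (by linarith) _
  have hm : (y + 1) ^ (2 - p) * (y - 1) ^ (2 - p) = ((y + 1) * (y - 1)) ^ (2 - p) :=
    (Real.mul_rpow (by linarith) (by linarith)).symm
  have h1 : 1 ≤ ((y + 1) * (y - 1)) ^ (2 - p) := by
    apply Real.one_le_rpow_of_pos_of_le_one_of_nonpos
    · nlinarith
    · nlinarith
    · linarith
  nlinarith [sq_nonneg ((y + 1) ^ (2 - p) - (y - 1) ^ (2 - p))]

lemma exists_root {p : ℝ} (hp : 2 < p) (hp' : p ≤ 21 / 10) : ∃ y, Par p y := by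
  have hs1 : (7 / 5 : ℝ) ≤ 29 / 20 := by norm_num
  have hcont : ContinuousOn (fun y : ℝ => (y + 1) ^ (2 - p) + (y - 1) ^ (2 - p))
      (Set.Icc (7 / 5 : ℝ) (29 / 20)) := by
    apply ContinuousOn.add
    · apply ContinuousOn.rpow_const (by fun_prop)
      intro x hx
      left
      have := hx.1
      linarith
    · apply ContinuousOn.rpow_const (by fun_prop)
      intro x hx
      left
      have := hx.1
      linarith
  have hlo : 2 ≤ ((7 / 5 : ℝ) + 1) ^ (2 - p) + ((7 / 5 : ℝ) - 1) ^ (2 - p) :=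
    G_lo' hp (by norm_num) (by norm_num)
  have hhi := G_hi hp hp'
  have := intermediate_value_Icc' hs1 hcont
  obtain ⟨y, hy, hy'⟩ := this (show (2 : ℝ) ∈ Set.Icc _ _ from ⟨hhi.le, hlo⟩)
  exact ⟨y, hp, hp', by linarith [hy.1], hy'⟩

lemma Par.unique {p y y' : ℝ} (h : Par p y) (hy' : 1 < y')
    (h' : (y' + 1) ^ (2 - p) + (y' - 1) ^ (2 - p) = 2) : y' = y := by
  rcases lt_trichotomy y' y with hlt | heq | hgt
  · have := G_lt h.hp hy' hlt
    rw [h', h.heq] at this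
    exact absurd this (lt_irrefl _)
  · exact heq
  · have := G_lt h.hp h.hy hgt
    rw [h', h.heq] at this
    exact absurd this (lt_irrefl _)

private lemma Par.sq {p y : ℝ} (h : Par p y) : 2 ≤ y ^ 2 := by
  by_contra hc
  push Not at hc
  have := G_lo h.hp h.hy hc
  rw [h.heq] at this
  exact lt_irrefl _ this

lemma Par.lo {p y : ℝ} (h : Par p y) : Real.sqrt 2 ≤ y := by
  rw [Real.sqrt_le_left (by linarith [h.hy])]
  exact h.sq

lemma Par.lo' {p y : ℝ} (h : Par p y) : (1.414 : ℝ) ≤ y := by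
  have h1 := h.sq
  have h2 := h.hy
  by_contra hc
  push Not at hc
  nlinarith

lemma Par.hi {p y : ℝ} (h : Par p y) : y ≤ 29 / 20 := by
  by_contra hc
  push Not at hc
  have h1 := G_lt h.hp (show (1 : ℝ) < 29 / 20 by norm_num) hc
  rw [h.heq] at h1
  exact absurd (h1.trans (G_hi h.hp h.hp')) (lt_irrefl _)

end Pool.Agent.H47.NT
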