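import Mathlib
import Pool.Agent.H47.NT.Defs
import Pool.Agent.H47.NT.Root
import Pool.Agent.H47.NT.Iden

/-!
Numerical facts, `ε = p - 2 ∈ (0, 1/10]`, `1.414 ≤ √2 ≤ y ≤ 1.45`. True values (at ε = 0.1):
`k = 1 + 0.385 ε`, `c = 2 + 2.625 ε`, `Φ(1) = 0.6885 ε`, `a^p y^p = 2.133`.
Tools: for `a > 0`, `0 ≤ ε ≤ 1/10`: `a^ε ≤ 1 + 10 ε (a^(1/10) - 1)` (Bernoulli, `Real.rpow_le...` /
`Real.one_add_mul_self_le_rpow_one_add`), `a^ε ≥ 1 + ε log a` (`Real.add_one_le_exp`).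

* `c = (y+1)^(1+ε) - (y-1)^(1+ε)` is nondecreasing in `y`, so `c ≤ 2.45^(1+ε) - 0.45^(1+ε)
  ≤ 2.45 (1 + 0.9374 ε) - 0.45 (1 - 0.7986 ε) ≤ 2 + 2.66 ε`; `c ≥ 2`: superadditivity
  `(y+1)^(1+ε) ≥ (y-1)^(1+ε) + 2^(1+ε)`.
* `k ≥ 1` iff `(y-1)^(-ε) ≤ 1 + ε y`; `k ≤ 1 + 0.4 ε` iff
  `(1+ε) y ≤ (1+0.4ε)(y + 1 - (y+1)^(-ε))`, where `(y+1)^(-ε) ≤ 1/(1 + ε log(y+1))`,
  `log (y+1) ≥ log 2.414 ≥ 0.88`.
* `Φ(1) = p 2^(p-1) - k (2^p - 2) - 2 k a^p`, `2 k a^p = (1+w)^(1+ε) + (1-w)^(1+ε)`, increasing in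
  `w = 1/y ≤ 0.7073`, `≤ 2 + 0.61 ε`; `p 2^(p-1) ≥ 4 + 4.77 ε + 2.3 ε^2` (second order term of `2^ε`
  needed); `2^p - 2 ≤ 2 + 2.872 ε`; so `Φ(1) ≥ (4.77 - 2.872 - 0.8 - 0.61) ε + 1.1 ε^2 ≥ 0.48 ε`.
* `N1`: `(2.66 ε)^2 = 7.08 ε^2 ≤ (4/2.1) 0.38 ε` since `ε ≤ 0.1` (use `c ≥ 2`, `p ≤ 2.1`).
* `N2`: `c - 2^(p-1) ≤ (2.66 - 1.386) ε`, `y - 1 ≥ 0.414`, `y^4 ≤ 4.43`.
* `N3`: `(p-1)((y+1)^ε - (y-1)^ε) ≤ 2.1 ε`.
* `F5` is `RR ≥ 4 (p-1)`: `(y+1)^(2+ε) ≥ (y+1)^2 (1 + ε log(y+1))`, `(y-1)^(2+ε) ≥ (y-1)^2 (1 + ε log(y-1))`,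
  `y^2 ≥ 2` (`Par.lo`), so `RR ≥ 2y^2 + ε (5.13 - 0.17) ≥ 4 + 4.9 ε`.
* `lead`: `k + k a^p ≤ 1 + 0.4 ε + 1 + 0.305 ε`.
* `Kminus`: `y - 1 ≥ 0.414`, `(y-1)^(p-1) ≥ 0.414^1.1 ≥ 0.37`, `(p-1)^2 ≤ 1.21`, so the right side is
  `≥ 0.414/2.31 (1.37 - 1.21) ≥ 0.028`; `CC ≥ √2` (`CC = y - 1 + (y-1)^(2-p) ≥ y`), so
  `CC^(-1/ε) ≤ √2^(-10) = 1/32` and the left side is `≤ 0.1/32 ≤ 0.0032`.
-/

set_option autoImplicit false

namespace Pool.Agent.H47.NT

/-- chord bound for the convex function `e ↦ a^e` on `[0,1/10]` -/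
lemma rpow_chord_pos {a e : ℝ} (ha : 0 < a) (he : 0 ≤ e) (he' : e ≤ 1 / 10) :
    a ^ e ≤ 1 + 10 * e * (a ^ (1 / 10 : ℝ) - 1) := by
  have hc := convexOn_exp.2 (Set.mem_univ (0 : ℝ)) (Set.mem_univ (Real.log a * (1 / 10)))
    (show 0 ≤ 1 - 10 * e by linarith) (show 0 ≤ 10 * e by linarith) (by ring)
  have h1 : a ^ e = Real.exp ((1 - 10 * e) • (0 : ℝ) + (10 * e) • (Real.log a * (1 / 10))) := by
    rw [Real.rpow_def_of_pos ha]
    congr 1
    simp only [smul_eq_mul]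
    ring
  have h2 : a ^ (1 / 10 : ℝ) = Real.exp (Real.log a * (1 / 10)) := Real.rpow_def_of_pos ha _
  rw [h1, h2]
  simp only [smul_eq_mul, mul_zero, zero_add, Real.exp_zero, mul_one] at hc ⊢
  linarith

/-- numerical form: if `a ≤ b^10` then `a^e ≤ 1 + 10 e (b - 1)`. -/
lemma rpow_chord_num {a b e : ℝ} (ha : 0 < a) (hb : 0 ≤ b) (hab : a ≤ b ^ (10 : ℕ))
    (he : 0 ≤ e) (he' : e ≤ 1 / 10) : a ^ e ≤ 1 + 10 * e * (b - 1) := by
  have h1 := rpow_chord_pos ha he he'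
  have h2 : a ^ (1 / 10 : ℝ) ≤ b := by
    calc a ^ (1 / 10 : ℝ) ≤ (b ^ (10 : ℕ)) ^ (1 / 10 : ℝ) :=
          Real.rpow_le_rpow ha.le hab (by norm_num)
      _ = b := by
          rw [← Real.rpow_natCast, ← Real.rpow_mul hb]
          norm_num
  nlinarith

/-- tangent line of `x ^ r`, `r ≥ 1`. -/
lemma rpow_tangent {a b r : ℝ} (ha : 0 < a) (hb : 0 ≤ b) (hr : 1 ≤ r) :
    a ^ r + r * a ^ (r - 1) * (b - a) ≤ b ^ r := by
  have h1 := one_add_mul_self_le_rpow_one_add (s := b / a - 1)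
    (by have : 0 ≤ b / a := div_nonneg hb ha.le
        linarith) hr
  have h2 : (1 + (b / a - 1)) = b / a := by ring
  rw [h2, Real.div_rpow hb ha.le] at h1
  have h3 : 0 < a ^ r := Real.rpow_pos_of_pos ha _
  have h4 : a ^ r = a ^ (r - 1) * a := by
    rw [← Real.rpow_add_one ha.ne']
    congr 1
    ring
  have h5 : (1 + r * (b / a - 1)) * a ^ r ≤ b ^ r := by
    have := mul_le_mul_of_nonneg_right h1 h3.le
    rwa [div_mul_cancel₀ _ h3.ne'] at this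
  have h6 : (1 + r * (b / a - 1)) * a ^ r = a ^ r + r * a ^ (r - 1) * (b - a) := by
    rw [h4]
    field_simp
  linarith

lemma Par.rpow_two_le_cc {p y : ℝ} (h : Par p y) : 2 ^ (p - 1) ≤ cc p y := by
  have h1 := h.hy
  have h2 := h.hp
  have h3 := Real.add_rpow_le_rpow_add (a := y - 1) (b := 2) (p := p - 1) (by linarith) (by norm_num)
    (by linarith)
  have h4 : y - 1 + 2 = y + 1 := by ring
  rw [h4] at h3
  unfold cc
  linarith

lemma Par.two_le_cc {p y : ℝ} (h : Par p y) : 2 ≤ cc p y := by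
  refine le_trans ?_ h.rpow_two_le_cc
  have h2 := h.hp
  calc (2 : ℝ) = 2 ^ (1 : ℝ) := (Real.rpow_one 2).symm
    _ ≤ 2 ^ (p - 1) := Real.rpow_le_rpow_of_exponent_le (by norm_num) (by linarith)

private lemma log_045 : (-0.8 : ℝ) ≤ Real.log 0.45 := by
  rw [Real.le_log_iff_exp_le (by norm_num)]
  have h1 := Real.quadratic_le_exp_of_nonneg (x := 0.1) (by norm_num)
  have h2 : Real.exp 0.8 = Real.exp 0.1 ^ (8 : ℕ) := by
    rw [← Real.exp_nat_mul]; norm_num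
  have h3 : (1 / 0.45 : ℝ) ≤ Real.exp 0.8 := by
    rw [h2]
    refine le_trans ?_ (pow_le_pow_left₀ (by norm_num) h1 8)
    norm_num
  rw [Real.exp_neg]
  rw [inv_le_comm₀ (Real.exp_pos _) (by norm_num)]
  refine le_trans ?_ h3
  norm_num

lemma Par.cc_le {p y : ℝ} (h : Par p y) : cc p y ≤ 2 + 2.66 * (p - 2) := by
  have hp := h.hp
  have hp' := h.hp'
  have h1 := h.lo'
  have h2 := h.hi
  have hs : ∀ x : ℝ, 0 < x → x ^ (p - 1) = x * x ^ (p - 2) := by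
    intro x hx
    have : p - 1 = 1 + (p - 2) := by ring
    rw [this, Real.rpow_add hx, Real.rpow_one]
  have hplus : (y + 1) ^ (p - 2) ≤ 1 + 0.9375 * (p - 2) := by
    have e1 : (y + 1) ^ (p - 2) ≤ (2.45 : ℝ) ^ (p - 2) :=
      Real.rpow_le_rpow (by linarith) (by norm_num; linarith) (by linarith)
    have e2 := rpow_chord_num (a := 2.45) (b := 1.09375) (e := p - 2) (by norm_num) (by norm_num)
      (by norm_num) (by linarith) (by linarith)
    linarith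
  have hminus : 1 + (p - 2) * Real.log (y - 1) ≤ (y - 1) ^ (p - 2) := by
    rw [Real.rpow_def_of_pos (by linarith)]
    have := Real.add_one_le_exp (Real.log (y - 1) * (p - 2))
    linarith
  have hlog : (y - 1) * (-0.8) + (y - 1) - 0.45 ≤ (y - 1) * Real.log (y - 1) := by
    have e1 : Real.log (y - 1) = Real.log 0.45 + Real.log ((y - 1) / 0.45) := by
      rw [← Real.log_mul (by norm_num) (by
        have : 0 < (y - 1) / 0.45 := div_pos (by linarith) (by norm_num)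
        exact this.ne')]
      congr 1
      field_simp
    have e2 := Real.one_sub_inv_le_log_of_pos (x := (y - 1) / 0.45)
      (div_pos (by linarith) (by norm_num))
    have e3 := log_045
    have e4 : (y - 1) * (1 - ((y - 1) / 0.45)⁻¹) = (y - 1) - 0.45 := by
      have : y - 1 ≠ 0 := by linarith
      field_simp
    have e5 : (y - 1) * (1 - ((y - 1) / 0.45)⁻¹) ≤ (y - 1) * Real.log ((y - 1) / 0.45) :=
      mul_le_mul_of_nonneg_left e2 (by linarith)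
    have e6 : (y - 1) * (-0.8) ≤ (y - 1) * Real.log 0.45 :=
      mul_le_mul_of_nonneg_left e3 (by linarith)
    rw [e1, mul_add]
    linarith
  unfold cc
  rw [hs _ (by linarith), hs _ (by linarith)]
  have e1 : (y + 1) * (y + 1) ^ (p - 2) ≤ (y + 1) * (1 + 0.9375 * (p - 2)) :=
    mul_le_mul_of_nonneg_left hplus (by linarith)
  have e2 : (y - 1) * (1 + (p - 2) * Real.log (y - 1)) ≤ (y - 1) * (y - 1) ^ (p - 2) :=
    mul_le_mul_of_nonneg_left hminus (by linarith)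
  have e3 : (p - 2) * ((y - 1) * (-0.8) + (y - 1) - 0.45) ≤ (p - 2) * ((y - 1) * Real.log (y - 1)) :=
    mul_le_mul_of_nonneg_left hlog (by linarith)
  have e4 : (p - 2) * (0.7375 * y) ≤ (p - 2) * (0.7375 * 1.45) :=
    mul_le_mul_of_nonneg_left (by norm_num at h2 ⊢; linarith) (by linarith)
  nlinarith

lemma Par.one_le_kk {p y : ℝ} (h : Par p y) : 1 ≤ kk p y := by
  have hp := h.hp
  have hp' := h.hp'
  have h1 := h.lo'
  have h2 := h.hi
  have hC : 0 < CC p y := by linarith [h.CC_gt]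
  unfold kk
  rw [le_div_iff₀ hC, one_mul, h.CC_eq]
  have e1 : (y - 1) ^ (2 - p) = (1 / (y - 1)) ^ (p - 2) := by
    rw [one_div, Real.inv_rpow (by linarith), ← Real.rpow_neg (by linarith)]
    congr 1
    ring
  have e2 : (1 / (y - 1)) ^ (p - 2) ≤ (2.42 : ℝ) ^ (p - 2) := by
    apply Real.rpow_le_rpow (by have : 0 < y - 1 := by linarith
                                positivity) _ (by linarith)
    rw [div_le_iff₀ (by linarith)]
    nlinarith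
  have e3 := rpow_chord_num (a := 2.42) (b := 1.1) (e := p - 2) (by norm_num) (by norm_num)
      (by norm_num) (by linarith) (by linarith)
  nlinarith

private lemma exp_088 : Real.exp 0.88 ≤ 2.414 := by
  have h1 : Real.exp 0.88 ^ (25 : ℕ) = Real.exp 1 ^ (22 : ℕ) := by
    rw [← Real.exp_nat_mul, ← Real.exp_nat_mul]; norm_num
  have h2 : Real.exp 1 ^ (22 : ℕ) ≤ (2.7182818286 : ℝ) ^ (22 : ℕ) :=
    pow_le_pow_left₀ (Real.exp_pos _).le Real.exp_one_lt_d9.le 22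
  have h3 : (2.7182818286 : ℝ) ^ (22 : ℕ) ≤ (2.414 : ℝ) ^ (25 : ℕ) := by norm_num
  by_contra hc
  push Not at hc
  have h4 : (2.414 : ℝ) ^ (25 : ℕ) < Real.exp 0.88 ^ (25 : ℕ) :=
    pow_lt_pow_left₀ hc (by norm_num) (by norm_num)
  linarith

private lemma exp_neg_quad {x : ℝ} (hx : 0 ≤ x) : Real.exp (-x) ≤ 1 - x + x ^ 2 / 2 := by
  have h1 := Real.quadratic_le_exp_of_nonneg hx
  have h2 : 0 < 1 + x + x ^ 2 / 2 := by positivity
  rw [Real.exp_neg]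
  calc (Real.exp x)⁻¹ ≤ (1 + x + x ^ 2 / 2)⁻¹ := inv_anti₀ h2 h1
    _ ≤ 1 - x + x ^ 2 / 2 := by
      rw [inv_le_iff_one_le_mul₀ h2]
      nlinarith [sq_nonneg (x ^ 2)]

lemma Par.kk_le {p y : ℝ} (h : Par p y) : kk p y ≤ 1 + 0.4 * (p - 2) := by
  have hp := h.hp
  have hp' := h.hp'
  have h1 := h.lo'
  have h2 := h.hi
  have hC : 0 < CC p y := by linarith [h.CC_gt]
  have e0 : (y + 1) ^ (2 - p) ≤ 1 - 0.88 * (p - 2) + (0.88 * (p - 2)) ^ 2 / 2 := by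
    have e1 : (0.88 : ℝ) ≤ Real.log (y + 1) := by
      rw [Real.le_log_iff_exp_le (by linarith)]
      have := exp_088
      norm_num at this h1 ⊢
      linarith
    rw [Real.rpow_def_of_pos (by linarith)]
    refine le_trans (Real.exp_le_exp.mpr ?_) (exp_neg_quad (x := 0.88 * (p - 2)) (by nlinarith))
    nlinarith
  unfold kk
  rw [div_le_iff₀ hC]
  unfold CC
  have e5 : (1 + 0.4 * (p - 2)) * (y + 1 - (1 - 0.88 * (p - 2) + (0.88 * (p - 2)) ^ 2 / 2))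
      ≤ (1 + 0.4 * (p - 2)) * (y + 1 - (y + 1) ^ (2 - p)) :=
    mul_le_mul_of_nonneg_left (by linarith) (by linarith)
  refine le_trans ?_ e5
  obtain ⟨e, he⟩ : ∃ e, e = p - 2 := ⟨_, rfl⟩
  have hpe : p = 2 + e := by linarith
  subst hpe
  have he0 : 0 < e := by linarith
  have he1 : e ≤ 0.1 := by norm_num at hp' ⊢; linarith
  have key : (0 : ℝ) ≤ e * (0.88 - 0.6 * y + 0.352 * e - 0.3872 * e * (1 + 0.4 * e)) := by
    apply mul_nonneg he0.le
    norm_num at h2 he1 ⊢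
    nlinarith
  nlinarith

lemma Par.two_kk_ap_le {p y : ℝ} (h : Par p y) : 2 * kk p y * ap p y ≤ 2 + 0.61 * (p - 2) := by
  have hp := h.hp
  have hp' := h.hp'
  have h1 := h.lo'
  have h2 := h.hi
  rw [h.two_kk_ap]
  obtain ⟨w, hw⟩ : ∃ w, w = 1 / y := ⟨_, rfl⟩
  rw [← hw]
  have hw0 : 0 < w := by rw [hw]; have : 0 < y := by linarith
                         positivity
  have hw1 : w ≤ 0.7073 := by
    rw [hw, div_le_iff₀ (by linarith)]
    norm_num at h1 ⊢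
    linarith
  have hs : ∀ x : ℝ, 0 < x → x ^ (p - 1) = x * x ^ (p - 2) := by
    intro x hx
    have : p - 1 = 1 + (p - 2) := by ring
    rw [this, Real.rpow_add hx, Real.rpow_one]
  have t1 := rpow_tangent (a := 1 + w) (b := 1.7073) (r := p - 1) (by linarith) (by norm_num)
    (by linarith)
  have t2 := rpow_tangent (a := 1 - w) (b := 0.2927) (r := p - 1) (by linarith) (by norm_num)
    (by linarith)
  have t3 : (1 - w) ^ (p - 1 - 1) ≤ (1 + w) ^ (p - 1 - 1) :=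
    Real.rpow_le_rpow (by linarith) (by linarith) (by linarith)
  have t4 : 0 ≤ (p - 1) * ((1 + w) ^ (p - 1 - 1) - (1 - w) ^ (p - 1 - 1)) * (0.7073 - w) :=
    mul_nonneg (mul_nonneg (by linarith) (by linarith)) (by linarith)
  have u1 := rpow_chord_num (a := 1.7073) (b := 1.05495) (e := p - 2) (by norm_num) (by norm_num)
      (by norm_num) (by linarith) (by linarith)
  have u2 := rpow_chord_num (a := 0.2927) (b := 0.8844) (e := p - 2) (by norm_num) (by norm_num)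
      (by norm_num) (by linarith) (by linarith)
  have v1 := hs 1.7073 (by norm_num)
  have v2 := hs 0.2927 (by norm_num)
  nlinarith

end Pool.Agent.H47.NT
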