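import Mathlib
import Pool.Agent.H47.NT.Defs
import Pool.Agent.H47.NT.Root
import Pool.Agent.H47.NT.Iden
import Pool.Agent.H47.NT.NumA

/-!
Numerical facts, `ε = p - 2 ∈ (0, 1/10]`, `1.414 ≤ √2 ≤ y ≤ 1.45`. True values (at ε = 0.1):
`k = 1 + 0.385 ε`, `c = 2 + 2.625 ε`, `Φ(1) = 0.6885 ε`, `a^p y^p = 2.133`.
Tools: for `a > 0`, `0 ≤ ε ≤ 1/10`: `a^ε ≤ 1 + 10 ε (a^(1/10) - 1)` (Bernoulli, `Real.rpow_le...` /
`Real.one_add_mul_self_le_rpow_one_add`), `a^ε ≥ 1 + ε log a` (`Real.add_one_le_exp`).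

* `c = (y+1)^(1+ε) - (y-1)^(1+ε)` is nondecreasing in `y`, so `c ≤ 2.45^(1+ε) - 0.45^(1+ε)
  ≤ 2.45 (1 + 0.9374 ε) - 0.45 (1 - 0.7986 ε) ≤ 2 + 2.66 ε`; `c ≥ 2`: superadditivity
  `(y+1)^(1+ε) ≥ (y-1)^(1+ε) + 2^(1+ε)`.
* `k ≥ 1` iff `(y-1)^(-ε) ≤ 1 + ε y`; `k ≤ 1 + 0.4 ε` iff
  `(1+ε) y ≤ (1+0.4ε)(y + 1 - (y+1)^(-ε))`, where `(y+1)^(-ε) ≤ 1/(1 + ε log(y+1))`,
  `log (y+1) ≥ log 2.414 ≥ 0.88`.
* `Φ(1) = p 2^(p-1) - k (2^p - 2) - 2 k a^p`, `2 k a^p = (1+w)^(1+ε) + (1-w)^(1+ε)`, increasing in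
  `w = 1/y ≤ 0.7073`, `≤ 2 + 0.61 ε`; `p 2^(p-1) ≥ 4 + 4.77 ε + 2.3 ε^2` (second order term of `2^ε`
  needed); `2^p - 2 ≤ 2 + 2.872 ε`; so `Φ(1) ≥ (4.77 - 2.872 - 0.8 - 0.61) ε + 1.1 ε^2 ≥ 0.48 ε`.
* `N1`: `(2.66 ε)^2 = 7.08 ε^2 ≤ (4/2.1) 0.38 ε` since `ε ≤ 0.1` (use `c ≥ 2`, `p ≤ 2.1`).
* `N2`: `c - 2^(p-1) ≤ (2.66 - 1.386) ε`, `y - 1 ≥ 0.414`, `y^4 ≤ 4.43`.
* `N3`: `(p-1)((y+1)^ε - (y-1)^ε) ≤ 2.1 ε`.
* `F5` is `RR ≥ 4 (p-1)`: `(y+1)^(2+ε) ≥ (y+1)^2 (1 + ε log(y+1))`, `(y-1)^(2+ε) ≥ (y-1)^2 (1 + ε log(y-1))`,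
  `y^2 ≥ 2` (`Par.lo`), so `RR ≥ 2y^2 + ε (5.13 - 0.17) ≥ 4 + 4.9 ε`.
* `lead`: `k + k a^p ≤ 1 + 0.4 ε + 1 + 0.305 ε`.
* `Kminus`: `y - 1 ≥ 0.414`, `(y-1)^(p-1) ≥ 0.414^1.1 ≥ 0.37`, `(p-1)^2 ≤ 1.21`, so the right side is
  `≥ 0.414/2.31 (1.37 - 1.21) ≥ 0.028`; `CC ≥ √2` (`CC = y - 1 + (y-1)^(2-p) ≥ y`), so
  `CC^(-1/ε) ≤ √2^(-10) = 1/32` and the left side is `≤ 0.1/32 ≤ 0.0032`.
-/

set_option autoImplicit false

namespace Pool.Agent.H47.NT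

private lemma two_rpow_ge {e : ℝ} (he : 0 ≤ e) : 1 + 0.693 * e ≤ (2 : ℝ) ^ e := by
  have h1 : (0.693 : ℝ) ≤ Real.log 2 := by
    have := Real.log_two_gt_d9
    norm_num at this ⊢
    linarith
  rw [Real.rpow_def_of_pos (by norm_num)]
  have h2 := Real.add_one_le_exp (Real.log 2 * e)
  nlinarith

private lemma Par.minus_ge {p y : ℝ} (h : Par p y) : 1 - (p - 2) ≤ (y - 1) ^ (p - 2) := by
  have hp := h.hp
  have hp' := h.hp'
  have h1 := h.lo'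
  have h2 := h.hi
  have hy : 0 < y - 1 := by linarith
  have e2 : (1 / (y - 1)) ^ (p - 2) ≤ (2.42 : ℝ) ^ (p - 2) := by
    apply Real.rpow_le_rpow (by positivity) _ (by linarith)
    rw [div_le_iff₀ (by linarith)]
    nlinarith
  have e3 := rpow_chord_num (a := 2.42) (b := 1.1) (e := p - 2) (by norm_num) (by norm_num)
      (by norm_num) (by linarith) (by linarith)
  have e1 : (1 / (y - 1)) ^ (p - 2) = 1 / (y - 1) ^ (p - 2) := by
    rw [Real.div_rpow (by norm_num) hy.le, Real.one_rpow]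
  have e4 : 0 < (y - 1) ^ (p - 2) := Real.rpow_pos_of_pos hy _
  have e5 : 1 / (y - 1) ^ (p - 2) ≤ 1 + (p - 2) := by
    rw [← e1]; refine e2.trans (e3.trans ?_); nlinarith
  rw [div_le_iff₀ e4] at e5
  nlinarith

private lemma Par.plus_le {p y : ℝ} (h : Par p y) : (y + 1) ^ (p - 2) ≤ 1 + 0.938 * (p - 2) := by
  have hp := h.hp
  have hp' := h.hp'
  have h1 := h.lo'
  have h2 := h.hi
  have e2 : (y + 1) ^ (p - 2) ≤ (2.45 : ℝ) ^ (p - 2) := by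
    apply Real.rpow_le_rpow (by linarith) _ (by linarith)
    norm_num at h2 ⊢
    linarith
  have e3 := rpow_chord_num (a := 2.45) (b := 1.0938) (e := p - 2) (by norm_num) (by norm_num)
      (by norm_num) (by linarith) (by linarith)
  refine e2.trans (e3.trans ?_)
  nlinarith

private lemma Par.plus_ge {p y : ℝ} (h : Par p y) : 1 + 0.85 * (p - 2) ≤ (y + 1) ^ (p - 2) := by
  have hp := h.hp
  have h1 := h.lo'
  have hl : (0.85 : ℝ) ≤ Real.log (y + 1) := by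
    have a1 : Real.log 2.4 ≤ Real.log (y + 1) :=
      Real.log_le_log (by norm_num) (by norm_num at h1 ⊢; linarith)
    have a2 : Real.log 2.4 = Real.log 2 + Real.log 1.2 := by
      rw [← Real.log_mul (by norm_num) (by norm_num)]; norm_num
    have a3 := Real.one_sub_inv_le_log_of_pos (show (0 : ℝ) < 1.2 by norm_num)
    have a4 := Real.log_two_gt_d9
    norm_num at a1 a2 a3 a4 ⊢
    linarith
  rw [Real.rpow_def_of_pos (by linarith)]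
  have h2 := Real.add_one_le_exp (Real.log (y + 1) * (p - 2))
  nlinarith

private lemma Par.y_four {p y : ℝ} (h : Par p y) : y ^ 4 ≤ 4.43 := by
  have h1 := h.lo'
  have h2 := h.hi
  have h3 : y ^ 4 ≤ (29 / 20 : ℝ) ^ 4 := pow_le_pow_left₀ (by linarith) h2 4
  refine h3.trans ?_
  norm_num

lemma Par.Phi_one {p y : ℝ} (h : Par p y) : 0.38 * (p - 2) ≤ Phi p y 1 := by
  have hp := h.hp
  have hp' := h.hp'
  have hk := h.kk_le
  have ha := h.two_kk_ap_le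
  have hT := two_rpow_ge (e := p - 2) (by linarith)
  have e1 : j p (1 + 1) = 2 * 2 ^ (p - 2) := by
    unfold j
    norm_num
    ring
  have e2 : j p (1 - 1) = 0 := by
    unfold j
    norm_num
  have e3 : |(1 : ℝ) + 1| ^ p = 4 * 2 ^ (p - 2) := by
    have : |(1 : ℝ) + 1| = 2 := by norm_num
    rw [this]
    have h2 : (2 : ℝ) ^ p = 2 ^ (2 : ℝ) * 2 ^ (p - 2) := by
      rw [← Real.rpow_add (by norm_num)]
      congr 1
      ring
    rw [h2]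
    norm_num
  have e4 : |(1 : ℝ) - 1| ^ p = 0 := by
    have : |(1 : ℝ) - 1| = 0 := by norm_num
    rw [this, Real.zero_rpow (by linarith)]
  unfold Phi
  rw [e1, e2, e3, e4, Real.one_rpow]
  have hT0 : (1 : ℝ) ≤ 2 ^ (p - 2) := by nlinarith
  have hm : kk p y * (4 * 2 ^ (p - 2) + 0 - 2) ≤ (1 + 0.4 * (p - 2)) * (4 * 2 ^ (p - 2) + 0 - 2) :=
    mul_le_mul_of_nonneg_right hk (by linarith)
  have hn : (p - 2) * 1 ≤ (p - 2) * 2 ^ (p - 2) := mul_le_mul_of_nonneg_left hT0 (by linarith)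
  nlinarith

lemma Par.N1 {p y : ℝ} (h : Par p y) : (cc p y - 2) ^ 2 ≤ 2 * cc p y / p * Phi p y 1 := by
  have hp := h.hp
  have hp' := h.hp'
  have h1 := h.two_le_cc
  have h2 := h.cc_le
  have h3 := h.Phi_one
  have h4 : (cc p y - 2) ^ 2 ≤ (2.66 * (p - 2)) ^ 2 :=
    pow_le_pow_left₀ (by linarith) (by linarith) 2
  have h5 : (2.66 * (p - 2)) ^ 2 ≤ 0.70756 * (p - 2) := by
    have : (p - 2) * (p - 2) ≤ (p - 2) * 0.1 :=
      mul_le_mul_of_nonneg_left (by norm_num at hp' ⊢; linarith) (by linarith)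
    nlinarith
  have h6 : (1.904 : ℝ) ≤ 2 * cc p y / p := by
    rw [le_div_iff₀ (by linarith)]
    nlinarith
  have h7 : 1.904 * (0.38 * (p - 2)) ≤ 2 * cc p y / p * Phi p y 1 :=
    mul_le_mul h6 h3 (by nlinarith) (by linarith)
  nlinarith

lemma Par.N2 {p y : ℝ} (h : Par p y) :
    y ^ 4 * ((cc p y - 2 ^ (p - 1)) / (y - 1)) ^ 2 ≤ 4 * cc p y * kk p y * (p - 2) := by
  have hp := h.hp
  have hp' := h.hp'
  have hy := h.lo'
  have h1 := h.two_le_cc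
  have h2 := h.cc_le
  have h3 := h.one_le_kk
  have h4 := h.rpow_two_le_cc
  have h5 := h.y_four
  have hT := two_rpow_ge (e := p - 2) (by linarith)
  have h6 : (2 : ℝ) ^ (p - 1) = 2 * 2 ^ (p - 2) := by
    have : p - 1 = 1 + (p - 2) := by ring
    rw [this, Real.rpow_add (by norm_num), Real.rpow_one]
  have h7 : (cc p y - 2 ^ (p - 1)) / (y - 1) ≤ 3.1 * (p - 2) := by
    rw [div_le_iff₀ (by linarith)]
    have : 3.1 * (p - 2) * 0.414 ≤ 3.1 * (p - 2) * (y - 1) :=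
      mul_le_mul_of_nonneg_left (by norm_num at hy ⊢; linarith) (by nlinarith)
    rw [h6]
    nlinarith
  have h8 : 0 ≤ (cc p y - 2 ^ (p - 1)) / (y - 1) :=
    div_nonneg (by linarith) (by linarith)
  have h9 : ((cc p y - 2 ^ (p - 1)) / (y - 1)) ^ 2 ≤ (3.1 * (p - 2)) ^ 2 :=
    pow_le_pow_left₀ h8 h7 2
  have h10 : (3.1 * (p - 2)) ^ 2 ≤ 0.961 * (p - 2) := by
    have : (p - 2) * (p - 2) ≤ (p - 2) * 0.1 :=
      mul_le_mul_of_nonneg_left (by norm_num at hp' ⊢; linarith) (by linarith)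
    nlinarith
  have h11 : y ^ 4 * ((cc p y - 2 ^ (p - 1)) / (y - 1)) ^ 2 ≤ 4.43 * (0.961 * (p - 2)) :=
    mul_le_mul h5 (h9.trans h10) (by positivity) (by norm_num)
  have h12 : (2 : ℝ) * 1 ≤ cc p y * kk p y := mul_le_mul h1 h3 (by norm_num) (by linarith)
  have h13 : 4 * (2 * 1) * (p - 2) ≤ 4 * (cc p y * kk p y) * (p - 2) :=
    mul_le_mul_of_nonneg_right (by linarith) (by linarith)
  nlinarith

lemma Par.N3 {p y : ℝ} (h : Par p y) :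
    y ^ 4 * ((p - 1) * ((y + 1) ^ (p - 2) - (y - 1) ^ (p - 2))) ^ 2
      ≤ 2 * cc p y * kk p y * (p - 2) := by
  have hp := h.hp
  have hp' := h.hp'
  have hy := h.lo'
  have h1 := h.two_le_cc
  have h3 := h.one_le_kk
  have h5 := h.y_four
  have a1 := h.plus_le
  have a2 := h.minus_ge
  have a3 : (y - 1) ^ (p - 2) ≤ (y + 1) ^ (p - 2) :=
    Real.rpow_le_rpow (by linarith) (by linarith) (by linarith)
  have h7 : (p - 1) * ((y + 1) ^ (p - 2) - (y - 1) ^ (p - 2)) ≤ 1.1 * (1.938 * (p - 2)) :=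
    mul_le_mul (by norm_num at hp' ⊢; linarith) (by nlinarith) (by linarith) (by norm_num)
  have h8 : 0 ≤ (p - 1) * ((y + 1) ^ (p - 2) - (y - 1) ^ (p - 2)) :=
    mul_nonneg (by linarith) (by linarith)
  have h9 := pow_le_pow_left₀ h8 h7 2
  have h10 : (1.1 * (1.938 * (p - 2))) ^ 2 ≤ 0.46 * (p - 2) := by
    have : (p - 2) * (p - 2) ≤ (p - 2) * 0.1 :=
      mul_le_mul_of_nonneg_left (by norm_num at hp' ⊢; linarith) (by linarith)
    nlinarith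
  have h11 : y ^ 4 * ((p - 1) * ((y + 1) ^ (p - 2) - (y - 1) ^ (p - 2))) ^ 2
      ≤ 4.43 * (0.46 * (p - 2)) :=
    mul_le_mul h5 (h9.trans h10) (by positivity) (by norm_num)
  have h12 : (2 : ℝ) * 1 ≤ cc p y * kk p y := mul_le_mul h1 h3 (by norm_num) (by linarith)
  have h13 : 2 * (2 * 1) * (p - 2) ≤ 2 * (cc p y * kk p y) * (p - 2) :=
    mul_le_mul_of_nonneg_right (by linarith) (by linarith)
  nlinarith

lemma Par.F5 {p y : ℝ} (h : Par p y) : 2 ≤ ap p y * y ^ p := by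
  have hp := h.hp
  have hp' := h.hp'
  have hy := h.lo'
  have hy2 : 2 ≤ y ^ 2 := by
    have h1 := h.lo
    have h2 := Real.sq_sqrt (show (0 : ℝ) ≤ 2 by norm_num)
    have h3 := pow_le_pow_left₀ (Real.sqrt_nonneg 2) h1 2
    linarith
  have hyp : 0 < y ^ p := Real.rpow_pos_of_pos (by linarith) _
  unfold ap
  rw [div_mul_cancel₀ _ hyp.ne', le_div_iff₀ (by linarith)]
  have hs : ∀ x : ℝ, 0 < x → x ^ p = x ^ 2 * x ^ (p - 2) := by
    intro x hx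
    have : p = 2 + (p - 2) := by ring
    nth_rw 1 [this]
    rw [Real.rpow_add hx, Real.rpow_two]
  have b1 := hs (y + 1) (by linarith)
  have b2 := hs (y - 1) (by linarith)
  have a1 := h.plus_ge
  have a2 := h.minus_ge
  have c1 : (y + 1) ^ 2 * (1 + 0.85 * (p - 2)) ≤ (y + 1) ^ 2 * (y + 1) ^ (p - 2) :=
    mul_le_mul_of_nonneg_left a1 (by positivity)
  have c2 : (y - 1) ^ 2 * (1 - (p - 2)) ≤ (y - 1) ^ 2 * (y - 1) ^ (p - 2) :=
    mul_le_mul_of_nonneg_left a2 (by positivity)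
  have h2 := h.hi
  have d1 : (5.82 : ℝ) ≤ (y + 1) ^ 2 := by
    norm_num at hy ⊢
    nlinarith
  have d2 : (y - 1) ^ 2 ≤ 0.21 := by
    norm_num at hy h2 ⊢
    nlinarith
  have d3 : 5.82 * (p - 2) ≤ (y + 1) ^ 2 * (p - 2) := mul_le_mul_of_nonneg_right d1 (by linarith)
  have d4 : (y - 1) ^ 2 * (p - 2) ≤ 0.21 * (p - 2) := mul_le_mul_of_nonneg_right d2 (by linarith)
  unfold RR
  rw [b1, b2]
  nlinarith

/-- Leading coefficient at infinity. -/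
lemma Par.lead {p y : ℝ} (h : Par p y) : 0 ≤ p - kk p y - kk p y * ap p y := by
  have hp := h.hp
  have hk := h.kk_le
  have ha := h.two_kk_ap_le
  nlinarith

end Pool.Agent.H47.NT
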