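import Mathlib
import Pool.Agent.H47.NT.Defs
import Pool.Agent.H47.NT.Root
import Pool.Agent.H47.NT.Iden

/-!
Numerical facts, `ε = p - 2 ∈ (0, 1/10]`, `1.414 ≤ √2 ≤ y ≤ 1.45`. True values (at ε = 0.1):
`k = 1 + 0.385 ε`, `c = 2 + 2.625 ε`, `Φ(1) = 0.6885 ε`, `a^p y^p = 2.133`.
Tools: for `a > 0`, `0 ≤ ε ≤ 1/10`: `a^ε ≤ 1 + 10 ε (a^(1/10) - 1)` (Bernoulli, `Real.rpow_le...` /
`Real.one_add_mul_self_le_rpow_one_add`), `a^ε ≥ 1 + ε log a` (`Real.add_one_le_exp`).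

* `c = (y+1)^(1+ε) - (y-1)^(1+ε)` is nondecreasing in `y`, so `c ≤ 2.45^(1+ε) - 0.45^(1+ε)
  ≤ 2.45 (1 + 0.9374 ε) - 0.45 (1 - 0.7986 ε) ≤ 2 + 2.66 ε`; `c ≥ 2`: superadditivity
  `(y+1)^(1+ε) ≥ (y-1)^(1+ε) + 2^(1+ε)`.
* `k ≥ 1` iff `(y-1)^(-ε) ≤ 1 + ε y`; `k ≤ 1 + 0.4 ε` iff
  `(1+ε) y ≤ (1+0.4ε)(y + 1 - (y+1)^(-ε))`, where `(y+1)^(-ε) ≤ 1/(1 + ε log(y+1))`,
  `log (y+1) ≥ log 2.414 ≥ 0.88`.
* `Φ(1) = p 2^(p-1) - k (2^p - 2) - 2 k a^p`, `2 k a^p = (1+w)^(1+ε) + (1-w)^(1+ε)`, increasing in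
  `w = 1/y ≤ 0.7073`, `≤ 2 + 0.61 ε`; `p 2^(p-1) ≥ 4 + 4.77 ε + 2.3 ε^2` (second order term of `2^ε`
  needed); `2^p - 2 ≤ 2 + 2.872 ε`; so `Φ(1) ≥ (4.77 - 2.872 - 0.8 - 0.61) ε + 1.1 ε^2 ≥ 0.48 ε`.
* `N1`: `(2.66 ε)^2 = 7.08 ε^2 ≤ (4/2.1) 0.38 ε` since `ε ≤ 0.1` (use `c ≥ 2`, `p ≤ 2.1`).
* `N2`: `c - 2^(p-1) ≤ (2.66 - 1.386) ε`, `y - 1 ≥ 0.414`, `y^4 ≤ 4.43`.
* `N3`: `(p-1)((y+1)^ε - (y-1)^ε) ≤ 2.1 ε`.
* `F5` is `RR ≥ 4 (p-1)`: `(y+1)^(2+ε) ≥ (y+1)^2 (1 + ε log(y+1))`, `(y-1)^(2+ε) ≥ (y-1)^2 (1 + ε log(y-1))`,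
  `y^2 ≥ 2` (`Par.lo`), so `RR ≥ 2y^2 + ε (5.13 - 0.17) ≥ 4 + 4.9 ε`.
* `lead`: `k + k a^p ≤ 1 + 0.4 ε + 1 + 0.305 ε`.
* `Kminus`: `y - 1 ≥ 0.414`, `(y-1)^(p-1) ≥ 0.414^1.1 ≥ 0.37`, `(p-1)^2 ≤ 1.21`, so the right side is
  `≥ 0.414/2.31 (1.37 - 1.21) ≥ 0.028`; `CC ≥ √2` (`CC = y - 1 + (y-1)^(2-p) ≥ y`), so
  `CC^(-1/ε) ≤ √2^(-10) = 1/32` and the left side is `≤ 0.1/32 ≤ 0.0032`.
-/

set_option autoImplicit false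

namespace Pool.Agent.H47.NT

lemma Par.Kminus_aux {p y : ℝ} (h : Par p y) :
    0.02 ≤ (y - 1) / (p * (p - 1)) * ((y - 1) ^ (p - 1) + 1 - (p - 1) ^ 2) := by
  have hp := h.hp
  have hp' := h.hp'
  have h1 := h.lo'
  have h2 := h.hi
  have hy1 : (0.414 : ℝ) ≤ y - 1 := by linarith
  have hb : (0.37 : ℝ) ≤ (y - 1) ^ (p - 1) := by
    have e1 : (y - 1) ^ (1.1 : ℝ) ≤ (y - 1) ^ (p - 1) :=
      Real.rpow_le_rpow_of_exponent_ge (by linarith) (by linarith) (by norm_num; linarith)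
    have e2 : (0.414 : ℝ) ^ (1.1 : ℝ) ≤ (y - 1) ^ (1.1 : ℝ) :=
      Real.rpow_le_rpow (by norm_num) hy1 (by norm_num)
    have e3 : (0.37 : ℝ) ≤ (0.414 : ℝ) ^ (1.1 : ℝ) := by
      have e4 : ((0.37 : ℝ) ^ (10 : ℕ)) ^ (1 / 10 : ℝ) = 0.37 := by
        rw [← Real.rpow_natCast, ← Real.rpow_mul (by norm_num)]
        norm_num
      have e5 : ((0.414 : ℝ) ^ (11 : ℕ)) ^ (1 / 10 : ℝ) = (0.414 : ℝ) ^ (1.1 : ℝ) := by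
        rw [← Real.rpow_natCast, ← Real.rpow_mul (by norm_num)]
        norm_num
      rw [← e4, ← e5]
      exact Real.rpow_le_rpow (by positivity) (by norm_num) (by norm_num)
    linarith
  have hsq : (p - 1) ^ 2 ≤ 1.21 := by nlinarith
  have hbr : (0.16 : ℝ) ≤ (y - 1) ^ (p - 1) + 1 - (p - 1) ^ 2 := by linarith
  have hden : p * (p - 1) ≤ 2.31 := by nlinarith
  have hden0 : 0 < p * (p - 1) := by nlinarith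
  have hq : (0.414 : ℝ) / 2.31 ≤ (y - 1) / (p * (p - 1)) := by
    rw [div_le_div_iff₀ (by norm_num) hden0]
    nlinarith
  calc (0.02 : ℝ) ≤ 0.414 / 2.31 * 0.16 := by norm_num
    _ ≤ _ := mul_le_mul hq hbr (by norm_num) (le_trans (by norm_num) hq)

/-- For the upper bound: value at `1 - y` beats the spurious maximum. -/
lemma Par.Kminus_num {p y : ℝ} (h : Par p y) :
    (p - 2) / (p - 1) * CC p y ^ (-(1 / (p - 2)))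
      ≤ (y - 1) / (p * (p - 1)) * ((y - 1) ^ (p - 1) + 1 - (p - 1) ^ 2) := by
  refine le_trans ?_ h.Kminus_aux
  have hp := h.hp
  have hp' := h.hp'
  have h1 := h.lo'
  have hC : (1.414 : ℝ) ≤ CC p y := by linarith [h.CC_gt]
  have hε : 0 < p - 2 := by linarith
  have e1 : CC p y ^ (-(1 / (p - 2))) ≤ CC p y ^ (-10 : ℝ) := by
    apply Real.rpow_le_rpow_of_exponent_le (by linarith)
    have : (10 : ℝ) ≤ 1 / (p - 2) := by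
      rw [le_div_iff₀ hε]; linarith
    linarith
  have e2 : CC p y ^ (-10 : ℝ) ≤ (1.414 : ℝ) ^ (-10 : ℝ) :=
    Real.rpow_le_rpow_of_nonpos (by norm_num) hC (by norm_num)
  have e3 : (1.414 : ℝ) ^ (-10 : ℝ) ≤ 0.04 := by
    rw [Real.rpow_neg (by norm_num)]
    have : (1.414 : ℝ) ^ (10 : ℝ) = (1.414 : ℝ) ^ (10 : ℕ) := by
      rw [← Real.rpow_natCast]; norm_num
    rw [this]
    norm_num
  have e4 : (p - 2) / (p - 1) ≤ 0.1 := by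
    rw [div_le_iff₀ (by linarith)]; nlinarith
  have e5 : 0 ≤ (p - 2) / (p - 1) := div_nonneg hε.le (by linarith)
  have e6 : 0 ≤ CC p y ^ (-(1 / (p - 2))) := Real.rpow_nonneg (by linarith) _
  calc (p - 2) / (p - 1) * CC p y ^ (-(1 / (p - 2))) ≤ 0.1 * 0.04 :=
        mul_le_mul e4 (e1.trans (e2.trans e3)) e6 (by norm_num)
    _ ≤ 0.02 := by norm_num

lemma Par.Kminus_nonneg {p y : ℝ} (h : Par p y) :
    0 ≤ (y - 1) / (p * (p - 1)) * ((y - 1) ^ (p - 1) + 1 - (p - 1) ^ 2) :=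
  le_trans (by norm_num) h.Kminus_aux

end Pool.Agent.H47.NT
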