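import Mathlib
import Pool.Agent.H47.NT.Defs
import Pool.Agent.H47.NT.Conv
import Pool.Agent.H47.NT.ConvL
import Pool.Agent.H47.NT.Iden
import Pool.Agent.H47.NT.Num

/-!
`Φ` on `[0,1]`. With `r = p - 1`, `n2(z) = (1+z)^r - (1-z)^r`, `L = LL p z`:
`|1+z|^p + |1-z|^p = L + z n2` and so
`Φ(z) = (p-k) z n2(z) - k (L(z) - 2) - 2 k a^p z^p`.
`n2(z) ≥ z 2^r` (`n2_star` with `s = 1`, `t = z`), `L(z) - 2 ≤ z^2 (2^r - 2)`, `z^p ≤ z^2`,
`p - k ≥ 0`, hence `Φ(z) ≥ z^2 Φ(1)`. Then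
`z^2 (L - c)^2 ≤ z^2 (c-2)^2 ≤ z^2 (2c/p) Φ(1) ≤ (2c/p) Φ(z) (1 + a^p z^p)`, as `2 ≤ L ≤ 2^r ≤ c`.
-/

set_option autoImplicit false

namespace Pool.Agent.H47.NT

private lemma phiA_rpow_split {r x : ℝ} (hx : 0 ≤ x) (hr : 0 < r) : x ^ (r + 1) = x ^ r * x := by
  rcases hx.eq_or_lt with h0 | h0
  · rw [← h0, Real.zero_rpow (by linarith), mul_zero]
  · rw [Real.rpow_add_one h0.ne']

private lemma phiA_j {p x : ℝ} (hp : 2 < p) (hx : 0 ≤ x) : j p x = x ^ (p - 1) := by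
  have h := phiA_rpow_split (r := p - 2) hx (by linarith)
  have e : p - 2 + 1 = p - 1 := by ring
  rw [e] at h
  unfold j
  rw [abs_of_nonneg hx, h]

private lemma phiA_eq {p y z : ℝ} (hp : 2 < p) (hz : 0 ≤ z) (hz1 : z ≤ 1) :
    Phi p y z = (p - kk p y) * (z * ((1 + z) ^ (p - 1) - (1 - z) ^ (p - 1)))
      - kk p y * (LL p z - 2) - 2 * kk p y * ap p y * z ^ p := by
  have h1 : 0 ≤ 1 + z := by linarith
  have h2 : 0 ≤ 1 - z := by linarith
  have e1 := phiA_rpow_split (r := p - 1) h1 (by linarith)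
  have e2 := phiA_rpow_split (r := p - 1) h2 (by linarith)
  have e : p - 1 + 1 = p := by ring
  rw [e] at e1 e2
  unfold Phi LL
  rw [phiA_j hp h1, phiA_j hp h2, abs_of_nonneg h1, abs_of_nonneg h2, e1, e2]
  ring

lemma Par.Phi_ge_small {p y z : ℝ} (h : Par p y) (hz : 0 ≤ z) (hz1 : z ≤ 1) :
    z ^ 2 * Phi p y 1 ≤ Phi p y z := by
  have hp := h.hp
  have hp' := h.hp'
  have hk := h.kk_pos
  have hkl := h.kk_le
  have ha := h.ap_pos
  have hpk : 0 ≤ p - kk p y := by linarith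
  rw [phiA_eq hp hz hz1, phiA_eq hp zero_le_one le_rfl]
  have hn := n2_star (r := p - 1) (s := 1) (t := z) (by linarith) (by linarith) zero_le_one le_rfl
    hz hz1
  rw [mul_one] at hn
  have hL := LL_sub_two_le (p := p) (z := z) hp (by linarith) hz hz1
  have hL1 : LL p 1 = 2 ^ (p - 1) := by
    rw [LL_small (by linarith) zero_le_one le_rfl, sub_self, Real.zero_rpow (by linarith)]
    norm_num
  have hzp : z ^ p ≤ z ^ 2 := by
    rcases hz.eq_or_lt with h0 | h0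
    · rw [← h0, Real.zero_rpow (by linarith)]
      norm_num
    · rw [← Real.rpow_two]
      exact Real.rpow_le_rpow_of_exponent_ge h0 hz1 hp.le
  have a1 : (p - kk p y) * (z * (z * ((1 + 1) ^ (p - 1) - (1 - 1) ^ (p - 1))))
      ≤ (p - kk p y) * (z * ((1 + z) ^ (p - 1) - (1 - z) ^ (p - 1))) :=
    mul_le_mul_of_nonneg_left (mul_le_mul_of_nonneg_left hn hz) hpk
  have a2 : kk p y * (LL p z - 2) ≤ kk p y * (z ^ 2 * (LL p 1 - 2)) := by
    rw [hL1]
    exact mul_le_mul_of_nonneg_left hL hk.le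
  have a3 : 2 * kk p y * ap p y * z ^ p ≤ 2 * kk p y * ap p y * z ^ 2 :=
    mul_le_mul_of_nonneg_left hzp (by positivity)
  rw [Real.one_rpow]
  linear_combination a1 + a2 + a3

lemma Par.Phi_nonneg_small {p y z : ℝ} (h : Par p y) (hz : 0 ≤ z) (hz1 : z ≤ 1) :
    0 ≤ Phi p y z := by
  have h1 := h.Phi_ge_small hz hz1
  have h2 := h.Phi_one
  have h3 : 0 ≤ Phi p y 1 := by linarith [h.hp]
  have h4 : 0 ≤ z ^ 2 * Phi p y 1 := by positivity
  linarith

lemma Par.disc_small {p y z : ℝ} (h : Par p y) (hz : 0 ≤ z) (hz1 : z ≤ 1) :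
    z ^ 2 * (LL p z - cc p y) ^ 2 ≤ 2 * cc p y / p * Phi p y z * (1 + ap p y * z ^ p) := by
  have hp := h.hp
  have h1 := h.Phi_ge_small hz hz1
  have h2 := h.N1
  have h3 := LL_ge_two hp.le hz hz1
  have h4 := LL_le hp.le hz hz1
  have h5 := h.rpow_two_le_cc
  have h6 := h.two_le_cc
  have ha := h.ap_pos
  have hc : 0 ≤ 2 * cc p y / p := by
    apply div_nonneg <;> linarith
  have hP := h.Phi_nonneg_small hz hz1
  have hzp : 0 ≤ z ^ p := Real.rpow_nonneg hz _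
  have b1 : (LL p z - cc p y) ^ 2 ≤ (cc p y - 2) ^ 2 := by
    have e1 : (LL p z - cc p y) ^ 2 = (cc p y - LL p z) ^ 2 := by ring
    rw [e1]
    exact pow_le_pow_left₀ (by linarith) (by linarith) 2
  have b2 : z ^ 2 * (LL p z - cc p y) ^ 2 ≤ z ^ 2 * (2 * cc p y / p * Phi p y 1) :=
    mul_le_mul_of_nonneg_left (b1.trans h2) (by positivity)
  have b3 : 2 * cc p y / p * (z ^ 2 * Phi p y 1) ≤ 2 * cc p y / p * Phi p y z :=
    mul_le_mul_of_nonneg_left h1 hc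
  have b4 : 0 ≤ 2 * cc p y / p * Phi p y z * (ap p y * z ^ p) := by positivity
  linear_combination b2 + b3 + b4

end Pool.Agent.H47.NT
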