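import Mathlib
import Pool.Agent.H47.NT.Defs
import Pool.Agent.H47.NT.Conv
import Pool.Agent.H47.NT.Iden

/-!
`Φ` on `[1,∞)`. Put `w = 1/y`, `s = 1/z ∈ (0,1]`,
`D(s) = p((1+s)^(p-1) + (1-s)^(p-1)) - k((1+s)^p + (1-s)^p - 2 s^p) - 2 k a^p
        - 2 p k (s^p/p - w^(p-2) s^2/2 + w^p/2 - w^p/p)`.
`D(w) = 0` (`Psi_w`), `D'(s) = p E(s)`,
`E(s) = (p-1)((1+s)^(p-2) - (1-s)^(p-2)) - k((1+s)^(p-1) - (1-s)^(p-1)) + 2 k w^(p-2) s`,
`E(w) = 0` (`E_w`), and `E(t s) ≤ t E(s)` for `t ∈ [0,1]` (`n_star`, `n2_star`), so `E ≤ 0` on `[0,w]`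
and `E ≥ 0` on `[w,1]`. Hence `D` is antitone on `[0,w]`, monotone on `[w,1]`, `D ≥ 0` on `[0,1]`.
Multiply `D(1/z) ≥ 0` by `z^p`: `Φ(z) ≥ k ((p-2)(z/y)^p - p (z/y)^(p-2) + 2)`.
-/

set_option autoImplicit false

namespace Pool.Agent.H47.NT

/-- The auxiliary function `E`. -/
noncomputable def EE (p y s : ℝ) : ℝ :=
  (p - 1) * ((1 + s) ^ (p - 2) - (1 - s) ^ (p - 2)) - kk p y * ((1 + s) ^ (p - 1) - (1 - s) ^ (p - 1))
    + 2 * kk p y * (1 / y) ^ (p - 2) * s

/-- The auxiliary function `D`. -/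
noncomputable def DD (p y s : ℝ) : ℝ :=
  p * ((1 + s) ^ (p - 1) + (1 - s) ^ (p - 1)) - kk p y * ((1 + s) ^ p + (1 - s) ^ p - 2 * s ^ p)
    - 2 * kk p y * ap p y
    - 2 * p * kk p y * (s ^ p / p - (1 / y) ^ (p - 2) * s ^ 2 / 2 + (1 / y) ^ p / 2 - (1 / y) ^ p / p)

/-- `w^(p-2) w = w^(p-1)` for `w = 1/y`. -/
lemma Par.w_mul {p y : ℝ} (h : Par p y) : (1 / y) ^ (p - 2) * (1 / y) = (1 / y) ^ (p - 1) := by
  have hy := h.hy
  have hw : 0 < 1 / y := by positivity
  have : p - 1 = (p - 2) + 1 := by ring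
  rw [this, Real.rpow_add_one hw.ne']

/-- `w^(p-2) w^2 = w^p` for `w = 1/y`. -/
lemma Par.w_mul_sq {p y : ℝ} (h : Par p y) : (1 / y) ^ (p - 2) * (1 / y) ^ 2 = (1 / y) ^ p := by
  have hy := h.hy
  have hw : 0 < 1 / y := by positivity
  have e : p = (p - 2) + (2 : ℕ) := by push_cast; ring
  conv_rhs => rw [e]
  rw [Real.rpow_add_natCast hw.ne']

lemma Par.EE_w {p y : ℝ} (h : Par p y) : EE p y (1 / y) = 0 := by
  have h1 := h.E_w
  have h2 := h.w_mul
  unfold EE
  linear_combination h1 + 2 * kk p y * h2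

/-- `E(t s) ≤ t E(s)`. -/
lemma Par.EE_star {p y s t : ℝ} (h : Par p y) (hs : 0 ≤ s) (hs1 : s ≤ 1) (ht : 0 ≤ t) (ht1 : t ≤ 1) :
    EE p y (t * s) ≤ t * EE p y s := by
  have hp := h.hp
  have hp' := h.hp'
  have hk := h.kk_pos
  have h1 := n_star (e := p - 2) (by linarith) (by linarith) hs hs1 ht ht1
  have h2 := n2_star (r := p - 1) (by linarith) (by linarith) hs hs1 ht ht1
  have h3 := mul_le_mul_of_nonneg_left h1 (by linarith : (0 : ℝ) ≤ p - 1)
  have h4 := mul_le_mul_of_nonneg_left h2 hk.le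
  unfold EE
  linarith

lemma Par.w_le_one {p y : ℝ} (h : Par p y) : 1 / y ≤ 1 := by
  have hy := h.hy
  rw [div_le_one (by linarith)]
  exact hy.le

lemma Par.w_pos {p y : ℝ} (h : Par p y) : 0 < 1 / y := by
  have hy := h.hy
  positivity

lemma Par.EE_nonpos {p y s : ℝ} (h : Par p y) (hs : 0 ≤ s) (hsw : s ≤ 1 / y) : EE p y s ≤ 0 := by
  have hw := h.w_pos
  have h1 := h.EE_star (s := 1 / y) (t := s / (1 / y)) hw.le h.w_le_one (by positivity)
    (by rw [div_le_one hw]; exact hsw)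
  rw [div_mul_cancel₀ s hw.ne', h.EE_w, mul_zero] at h1
  exact h1

lemma Par.EE_nonneg {p y s : ℝ} (h : Par p y) (hsw : 1 / y ≤ s) (hs : s ≤ 1) : 0 ≤ EE p y s := by
  have hw := h.w_pos
  have hs0 : 0 < s := lt_of_lt_of_le hw hsw
  have h1 := h.EE_star (s := s) (t := (1 / y) / s) hs0.le hs (by positivity)
    (by rw [div_le_one hs0]; exact hsw)
  rw [div_mul_cancel₀ (1 / y) hs0.ne', h.EE_w] at h1
  exact nonneg_of_mul_nonneg_right h1 (by positivity)

lemma Par.DD_deriv {p y s : ℝ} (h : Par p y) (hs : 0 < s) (hs1 : s < 1) :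
    HasDerivAt (DD p y) (p * EE p y s) s := by
  have hp := h.hp
  have hA : HasDerivAt (fun s : ℝ => 1 + s) 1 s := (hasDerivAt_id s).const_add 1
  have hB : HasDerivAt (fun s : ℝ => 1 - s) (-1) s := (hasDerivAt_id s).const_sub 1
  have hA1 : HasDerivAt (fun s : ℝ => (1 + s) ^ (p - 1)) (1 * (p - 1) * (1 + s) ^ (p - 1 - 1)) s :=
    hA.rpow_const (Or.inl (by linarith))
  have hA2 : HasDerivAt (fun s : ℝ => (1 + s) ^ p) (1 * p * (1 + s) ^ (p - 1)) s :=
    hA.rpow_const (Or.inl (by linarith))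
  have hB1 : HasDerivAt (fun s : ℝ => (1 - s) ^ (p - 1)) (-1 * (p - 1) * (1 - s) ^ (p - 1 - 1)) s :=
    hB.rpow_const (Or.inl (by linarith))
  have hB2 : HasDerivAt (fun s : ℝ => (1 - s) ^ p) (-1 * p * (1 - s) ^ (p - 1)) s :=
    hB.rpow_const (Or.inl (by linarith))
  have hS : HasDerivAt (fun s : ℝ => s ^ p) (p * s ^ (p - 1)) s :=
    Real.hasDerivAt_rpow_const (Or.inl hs.ne')
  have hQ : HasDerivAt (fun s : ℝ => s ^ 2) (2 * s) s := by
    have := hasDerivAt_pow 2 s
    simpa using this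
  have e1 : p - 1 - 1 = p - 2 := by ring
  rw [e1] at hA1 hB1
  have hT := (((hA1.add hB1).const_mul p).sub (((hA2.add hB2).sub (hS.const_mul 2)).const_mul (kk p y))).sub_const
    (2 * kk p y * ap p y)
  have hU := ((((hS.div_const p).sub ((hQ.const_mul ((1 / y) ^ (p - 2))).div_const 2)).add_const
    ((1 / y) ^ p / 2)).sub_const ((1 / y) ^ p / p)).const_mul (2 * p * kk p y)
  have hF := hT.sub hU
  refine (hF.congr_deriv ?_)
  have hp0 : p ≠ 0 := by linarith
  unfold EE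
  field_simp
  ring

lemma Par.DD_continuous {p y : ℝ} (h : Par p y) : Continuous (DD p y) := by
  have hp := h.hp
  have c1 : Continuous (fun x : ℝ => x ^ (p - 1)) := Real.continuous_rpow_const (by linarith)
  have c2 : Continuous (fun x : ℝ => x ^ p) := Real.continuous_rpow_const (by linarith)
  have a1 : Continuous (fun s : ℝ => (1 + s) ^ (p - 1)) := c1.comp (by fun_prop)
  have a2 : Continuous (fun s : ℝ => (1 - s) ^ (p - 1)) := c1.comp (by fun_prop)
  have a3 : Continuous (fun s : ℝ => (1 + s) ^ p) := c2.comp (by fun_prop)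
  have a4 : Continuous (fun s : ℝ => (1 - s) ^ p) := c2.comp (by fun_prop)
  unfold DD
  exact (((continuous_const.mul (a1.add a2)).sub (continuous_const.mul
    ((a3.add a4).sub (continuous_const.mul c2)))).sub continuous_const).sub
    (continuous_const.mul ((((c2.div_const p).sub
      ((continuous_const.mul (continuous_pow 2)).div_const 2)).add continuous_const).sub
        continuous_const))

lemma Par.DD_w {p y : ℝ} (h : Par p y) : DD p y (1 / y) = 0 := by
  have h1 := h.Psi_w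
  have h2 := h.w_mul_sq
  unfold DD
  linear_combination h1 + p * kk p y * h2

lemma Par.DD_nonneg {p y s : ℝ} (h : Par p y) (hs : 0 ≤ s) (hs1 : s ≤ 1) : 0 ≤ DD p y s := by
  have hp := h.hp
  have hw := h.w_pos
  have hw1 := h.w_le_one
  rcases le_total s (1 / y) with hc | hc
  · have hanti : AntitoneOn (DD p y) (Set.Icc s (1 / y)) := by
      refine antitoneOn_of_deriv_nonpos (convex_Icc s (1 / y)) h.DD_continuous.continuousOn ?_ ?_
      · intro x hx
        rw [interior_Icc] at hx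
        exact (h.DD_deriv (lt_of_le_of_lt hs hx.1) (lt_of_lt_of_le hx.2 hw1)).differentiableAt.differentiableWithinAt
      · intro x hx
        rw [interior_Icc] at hx
        rw [(h.DD_deriv (lt_of_le_of_lt hs hx.1) (lt_of_lt_of_le hx.2 hw1)).deriv]
        exact mul_nonpos_of_nonneg_of_nonpos (by linarith)
          (h.EE_nonpos (hs.trans hx.1.le) hx.2.le)
    have := hanti (Set.left_mem_Icc.2 hc) (Set.right_mem_Icc.2 hc) hc
    rw [h.DD_w] at this
    exact this
  · have hmono : MonotoneOn (DD p y) (Set.Icc (1 / y) s) := by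
      refine monotoneOn_of_deriv_nonneg (convex_Icc (1 / y) s) h.DD_continuous.continuousOn ?_ ?_
      · intro x hx
        rw [interior_Icc] at hx
        exact (h.DD_deriv (hw.trans hx.1) (lt_of_lt_of_le hx.2 hs1)).differentiableAt.differentiableWithinAt
      · intro x hx
        rw [interior_Icc] at hx
        rw [(h.DD_deriv (hw.trans hx.1) (lt_of_lt_of_le hx.2 hs1)).deriv]
        exact mul_nonneg (by linarith) (h.EE_nonneg hx.1.le (hx.2.le.trans hs1))
    have := hmono (Set.left_mem_Icc.2 hc) (Set.right_mem_Icc.2 hc) hc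
    rw [h.DD_w] at this
    exact this

lemma Par.Phi_large_eq {p y z : ℝ} (h : Par p y) (hz : 1 ≤ z) :
    Phi p y z = z ^ p * DD p y (1 / z)
      + kk p y * ((p - 2) * (z / y) ^ p - p * (z / y) ^ (p - 2) + 2) := by
  have hp := h.hp
  have hy := h.hy
  have hz0 : 0 < z := by linarith
  have hy0 : 0 < y := by linarith
  have hp0 : p ≠ 0 := by linarith
  -- powers of `z`
  have hzp : 0 < z ^ p := Real.rpow_pos_of_pos hz0 _
  have hzp1 : 0 < z ^ (p - 1) := Real.rpow_pos_of_pos hz0 _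
  have hzp2 : 0 < z ^ (p - 2) := Real.rpow_pos_of_pos hz0 _
  have ez1 : z ^ p = z ^ (p - 1) * z := by
    have e : p = (p - 1) + 1 := by ring
    conv_lhs => rw [e]
    rw [Real.rpow_add_one hz0.ne']
  have ez2 : z ^ p = z ^ (p - 2) * z ^ 2 := by
    have e : p = (p - 2) + (2 : ℕ) := by push_cast; ring
    conv_lhs => rw [e]
    rw [Real.rpow_add_natCast hz0.ne']
  have hdiv1 : 1 + 1 / z = (z + 1) / z := by field_simp
  have hdiv2 : 1 - 1 / z = (z - 1) / z := by field_simp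
  have r1 : z ^ p * (1 + 1 / z) ^ (p - 1) = z * (z + 1) ^ (p - 1) := by
    rw [hdiv1, Real.div_rpow (by linarith) hz0.le, ez1]
    field_simp
  have r2 : z ^ p * (1 - 1 / z) ^ (p - 1) = z * (z - 1) ^ (p - 1) := by
    rw [hdiv2, Real.div_rpow (by linarith) hz0.le, ez1]
    field_simp
  have r3 : z ^ p * (1 + 1 / z) ^ p = (z + 1) ^ p := by
    rw [hdiv1, Real.div_rpow (by linarith) hz0.le]
    field_simp
  have r4 : z ^ p * (1 - 1 / z) ^ p = (z - 1) ^ p := by
    rw [hdiv2, Real.div_rpow (by linarith) hz0.le]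
    field_simp
  have r5 : z ^ p * (1 / z) ^ p = 1 := by
    rw [Real.div_rpow zero_le_one hz0.le, Real.one_rpow]
    field_simp
  have r6 : z ^ p * (1 / z) ^ 2 = z ^ (p - 2) := by
    rw [ez2]
    field_simp
  have r7 : (z / y) ^ p = z ^ p * (1 / y) ^ p := by
    rw [Real.div_rpow hz0.le hy0.le, Real.div_rpow zero_le_one hy0.le, Real.one_rpow]
    ring
  have r8 : (z / y) ^ (p - 2) = z ^ (p - 2) * (1 / y) ^ (p - 2) := by
    rw [Real.div_rpow hz0.le hy0.le, Real.div_rpow zero_le_one hy0.le, Real.one_rpow]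
    ring
  -- the signed powers
  have j1 : j p (1 + z) = (z + 1) ^ (p - 1) := by
    have hpos : 0 < 1 + z := by linarith
    unfold j
    rw [abs_of_pos hpos, add_comm z 1]
    have e : p - 1 = (p - 2) + 1 := by ring
    rw [e, Real.rpow_add_one hpos.ne']
  have j2 : j p (1 - z) = -(z - 1) ^ (p - 1) := by
    unfold j
    rcases eq_or_lt_of_le hz with hz1 | hz1
    · subst hz1
      rw [sub_self, mul_zero, Real.zero_rpow (by linarith), neg_zero]
    · have hpos : 0 < z - 1 := by linarith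
      have habs : |1 - z| = z - 1 := by
        rw [abs_of_neg (by linarith)]
        ring
      rw [habs]
      have e : p - 1 = (p - 2) + 1 := by ring
      rw [e, Real.rpow_add_one hpos.ne']
      ring
  have a1 : |1 + z| = z + 1 := by
    rw [abs_of_pos (by linarith)]
    ring
  have a2 : |1 - z| = z - 1 := by
    rw [abs_of_nonpos (by linarith)]
    ring
  unfold Phi
  rw [j1, j2, a1, a2]
  unfold DD
  have expand : z ^ p * (p * ((1 + 1 / z) ^ (p - 1) + (1 - 1 / z) ^ (p - 1)) -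
        kk p y * ((1 + 1 / z) ^ p + (1 - 1 / z) ^ p - 2 * (1 / z) ^ p) -
        2 * kk p y * ap p y -
        2 * p * kk p y *
        ((1 / z) ^ p / p - (1 / y) ^ (p - 2) * (1 / z) ^ 2 / 2 + (1 / y) ^ p / 2 - (1 / y) ^ p / p))
      = p * (z ^ p * (1 + 1 / z) ^ (p - 1) + z ^ p * (1 - 1 / z) ^ (p - 1)) -
        kk p y * (z ^ p * (1 + 1 / z) ^ p + z ^ p * (1 - 1 / z) ^ p - 2 * (z ^ p * (1 / z) ^ p)) -
        2 * kk p y * ap p y * z ^ p -
        2 * p * kk p y *
        (z ^ p * (1 / z) ^ p / p - (1 / y) ^ (p - 2) * (z ^ p * (1 / z) ^ 2) / 2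
          + z ^ p * (1 / y) ^ p / 2 - z ^ p * (1 / y) ^ p / p) := by
    ring
  rw [expand, r1, r2, r3, r4, r5, r6, r7, r8]
  field_simp
  ring

lemma Par.Phi_large {p y z : ℝ} (h : Par p y) (hz : 1 ≤ z) :
    kk p y * ((p - 2) * (z / y) ^ p - p * (z / y) ^ (p - 2) + 2) ≤ Phi p y z := by
  have hz0 : 0 < z := by linarith
  rw [h.Phi_large_eq hz]
  have h1 : 0 ≤ DD p y (1 / z) := by
    refine h.DD_nonneg (by positivity) ?_
    rw [div_le_one hz0]
    exact hz
  have h2 : 0 < z ^ p := Real.rpow_pos_of_pos hz0 _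
  have h3 := mul_nonneg h2.le h1
  linarith

end Pool.Agent.H47.NT
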