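import Mathlib
import Pool.Agent.H47.NT.Defs
import Pool.Agent.H47.NT.ConvL
import Pool.Agent.H47.NT.Iden
import Pool.Agent.H47.NT.Num
import Pool.Agent.H47.NT.PhiB

/-!
`e(t) = (p-2) t^p - p t^(p-2) + 2`, `e'(t) = p(p-2) t^(p-3) (t-1)(t+1)`.
* `0 < t ≤ 1`: `h(t) = e(t) - p(p-2)(t-1)^2` has `h' = p(p-2)(t-1)(t^(p-3)(t+1) - 2) ≤ 0`
  (`t + 1 ≥ 2 √t`, `t^(p-5/2) ≥ 1`), `h(1) = 0`.
* `t ≥ 1`: `h(t) = e(t) - p(p-2)/2 (t-1)^2`, `h' = p(p-2)(t-1)(t^(p-3)(t+1) - 1) ≥ 0`, `h(1) = 0`.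
Discriminant for `z ≥ 1`, `t = z/y`; note `LL p y = cc p y`,
`1 + a^p z^p = 1 + (a^p y^p) t^p ≥ 1 + 2 t^p ≥ 2 t^2` (for `t ≤ 1`: `1 + 2t^3 ≥ 2t^2`,
for `t ≥ 1`: `t^p ≥ t^2`).
* `z ≤ y`: `(c - L)^2 ≤ σ^2 (y-z)^2`, `Φ ≥ k p (p-2) (t-1)^2`, `N2`.
* `z ≥ y`: `(L - c)^2 ≤ σ'^2 (z-y)^2`, `Φ ≥ k (p(p-2)/2) (t-1)^2`, `N3`.
-/

set_option autoImplicit false

namespace Pool.Agent.H47.NT

lemma ee_hasDeriv (p b : ℝ) {t : ℝ} (ht : 0 < t) :
    HasDerivAt (fun t : ℝ => (p - 2) * t ^ p - p * t ^ (p - 2) + 2 - b * (t - 1) ^ 2)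
      ((p - 2) * (p * t ^ (p - 1)) - p * ((p - 2) * t ^ (p - 2 - 1)) - b * (2 * (t - 1))) t := by
  have h1 : HasDerivAt (fun t : ℝ => t ^ p) (p * t ^ (p - 1)) t :=
    Real.hasDerivAt_rpow_const (Or.inl ht.ne')
  have h2 : HasDerivAt (fun t : ℝ => t ^ (p - 2)) ((p - 2) * t ^ (p - 2 - 1)) t :=
    Real.hasDerivAt_rpow_const (Or.inl ht.ne')
  have h3 : HasDerivAt (fun t : ℝ => (t - 1) ^ 2) (2 * (t - 1)) t := by
    have h4 : HasDerivAt (fun t : ℝ => t - 1) 1 t := (hasDerivAt_id t).sub_const 1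
    have h5 := h4.fun_pow 2
    simpa using h5
  exact (((h1.const_mul (p - 2)).sub (h2.const_mul p)).add_const 2).sub (h3.const_mul b)

lemma ee_deriv_eq (p : ℝ) {t : ℝ} (ht : 0 < t) :
    (p - 2) * (p * t ^ (p - 1)) - p * ((p - 2) * t ^ (p - 2 - 1)) =
      p * (p - 2) * ((t - 1) * (t ^ (p - 3) * (t + 1))) := by
  have e1 : t ^ (p - 1) = t ^ (p - 3) * t ^ 2 := by
    rw [← Real.rpow_natCast, ← Real.rpow_add ht]
    congr 1
    push_cast
    ring
  have e2 : p - 2 - 1 = p - 3 := by ring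
  rw [e1, e2]
  ring

lemma ee_small {p t : ℝ} (hp : 2 < p) (hp' : p ≤ 21 / 10) (ht : 0 < t) (ht1 : t ≤ 1) :
    p * (p - 2) * (t - 1) ^ 2 ≤ (p - 2) * t ^ p - p * t ^ (p - 2) + 2 := by
  have hpp : 0 < p * (p - 2) := by nlinarith
  have hanti : AntitoneOn (fun t : ℝ => (p - 2) * t ^ p - p * t ^ (p - 2) + 2 - p * (p - 2) * (t - 1) ^ 2)
      (Set.Icc t 1) := by
    refine antitoneOn_of_deriv_nonpos (convex_Icc t 1) ?_ ?_ ?_
    · intro x hx
      exact (ee_hasDeriv p _ (lt_of_lt_of_le ht hx.1)).continuousAt.continuousWithinAt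
    · intro x hx
      rw [interior_Icc] at hx
      exact (ee_hasDeriv p _ (ht.trans hx.1)).differentiableAt.differentiableWithinAt
    · intro x hx
      rw [interior_Icc] at hx
      have hx0 : 0 < x := ht.trans hx.1
      rw [(ee_hasDeriv p _ hx0).deriv, ee_deriv_eq p hx0]
      have h1 : x ^ (-(1 / 2) : ℝ) ≤ x ^ (p - 3) :=
        Real.rpow_le_rpow_of_exponent_ge hx0 hx.2.le (by linarith)
      have h2 : 0 < x ^ (-(1 / 2) : ℝ) := Real.rpow_pos_of_pos hx0 _
      have h3 : x ^ (-(1 / 2) : ℝ) * Real.sqrt x = 1 := by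
        rw [Real.sqrt_eq_rpow, ← Real.rpow_add hx0]
        norm_num
      have h4 : 2 * Real.sqrt x ≤ x + 1 := by
        have := Real.sq_sqrt hx0.le
        nlinarith [sq_nonneg (Real.sqrt x - 1)]
      have h5 : 2 ≤ x ^ (p - 3) * (x + 1) := by
        calc (2 : ℝ) = x ^ (-(1 / 2) : ℝ) * (2 * Real.sqrt x) := by linarith
          _ ≤ x ^ (-(1 / 2) : ℝ) * (x + 1) := mul_le_mul_of_nonneg_left h4 h2.le
          _ ≤ x ^ (p - 3) * (x + 1) := mul_le_mul_of_nonneg_right h1 (by linarith)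
      have h6 : (x - 1) * (x ^ (p - 3) * (x + 1)) ≤ (x - 1) * 2 :=
        mul_le_mul_of_nonpos_left h5 (by linarith [hx.2])
      have h7 := mul_le_mul_of_nonneg_left h6 hpp.le
      linarith
  have h := hanti (Set.left_mem_Icc.2 ht1) (Set.right_mem_Icc.2 ht1) ht1
  simp only [Real.one_rpow] at h
  nlinarith

lemma ee_large {p t : ℝ} (hp : 2 < p) (ht : 1 ≤ t) :
    p * (p - 2) / 2 * (t - 1) ^ 2 ≤ (p - 2) * t ^ p - p * t ^ (p - 2) + 2 := by
  have hpp : 0 < p * (p - 2) := by nlinarith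
  have hmono : MonotoneOn (fun t : ℝ => (p - 2) * t ^ p - p * t ^ (p - 2) + 2 - p * (p - 2) / 2 * (t - 1) ^ 2)
      (Set.Icc 1 t) := by
    refine monotoneOn_of_deriv_nonneg (convex_Icc 1 t) ?_ ?_ ?_
    · intro x hx
      exact (ee_hasDeriv p _ (lt_of_lt_of_le one_pos hx.1)).continuousAt.continuousWithinAt
    · intro x hx
      rw [interior_Icc] at hx
      exact (ee_hasDeriv p _ (one_pos.trans hx.1)).differentiableAt.differentiableWithinAt
    · intro x hx
      rw [interior_Icc] at hx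
      have hx0 : 0 < x := one_pos.trans hx.1
      rw [(ee_hasDeriv p _ hx0).deriv, ee_deriv_eq p hx0]
      have h5 : 1 ≤ x ^ (p - 3) * (x + 1) := by
        have h1 : 1 ≤ x ^ (p - 2) := Real.one_le_rpow hx.1.le (by linarith)
        have h2 : x ^ (p - 2) = x ^ (p - 3) * x := by
          conv_rhs => rw [← Real.rpow_one x, ← Real.rpow_mul hx0.le, ← Real.rpow_add hx0]
          congr 1
          ring
        have h3 : 0 < x ^ (p - 3) := Real.rpow_pos_of_pos hx0 _
        nlinarith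
      have h6 : (x - 1) * 1 ≤ (x - 1) * (x ^ (p - 3) * (x + 1)) :=
        mul_le_mul_of_nonneg_left h5 (by linarith [hx.1])
      have h7 := mul_le_mul_of_nonneg_left h6 hpp.le
      linarith
  have h := hmono (Set.left_mem_Icc.2 ht) (Set.right_mem_Icc.2 ht) ht
  simp only [Real.one_rpow] at h
  nlinarith

lemma two_sq_le {p t : ℝ} (hp : 2 < p) (hp' : p ≤ 21 / 10) (ht : 0 < t) :
    2 * t ^ 2 ≤ 1 + 2 * t ^ p := by
  rcases le_total t 1 with h1 | h1
  · have h2 : t ^ (3 : ℝ) ≤ t ^ p := Real.rpow_le_rpow_of_exponent_ge ht h1 (by linarith)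
    have h3 : t ^ (3 : ℝ) = t ^ 3 := by
      rw [← Real.rpow_natCast]
      norm_num
    rw [h3] at h2
    nlinarith [sq_nonneg (3 * t - 2), sq_nonneg t]
  · have h2 : t ^ (2 : ℝ) ≤ t ^ p := Real.rpow_le_rpow_of_exponent_le h1 hp.le
    have h3 : t ^ (2 : ℝ) = t ^ 2 := by
      rw [← Real.rpow_natCast]
      norm_num
    rw [h3] at h2
    linarith

lemma Par.Phi_nonneg_large {p y z : ℝ} (h : Par p y) (hz : 1 ≤ z) : 0 ≤ Phi p y z := by
  refine le_trans ?_ (h.Phi_large hz)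
  refine mul_nonneg h.kk_pos.le ?_
  have hy := h.hy
  have ht : 0 < z / y := by positivity
  have hpp : 0 < p * (p - 2) := by
    have := h.hp
    nlinarith
  rcases le_total (z / y) 1 with h1 | h1
  · have := ee_small h.hp h.hp' ht h1
    have h2 : 0 ≤ p * (p - 2) * (z / y - 1) ^ 2 := by positivity
    linarith
  · have := ee_large h.hp h1
    have h2 : 0 ≤ p * (p - 2) / 2 * (z / y - 1) ^ 2 := by positivity
    linarith

lemma Par.disc_large {p y z : ℝ} (h : Par p y) (hz : 1 ≤ z) :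
    z ^ 2 * (LL p z - cc p y) ^ 2 ≤ 2 * cc p y / p * Phi p y z * (1 + ap p y * z ^ p) := by
  have hy := h.hy
  have hp := h.hp
  have hp3 : p < 3 := by have := h.hp'; linarith
  have hy0 : 0 < y := by linarith
  have hz0 : 0 < z := by linarith
  have hp0 : 0 < p := by linarith
  have ht : 0 < z / y := by positivity
  have hk := h.kk_pos
  have hc : 0 < cc p y := by
    have := h.two_le_cc
    linarith
  have hLy : LL p y = cc p y := LL_large (by linarith) hy.le
  -- the factor `1 + ap z^p`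
  have hfac : 2 * (z / y) ^ 2 ≤ 1 + ap p y * z ^ p := by
    refine (two_sq_le hp h.hp' ht).trans ?_
    have h1 : (z / y) ^ p = z ^ p / y ^ p := Real.div_rpow hz0.le hy0.le p
    have h2 := h.F5
    have h3 : 0 < y ^ p := Real.rpow_pos_of_pos hy0 p
    have h4 : 0 < z ^ p := Real.rpow_pos_of_pos hz0 p
    have h5 : ap p y * z ^ p = (ap p y * y ^ p) * (z ^ p / y ^ p) := by
      field_simp
    rw [h1, h5]
    have h6 : 0 < z ^ p / y ^ p := by positivity
    nlinarith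
  have hPhi := h.Phi_large hz
  have hzy : z = z / y * y := by field_simp
  set t := z / y with htdef
  rcases le_total z y with h1 | h1
  · have ht1 : t ≤ 1 := by
      rw [htdef, div_le_one hy0]
      exact h1
    have hN := h.N2
    have he := ee_small hp h.hp' ht ht1
    have hch := LL_chord hp hp3 hz h1 hy
    have hmo : LL p z ≤ LL p y := LL_mono hp hz h1
    rw [hLy] at hch hmo
    set σ := (cc p y - 2 ^ (p - 1)) / (y - 1) with hσ
    have hsq : (LL p z - cc p y) ^ 2 ≤ σ ^ 2 * (y - z) ^ 2 := by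
      have e1 : 0 ≤ cc p y - LL p z := by linarith
      have e2 := pow_le_pow_left₀ e1 hch 2
      calc (LL p z - cc p y) ^ 2 = (cc p y - LL p z) ^ 2 := by ring
        _ ≤ (σ * (y - z)) ^ 2 := e2
        _ = σ ^ 2 * (y - z) ^ 2 := by ring
    have hP : kk p y * (p * (p - 2) * (t - 1) ^ 2) ≤ Phi p y z :=
      (mul_le_mul_of_nonneg_left he hk.le).trans hPhi
    have hpp : 0 < p * (p - 2) := by nlinarith
    have hP0 : 0 ≤ kk p y * (p * (p - 2) * (t - 1) ^ 2) := by positivity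
    calc z ^ 2 * (LL p z - cc p y) ^ 2 ≤ z ^ 2 * (σ ^ 2 * (y - z) ^ 2) :=
          mul_le_mul_of_nonneg_left hsq (by positivity)
      _ = (y ^ 4 * σ ^ 2) * (t ^ 2 * (t - 1) ^ 2) := by
          rw [hzy]
          ring
      _ ≤ (4 * cc p y * kk p y * (p - 2)) * (t ^ 2 * (t - 1) ^ 2) :=
          mul_le_mul_of_nonneg_right hN (by positivity)
      _ = 2 * cc p y / p * (kk p y * (p * (p - 2) * (t - 1) ^ 2)) * (2 * t ^ 2) := by
          field_simp
          ring
      _ ≤ 2 * cc p y / p * Phi p y z * (2 * t ^ 2) := by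
          refine mul_le_mul_of_nonneg_right (mul_le_mul_of_nonneg_left hP (by positivity)) (by positivity)
      _ ≤ 2 * cc p y / p * Phi p y z * (1 + ap p y * z ^ p) := by
          refine mul_le_mul_of_nonneg_left hfac ?_
          have : 0 ≤ Phi p y z := hP0.trans hP
          positivity
  · have ht1 : 1 ≤ t := by
      rw [htdef, one_le_div hy0]
      exact h1
    have hN := h.N3
    have he := ee_large hp ht1
    have hch := LL_tangent hp hp3 hy h1
    have hmo : LL p y ≤ LL p z := LL_mono hp hy.le h1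
    rw [hLy] at hch hmo
    set σ := (p - 1) * ((y + 1) ^ (p - 2) - (y - 1) ^ (p - 2)) with hσ
    have hsq : (LL p z - cc p y) ^ 2 ≤ σ ^ 2 * (z - y) ^ 2 := by
      have e1 : 0 ≤ LL p z - cc p y := by linarith
      have e2 := pow_le_pow_left₀ e1 hch 2
      calc (LL p z - cc p y) ^ 2 ≤ (σ * (z - y)) ^ 2 := e2
        _ = σ ^ 2 * (z - y) ^ 2 := by ring
    have hP : kk p y * (p * (p - 2) / 2 * (t - 1) ^ 2) ≤ Phi p y z :=
      (mul_le_mul_of_nonneg_left he hk.le).trans hPhi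
    have hpp : 0 < p * (p - 2) := by nlinarith
    have hP0 : 0 ≤ kk p y * (p * (p - 2) / 2 * (t - 1) ^ 2) := by positivity
    calc z ^ 2 * (LL p z - cc p y) ^ 2 ≤ z ^ 2 * (σ ^ 2 * (z - y) ^ 2) :=
          mul_le_mul_of_nonneg_left hsq (by positivity)
      _ = (y ^ 4 * σ ^ 2) * (t ^ 2 * (t - 1) ^ 2) := by
          rw [hzy]
          ring
      _ ≤ (2 * cc p y * kk p y * (p - 2)) * (t ^ 2 * (t - 1) ^ 2) :=
          mul_le_mul_of_nonneg_right hN (by positivity)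
      _ = 2 * cc p y / p * (kk p y * (p * (p - 2) / 2 * (t - 1) ^ 2)) * (2 * t ^ 2) := by
          field_simp
      _ ≤ 2 * cc p y / p * Phi p y z * (2 * t ^ 2) := by
          refine mul_le_mul_of_nonneg_right (mul_le_mul_of_nonneg_left hP (by positivity)) (by positivity)
      _ ≤ 2 * cc p y / p * Phi p y z * (1 + ap p y * z ^ p) := by
          refine mul_le_mul_of_nonneg_left hfac ?_
          have : 0 ≤ Phi p y z := hP0.trans hP
          positivity

end Pool.Agent.H47.NT
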