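import Mathlib
import Pool.Agent.H47.NT.Defs
import Pool.Agent.H47.NT.Iden
import Pool.Agent.H47.NT.Num
import Pool.Agent.H47.NT.PhiA
import Pool.Agent.H47.NT.PhiC

/-!
The pointwise inequality. For `f = 1`, `g = z ≥ 0` it is
`(1/p) Φ(z) + δ z (L(z) - c) + (c δ^2/2)(1 + a^p z^p) ≥ 0`, a quadratic in `δ` with nonnegative
leading coefficient and discriminant `z^2 (L-c)^2 - (2c/p) Φ (1 + a^p z^p) ≤ 0`
(`disc_small`, `disc_large`). General case: homogeneity of degree `p` in `(f, g)`, and the symmetries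
`(f,g) → (-f,-g)` and `(f,g,δ) → (f,-g,-δ)` (`j` is odd). For `f = 0` the expression is
`(2 - 2k/p - 2 k a^p/p) |g|^p + (c δ^2/2) a^p |g|^p ≥ 0` by `Par.lead`.
-/

set_option autoImplicit false

namespace Pool.Agent.H47.NT

lemma j_neg (p x : ℝ) : j p (-x) = - j p x := by
  simp [j]

lemma j_mul {p c : ℝ} (hp : 1 < p) (hc : 0 < c) (x : ℝ) : j p (c * x) = c ^ (p - 1) * j p x := by
  have h1 : c ^ (p - 1) = c ^ (p - 2) * c := by
    rw [← Real.rpow_add_one hc.ne']
    congr 1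
    ring
  unfold j
  rw [abs_mul, abs_of_pos hc, Real.mul_rpow hc.le (abs_nonneg x), h1]
  ring

namespace PWk

lemma quad {A B C d : ℝ} (hA : 0 ≤ A) (hC : 0 < C) (h : B ^ 2 ≤ 4 * A * C) :
    0 ≤ A + d * B + C * d ^ 2 := by
  have h1 : 4 * C * (A + d * B + C * d ^ 2) = (2 * C * d + B) ^ 2 + (4 * A * C - B ^ 2) := by ring
  have h2 : 0 ≤ 4 * C * (A + d * B + C * d ^ 2) := by
    rw [h1]
    have := sq_nonneg (2 * C * d + B)
    linarith
  exact nonneg_of_mul_nonneg_right h2 (by positivity)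

/-- the expression -/
noncomputable def T (p y f g δ : ℝ) : ℝ :=
  g * (j p (f + g) - j p (f - g)) - kk p y / p * (|f + g| ^ p + |f - g| ^ p)
      + 2 * kk p y / p * (|f| ^ p - ap p y * |g| ^ p)
      + δ * (g * (j p (f + g) + j p (f - g)) - cc p y * (j p f * g))
      + cc p y * δ ^ 2 / 2 * (|f| ^ p + ap p y * |g| ^ p)

lemma T_neg (p y f g δ : ℝ) : T p y (-f) (-g) δ = T p y f g δ := by
  have h1 : -f + -g = -(f + g) := by ring
  have h2 : -f - -g = -(f - g) := by ring
  unfold T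
  rw [h1, h2, j_neg, j_neg, j_neg, abs_neg, abs_neg, abs_neg, abs_neg]
  ring

lemma T_neg2 (p y f g δ : ℝ) : T p y f (-g) (-δ) = T p y f g δ := by
  have h1 : f + -g = f - g := by ring
  have h2 : f - -g = f + g := by ring
  unfold T
  rw [h1, h2, abs_neg]
  ring

lemma j_zero (p : ℝ) : j p 0 = 0 := by simp [j]

lemma j_one (p : ℝ) : j p 1 = 1 := by simp [j]

lemma mul_j_self {p : ℝ} (hp : 2 < p) (g : ℝ) : g * j p g = |g| ^ p := by
  rcases eq_or_ne g 0 with rfl | hg
  · rw [zero_mul, abs_zero, Real.zero_rpow (by linarith)]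
  · have h1 : 0 < |g| := abs_pos.mpr hg
    have h2 : |g| ^ p = |g| ^ (p - 2) * |g| ^ 2 := by
      rw [← Real.rpow_natCast (|g|) 2, ← Real.rpow_add h1]
      congr 1
      push_cast
      ring
    rw [h2, sq_abs]
    unfold j
    ring

end PWk

open PWk

/-- One variable form. -/
lemma Par.PW1 {p y z : ℝ} (h : Par p y) (hz : 0 ≤ z) (δ : ℝ) :
    0 ≤ 1 / p * Phi p y z + δ * (z * (LL p z - cc p y)) + cc p y * δ ^ 2 / 2 * (1 + ap p y * z ^ p) := by
  have hp : 0 < p := by linarith [h.hp]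
  have hc : 0 < cc p y := by linarith [h.two_le_cc]
  have ha := h.ap_pos
  have hzp : 0 ≤ z ^ p := Real.rpow_nonneg hz p
  have hPhi : 0 ≤ Phi p y z := by
    rcases le_total z 1 with hz1 | hz1
    · exact h.Phi_nonneg_small hz hz1
    · exact h.Phi_nonneg_large hz1
  have hdisc : z ^ 2 * (LL p z - cc p y) ^ 2 ≤ 2 * cc p y / p * Phi p y z * (1 + ap p y * z ^ p) := by
    rcases le_total z 1 with hz1 | hz1
    · exact h.disc_small hz hz1
    · exact h.disc_large hz1
  have hC : 0 < cc p y / 2 * (1 + ap p y * z ^ p) := by positivity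
  have hA : 0 ≤ 1 / p * Phi p y z := by positivity
  have h1 := quad (A := 1 / p * Phi p y z) (B := z * (LL p z - cc p y))
    (C := cc p y / 2 * (1 + ap p y * z ^ p)) (d := δ) hA hC (by
      calc (z * (LL p z - cc p y)) ^ 2 = z ^ 2 * (LL p z - cc p y) ^ 2 := by ring
        _ ≤ _ := hdisc
        _ = _ := by ring)
  calc 0 ≤ _ := h1
    _ = _ := by ring

namespace PWk

lemma T_pos {p y : ℝ} (h : Par p y) {f g : ℝ} (hf : 0 < f) (hg : 0 ≤ g) (δ : ℝ) : 0 ≤ T p y f g δ := by
  have hp : 0 < p := by linarith [h.hp]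
  have hp1 : 1 < p := by linarith [h.hp]
  obtain ⟨z, hz⟩ : ∃ z : ℝ, z = g / f := ⟨_, rfl⟩
  have hz0 : 0 ≤ z := by rw [hz]; positivity
  have hgz : g = f * z := by rw [hz]; field_simp
  have h1 := h.PW1 hz0 δ
  have hfp : f ^ p = f ^ (p - 1) * f := by
    rw [← Real.rpow_add_one hf.ne']
    congr 1
    ring
  have e1 : f + g = f * (1 + z) := by rw [hgz]; ring
  have e2 : f - g = f * (1 - z) := by rw [hgz]; ring
  have hjf : j p f = f ^ (p - 1) := by
    have := j_mul hp1 hf 1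
    rw [mul_one, j_one, mul_one] at this
    exact this
  have key : T p y f g δ = f ^ p * (1 / p * Phi p y z + δ * (z * (LL p z - cc p y))
      + cc p y * δ ^ 2 / 2 * (1 + ap p y * z ^ p)) := by
    unfold T Phi LL
    rw [e1, e2, j_mul hp1 hf, j_mul hp1 hf, abs_mul, abs_mul, abs_of_pos hf, hjf, hgz, abs_mul,
      abs_of_pos hf, abs_of_nonneg hz0, Real.mul_rpow hf.le (abs_nonneg _),
      Real.mul_rpow hf.le (abs_nonneg _), Real.mul_rpow hf.le hz0, hfp]
    field_simp
    ring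
  rw [key]
  exact mul_nonneg (Real.rpow_nonneg hf.le p) h1

lemma T_zero {p y : ℝ} (h : Par p y) (g δ : ℝ) : 0 ≤ T p y 0 g δ := by
  have hp : 0 < p := by linarith [h.hp]
  have hc : 0 < cc p y := by linarith [h.two_le_cc]
  have ha := h.ap_pos
  have hl := h.lead
  have hgp : 0 ≤ |g| ^ p := Real.rpow_nonneg (abs_nonneg g) p
  have hj := mul_j_self h.hp g
  have key : T p y 0 g δ = 2 / p * (p - kk p y - kk p y * ap p y) * |g| ^ p
      + cc p y * δ ^ 2 / 2 * (ap p y * |g| ^ p) := by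
    unfold T
    rw [zero_add, zero_sub, j_neg, abs_neg, j_zero, abs_zero, Real.zero_rpow hp.ne']
    have : g * (j p g - -j p g) = 2 * |g| ^ p := by
      rw [← hj]
      ring
    rw [this]
    field_simp
    ring
  rw [key]
  positivity

end PWk

/-- The pointwise inequality. -/
lemma Par.PW {p y : ℝ} (h : Par p y) (f g δ : ℝ) :
    0 ≤ g * (j p (f + g) - j p (f - g)) - kk p y / p * (|f + g| ^ p + |f - g| ^ p)
      + 2 * kk p y / p * (|f| ^ p - ap p y * |g| ^ p)
      + δ * (g * (j p (f + g) + j p (f - g)) - cc p y * (j p f * g))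
      + cc p y * δ ^ 2 / 2 * (|f| ^ p + ap p y * |g| ^ p) := by
  change 0 ≤ T p y f g δ
  have hpos : ∀ f g δ : ℝ, 0 < f → 0 ≤ T p y f g δ := by
    intro f g δ hf
    rcases le_total 0 g with hg | hg
    · exact T_pos h hf hg δ
    · rw [← T_neg2]
      exact T_pos h hf (by linarith) (-δ)
  rcases lt_trichotomy f 0 with hf | hf | hf
  · rw [← T_neg]
    exact hpos (-f) (-g) δ (by linarith)
  · rw [hf]
    exact T_zero h g δ
  · exact hpos f g δ hf

end Pool.Agent.H47.NT
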