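import Mathlib
import Pool.Agent.H47.NT.Defs
import Pool.Agent.H47.NT.Iden
import Pool.Agent.H47.NT.PW

/-!
Integrated inequality. `P ∈ (2, 2.1]`, `b = (1/a^P)^(1/P)`, `f, u` with `∫|f|^P = ∫|u|^P = 1`,
`δ = b ∫ j(f) u`. Integrate `Par.PW` with `g = b u` (the terms `|f|^P - a^P |g|^P` cancel as
`a^P b^P = 1`, and the `δ`-terms give `-c δ^2 + c δ^2 = 0`):
`(k/P)(N₊ + N₋) ≤ b ((1+δ) ∫ j(f+bu) u - (1-δ) ∫ j(f-bu) u)`.
All functions are integrable: `|j(x)| |y| = |x|^(P-1)|y| ≤ |x|^P + |y|^P`,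
`|x + y|^P ≤ 2^(P-1)(|x|^P + |y|^P)`.
-/

set_option autoImplicit false

namespace Pool.Agent.H47.NT

open MeasureTheory

variable {Ω : Type*} [MeasurableSpace Ω] {μ : Measure Ω}

lemma measurable_j (p : ℝ) : Measurable (j p) := by
  unfold j
  fun_prop

lemma abs_j {p : ℝ} (hp : 1 < p) (x : ℝ) : |j p x| = |x| ^ (p - 1) := by
  unfold j
  rw [abs_mul, abs_of_nonneg (Real.rpow_nonneg (abs_nonneg x) _)]
  rcases eq_or_ne x 0 with rfl | hx
  · simp [Real.zero_rpow (by linarith : p - 1 ≠ 0)]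
  · have : 0 < |x| := abs_pos.mpr hx
    have h2 : |x| ^ (p - 1) = |x| ^ (p - 2) * |x| ^ (1 : ℝ) := by
      rw [← Real.rpow_add this]; congr 1; ring
    rw [h2, Real.rpow_one]

lemma rpow_mul_le {p : ℝ} (hp : 1 < p) {s t : ℝ} (hs : 0 ≤ s) (ht : 0 ≤ t) :
    s ^ (p - 1) * t ≤ s ^ p + t ^ p := by
  rcases le_total s t with h | h
  · have h1 : s ^ (p - 1) ≤ t ^ (p - 1) := Real.rpow_le_rpow hs h (by linarith)
    have h2 : t ^ (p - 1) * t ≤ t ^ p := by
      rcases eq_or_lt_of_le ht with h0 | h0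
      · rw [← h0]; simp [Real.zero_rpow (by linarith : p ≠ 0)]
      · apply le_of_eq
        have := Real.rpow_add h0 (p - 1) 1
        rw [Real.rpow_one] at this
        rw [← this]; congr 1; ring
    have h3 := mul_le_mul_of_nonneg_right h1 ht
    have h4 : 0 ≤ s ^ p := Real.rpow_nonneg hs _
    linarith
  · have h2 : s ^ (p - 1) * t ≤ s ^ (p - 1) * s :=
      mul_le_mul_of_nonneg_left h (Real.rpow_nonneg hs _)
    have h3 : s ^ (p - 1) * s ≤ s ^ p := by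
      rcases eq_or_lt_of_le hs with h0 | h0
      · rw [← h0]; simp [Real.zero_rpow (by linarith : p ≠ 0)]
      · apply le_of_eq
        have := Real.rpow_add h0 (p - 1) 1
        rw [Real.rpow_one] at this
        rw [← this]; congr 1; ring
    have h4 : 0 ≤ t ^ p := Real.rpow_nonneg ht _
    linarith

lemma integrable_j_mul {p : ℝ} (hp : 1 < p) {x y : Ω → ℝ} (hx : AEStronglyMeasurable x μ)
    (hy : AEStronglyMeasurable y μ) (hxp : Integrable (fun ω => |x ω| ^ p) μ)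
    (hyp : Integrable (fun ω => |y ω| ^ p) μ) : Integrable (fun ω => j p (x ω) * y ω) μ := by
  have hm : AEStronglyMeasurable (fun ω => j p (x ω) * y ω) μ := by
    apply AEStronglyMeasurable.mul _ hy
    exact ((measurable_j p).comp_aemeasurable hx.aemeasurable).aestronglyMeasurable
  refine (hxp.add hyp).mono' hm (Filter.Eventually.of_forall fun ω => ?_)
  rw [Real.norm_eq_abs, abs_mul, abs_j hp]
  exact rpow_mul_le hp (abs_nonneg _) (abs_nonneg _)

lemma add_rpow_abs_le {p : ℝ} (hp : 1 ≤ p) (s t : ℝ) :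
    |s + t| ^ p ≤ 2 ^ (p - 1) * (|s| ^ p + |t| ^ p) := by
  have h1 : |s + t| ^ p ≤ (|s| + |t|) ^ p :=
    Real.rpow_le_rpow (abs_nonneg _) (abs_add_le s t) (by linarith)
  have h2 := NNReal.rpow_add_le_mul_rpow_add_rpow ⟨|s|, abs_nonneg s⟩ ⟨|t|, abs_nonneg t⟩ hp
  exact h1.trans (by exact_mod_cast h2)

lemma integrable_add_rpow {p : ℝ} (hp : 1 ≤ p) {x y : Ω → ℝ} (hx : AEStronglyMeasurable x μ)
    (hy : AEStronglyMeasurable y μ) (hxp : Integrable (fun ω => |x ω| ^ p) μ)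
    (hyp : Integrable (fun ω => |y ω| ^ p) μ) (b : ℝ) :
    Integrable (fun ω => |x ω + b * y ω| ^ p) μ := by
  have hm : AEStronglyMeasurable (fun ω => |x ω + b * y ω| ^ p) μ := by
    have h1 : AEMeasurable (fun ω => |x ω + b * y ω| ^ p) μ := by
      have := hx.aemeasurable
      have := hy.aemeasurable
      fun_prop
    exact h1.aestronglyMeasurable
  refine ((hxp.add (hyp.const_mul (|b| ^ p))).const_mul (2 ^ (p - 1))).mono' hm
    (Filter.Eventually.of_forall fun ω => ?_)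
  rw [Real.norm_eq_abs, abs_of_nonneg (Real.rpow_nonneg (abs_nonneg _) _)]
  have h1 := add_rpow_abs_le hp (x ω) (b * y ω)
  have h2 : |b * y ω| ^ p = |b| ^ p * |y ω| ^ p := by
    rw [abs_mul, Real.mul_rpow (abs_nonneg _) (abs_nonneg _)]
  rw [h2] at h1
  simpa using h1

lemma integrable_sub_rpow {p : ℝ} (hp : 1 ≤ p) {x y : Ω → ℝ} (hx : AEStronglyMeasurable x μ)
    (hy : AEStronglyMeasurable y μ) (hxp : Integrable (fun ω => |x ω| ^ p) μ)
    (hyp : Integrable (fun ω => |y ω| ^ p) μ) (b : ℝ) :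
    Integrable (fun ω => |x ω - b * y ω| ^ p) μ := by
  have h := integrable_add_rpow hp hx hy hxp hyp (-b)
  refine h.congr (Filter.Eventually.of_forall fun ω => ?_)
  simp only [neg_mul, ← sub_eq_add_neg]

lemma integral_lin7 {f1 f2 f3 f4 f5 f6 f7 : Ω → ℝ} (h1 : Integrable f1 μ) (h2 : Integrable f2 μ)
    (h3 : Integrable f3 μ) (h4 : Integrable f4 μ) (h5 : Integrable f5 μ) (h6 : Integrable f6 μ)
    (h7 : Integrable f7 μ) :
    ∫ ω, (f1 ω - f2 ω - f3 ω - f4 ω + f5 ω - f6 ω - f7 ω) ∂μ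
      = ∫ ω, f1 ω ∂μ - ∫ ω, f2 ω ∂μ - ∫ ω, f3 ω ∂μ - ∫ ω, f4 ω ∂μ + ∫ ω, f5 ω ∂μ
        - ∫ ω, f6 ω ∂μ - ∫ ω, f7 ω ∂μ := by
  have e7 := integral_sub (((((h1.sub h2).sub h3).sub h4).add h5).sub h6) h7
  have e6 := integral_sub ((((h1.sub h2).sub h3).sub h4).add h5) h6
  have e5 := integral_add (((h1.sub h2).sub h3).sub h4) h5
  have e4 := integral_sub ((h1.sub h2).sub h3) h4
  have e3 := integral_sub (h1.sub h2) h3
  have e2 := integral_sub h1 h2
  simp only [Pi.sub_apply, Pi.add_apply] at e7 e6 e5 e4 e3 e2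
  rw [e7, e6, e5, e4, e3, e2]

lemma Par.core {P y : ℝ} (h : Par P y) {b : ℝ} (hb : b = (1 / ap P y) ^ (1 / P)) {f u : Ω → ℝ}
    (hf : AEStronglyMeasurable f μ) (hu : AEStronglyMeasurable u μ)
    (hfp : Integrable (fun ω => |f ω| ^ P) μ) (hup : Integrable (fun ω => |u ω| ^ P) μ)
    (hf1 : ∫ ω, |f ω| ^ P ∂μ = 1) (hu1 : ∫ ω, |u ω| ^ P ∂μ = 1)
    {δ : ℝ} (hδ : δ = b * ∫ ω, j P (f ω) * u ω ∂μ) :
    kk P y / P * ((∫ ω, |f ω + b * u ω| ^ P ∂μ) + ∫ ω, |f ω - b * u ω| ^ P ∂μ)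
      ≤ b * ((1 + δ) * (∫ ω, j P (f ω + b * u ω) * u ω ∂μ)
        - (1 - δ) * ∫ ω, j P (f ω - b * u ω) * u ω ∂μ) := by
  have hP1 : (1 : ℝ) ≤ P := by linarith [h.hp]
  have hP1' : (1 : ℝ) < P := by linarith [h.hp]
  have ha := h.ap_pos
  have hb0 : 0 < b := by rw [hb]; positivity
  have hbP : ap P y * b ^ P = 1 := by
    rw [hb, ← Real.rpow_mul (by positivity), one_div P, inv_mul_cancel₀ (by linarith), Real.rpow_one]
    field_simp
  have hfb : AEStronglyMeasurable (fun ω => f ω + b * u ω) μ := hf.add (hu.const_mul b)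
  have hfb' : AEStronglyMeasurable (fun ω => f ω - b * u ω) μ := hf.sub (hu.const_mul b)
  have hBp := integrable_add_rpow hP1 hf hu hfp hup b
  have hBm := integrable_sub_rpow hP1 hf hu hfp hup b
  have hAp := integrable_j_mul hP1' hfb hu hBp hup
  have hAm := integrable_j_mul hP1' hfb' hu hBm hup
  have hJ := integrable_j_mul hP1' hf hu hfp hup
  set k := kk P y with hk
  set c := cc P y with hc
  set a := ap P y with haa
  have i1 := hAp.const_mul (b * (1 + δ))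
  have i2 := hAm.const_mul (b * (1 - δ))
  have i3 := hBp.const_mul (k / P)
  have i4 := hBm.const_mul (k / P)
  have i5 := hfp.const_mul (2 * k / P + c * δ ^ 2 / 2)
  have i6 := hup.const_mul ((2 * k / P - c * δ ^ 2 / 2) * (a * b ^ P))
  have i7 := hJ.const_mul (δ * c * b)
  have key : 0 ≤ ∫ ω, ((b * (1 + δ)) * (j P (f ω + b * u ω) * u ω)
      - (b * (1 - δ)) * (j P (f ω - b * u ω) * u ω)
      - (k / P) * |f ω + b * u ω| ^ P - (k / P) * |f ω - b * u ω| ^ P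
      + (2 * k / P + c * δ ^ 2 / 2) * |f ω| ^ P
      - ((2 * k / P - c * δ ^ 2 / 2) * (a * b ^ P)) * |u ω| ^ P
      - (δ * c * b) * (j P (f ω) * u ω)) ∂μ := by
    refine integral_nonneg fun ω => ?_
    have hpw := h.PW (f ω) (b * u ω) δ
    have hg : |b * u ω| ^ P = b ^ P * |u ω| ^ P := by
      rw [abs_mul, abs_of_pos hb0, Real.mul_rpow hb0.le (abs_nonneg _)]
    rw [hg] at hpw
    simp only [Pi.zero_apply]
    refine hpw.trans (le_of_eq ?_)
    simp only [← hk, ← hc, ← haa]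
    ring
  rw [integral_lin7 i1 i2 i3 i4 i5 i6 i7, integral_const_mul, integral_const_mul, integral_const_mul, integral_const_mul,
    integral_const_mul, integral_const_mul, integral_const_mul, hf1, hu1, hbP] at key
  have hJ1 : δ * c * b * ∫ ω, j P (f ω) * u ω ∂μ = c * δ ^ 2 := by
    calc δ * c * b * ∫ ω, j P (f ω) * u ω ∂μ = δ * c * (b * ∫ ω, j P (f ω) * u ω ∂μ) := by ring
      _ = c * δ ^ 2 := by rw [← hδ]; ring
  rw [hJ1] at key
  linarith [key]

/-- `N₊ + N₋ ≥ 2` (convexity: `2 |f|^P ≤ |f+g|^P + |f-g|^P`). -/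
lemma two_le_sum {P : ℝ} (hP : 1 ≤ P) {b : ℝ} {f u : Ω → ℝ}
    (hf : AEStronglyMeasurable f μ) (hu : AEStronglyMeasurable u μ)
    (hfp : Integrable (fun ω => |f ω| ^ P) μ) (hup : Integrable (fun ω => |u ω| ^ P) μ)
    (hf1 : ∫ ω, |f ω| ^ P ∂μ = 1) :
    2 ≤ (∫ ω, |f ω + b * u ω| ^ P ∂μ) + ∫ ω, |f ω - b * u ω| ^ P ∂μ := by
  have hBp := integrable_add_rpow hP hf hu hfp hup b
  have hBm := integrable_sub_rpow hP hf hu hfp hup b
  rw [← integral_add hBp hBm]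
  have h2 : (2 : ℝ) = ∫ ω, 2 * |f ω| ^ P ∂μ := by rw [integral_const_mul, hf1]; norm_num
  rw [h2]
  refine integral_mono (hfp.const_mul 2) (hBp.add hBm) fun ω => ?_
  have h3 := add_rpow_abs_le hP (f ω + b * u ω) (f ω - b * u ω)
  have h4 : f ω + b * u ω + (f ω - b * u ω) = 2 * f ω := by ring
  rw [h4, abs_mul, Real.mul_rpow (abs_nonneg _) (abs_nonneg _)] at h3
  have h5 : |(2 : ℝ)| ^ P = 2 ^ (P - 1) * 2 := by
    rw [abs_of_pos (by norm_num : (0 : ℝ) < 2)]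
    have := Real.rpow_add (by norm_num : (0 : ℝ) < 2) (P - 1) 1
    rw [Real.rpow_one] at this
    rw [← this]; congr 1; ring
  rw [h5, mul_assoc] at h3
  exact le_of_mul_le_mul_left h3 (by positivity)

end Pool.Agent.H47.NT
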