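import Mathlib
import Pool.Agent.H47.NT.Defs
import Pool.Agent.H47.NINorming

/-!
Norming functionals are dense: for `φ ∈ (L_p)^*` with `‖φ‖ = 1` and `η > 0` there are `f` and `g`
with `‖f‖ = ‖g‖ = g f = 1` and `‖φ - g‖ ≤ η` (real `L_p`, `1 < p ≤ 3`).
Pointwise: `|a + t b|^p ≤ |a|^p + p t j(a) b + C t^s (|a|^p + |b|^p)` for `0 ≤ t ≤ 1`, `s = min(p,2)`.
 By homogeneity `a = 1`, `u = t b`. `1 < p ≤ 2`: if `u ≥ -1`, `|u| ≤ 1`:
 `(1+u)^p = (1+u)(1+u)^(p-1) ≤ (1+u)(1+(p-1)u) = 1 + p u + (p-1) u^2 ≤ 1 + p u + |u|^p`; if `|u| ≥ 1`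
 everything is `≤ 10 |u|^p` and `|t b|^p ≤ t^p |b|^p`.
 `2 ≤ p ≤ 3`: `(1+u)^p ≤ (1+u)(1+(p-1)u+(p-2)u^2)` (previous case for `p-1`), so the error is
 `≤ C (u^2 + |u|^p)`, and `a^(p-2) (t b)^2 ≤ t^2 (|a|^p + |b|^p)`.
Then: choose `f`, `‖f‖ = 1`, `φ f ≥ 1 - τ`, `g` a norming functional of `f` (`norming_eq`:
`g h = ∫ j(f) h`). For `‖h‖ ≤ 1`: `φ(f + t h) ≤ ‖f + t h‖ ≤ 1 + t g(h) + (2C/p) t^s` (Bernoulli),
so `φ h - g h ≤ τ/t + (2C/p) t^(s-1)`.
-/

set_option autoImplicit false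

namespace Pool.Agent.H47.NT

open MeasureTheory
open scoped ENNReal

lemma J_eq_j (p x : ℝ) : NI.J (𝕜 := ℝ) p x = j p x := by
  simp [NI.J, j]

private lemma bern_le_two {p u : ℝ} (hp : 1 ≤ p) (hp2 : p ≤ 2) (hu : -1 < u) :
    (1 + u) ^ p ≤ 1 + p * u + (p - 1) * u ^ 2 := by
  have h0 : 0 < 1 + u := by linarith
  have h1 : (1 + u) ^ p = (1 + u) ^ (p - 1) * (1 + u) := by
    rw [← Real.rpow_add_one h0.ne']; congr 1; ring
  have h2 : (1 + u) ^ (p - 1) ≤ 1 + (p - 1) * u :=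
    rpow_one_add_le_one_add_mul_self hu.le (by linarith) (by linarith)
  rw [h1]
  have := mul_le_mul_of_nonneg_right h2 h0.le
  nlinarith

private lemma bern_one {p : ℝ} (hp : 1 < p) (hp3 : p ≤ 3) (u : ℝ) :
    |1 + u| ^ p ≤ 1 + p * u + 12 * (|u| ^ (min p 2) + |u| ^ p) := by
  have hpos1 : 0 ≤ |u| ^ (min p 2) := Real.rpow_nonneg (abs_nonneg _) _
  have hpos2 : 0 ≤ |u| ^ p := Real.rpow_nonneg (abs_nonneg _) _
  rcases le_or_gt 1 |u| with h | h
  · have h1 : |1 + u| ≤ 2 * |u| := by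
      have := abs_add_le 1 u
      rw [abs_one] at this
      linarith
    have h2 : |1 + u| ^ p ≤ (2 * |u|) ^ p := Real.rpow_le_rpow (abs_nonneg _) h1 (by linarith)
    have h3 : (2 * |u|) ^ p = 2 ^ p * |u| ^ p := Real.mul_rpow (by norm_num) (abs_nonneg _)
    have h4 : (2 : ℝ) ^ p ≤ 8 := by
      calc (2 : ℝ) ^ p ≤ 2 ^ (3 : ℝ) := Real.rpow_le_rpow_of_exponent_le (by norm_num) hp3
        _ = 8 := by norm_num
    have h5 : |u| ≤ |u| ^ p := by
      calc |u| = |u| ^ (1 : ℝ) := (Real.rpow_one _).symm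
        _ ≤ |u| ^ p := Real.rpow_le_rpow_of_exponent_le h hp.le
    have h6 : -(3 * |u|) ≤ p * u := by
      have := neg_abs_le u
      nlinarith [abs_nonneg u]
    nlinarith
  · have hu := abs_lt.1 h
    have h0 : 0 < 1 + u := by linarith
    rw [abs_of_pos h0]
    rcases le_total p 2 with h2 | h2
    · have h1 := bern_le_two hp.le h2 hu.1
      rw [min_eq_left h2]
      have h3 : u ^ 2 ≤ |u| ^ p := by
        rcases eq_or_ne u 0 with h4 | h4
        · rw [h4]; simp [Real.zero_rpow (by linarith : p ≠ 0)]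
        · have h5 : 0 < |u| := abs_pos.2 h4
          calc u ^ 2 = |u| ^ 2 := (sq_abs u).symm
            _ = |u| ^ (2 : ℝ) := by norm_cast
            _ ≤ |u| ^ p := Real.rpow_le_rpow_of_exponent_ge h5 h.le h2
      have h4 : 0 ≤ u ^ 2 := sq_nonneg u
      nlinarith
    · have h1 := bern_le_two (p := p - 1) (by linarith) (by linarith) hu.1
      rw [min_eq_right h2]
      have h3 : (1 + u) ^ p = (1 + u) ^ (p - 1) * (1 + u) := by
        rw [← Real.rpow_add_one h0.ne']; congr 1; ring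
      have h4 : |u| ^ (2 : ℝ) = u ^ 2 := by
        rw [← sq_abs u]; norm_cast
      rw [h3, h4]
      have h5 := mul_le_mul_of_nonneg_right h1 h0.le
      have h6 : (1 + (p - 1) * u + (p - 1 - 1) * u ^ 2) * (1 + u)
          = 1 + p * u + (p - 1) * u ^ 2 + (p - 2) * u ^ 2 + (p - 2) * (u * u ^ 2) := by ring
      have h7 : u * u ^ 2 ≤ u ^ 2 := by nlinarith [sq_nonneg u]
      have h8 : 0 ≤ u ^ 2 := sq_nonneg u
      have h9 : (p - 2) * (u * u ^ 2) ≤ u ^ 2 := by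
        calc (p - 2) * (u * u ^ 2) ≤ (p - 2) * u ^ 2 := mul_le_mul_of_nonneg_left h7 (by linarith)
          _ ≤ 1 * u ^ 2 := mul_le_mul_of_nonneg_right (by linarith) h8
          _ = u ^ 2 := one_mul _
      have h10 : (p - 1) * u ^ 2 ≤ 2 * u ^ 2 := mul_le_mul_of_nonneg_right (by linarith) h8
      have h11 : (p - 2) * u ^ 2 ≤ 1 * u ^ 2 := mul_le_mul_of_nonneg_right (by linarith) h8
      linarith

private lemma mixed_le {x y s p : ℝ} (hx : 0 ≤ x) (hy : 0 ≤ y) (hs : 0 ≤ s) (hsp : s ≤ p) :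
    x ^ (p - s) * y ^ s ≤ x ^ p + y ^ p := by
  have hp : 0 ≤ p := hs.trans hsp
  have hm : 0 ≤ max x y := le_max_of_le_left hx
  rcases eq_or_lt_of_le hm with h0 | h0
  · have hx0 : x = 0 := le_antisymm (h0 ▸ le_max_left x y) hx
    have hy0 : y = 0 := le_antisymm (h0 ▸ le_max_right x y) hy
    subst hx0 hy0
    rcases eq_or_lt_of_le hp with h1 | h1
    · have : s = 0 := le_antisymm (h1 ▸ hsp) hs
      subst this
      rw [← h1]
      norm_num
    · rw [Real.zero_rpow h1.ne']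
      rcases eq_or_lt_of_le hs with h2 | h2
      · rw [← h2, sub_zero, Real.zero_rpow h1.ne']; simp
      · rw [Real.zero_rpow h2.ne']; simp
  · have h1 : x ^ (p - s) ≤ (max x y) ^ (p - s) :=
      Real.rpow_le_rpow hx (le_max_left _ _) (by linarith)
    have h2 : y ^ s ≤ (max x y) ^ s := Real.rpow_le_rpow hy (le_max_right _ _) hs
    have h3 : (max x y) ^ (p - s) * (max x y) ^ s = (max x y) ^ p := by
      rw [← Real.rpow_add h0]; congr 1; ring
    have h4 : (max x y) ^ p ≤ x ^ p + y ^ p := by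
      rcases max_choice x y with h | h
      · rw [h]; linarith [Real.rpow_nonneg hy p]
      · rw [h]; linarith [Real.rpow_nonneg hx p]
    calc x ^ (p - s) * y ^ s ≤ (max x y) ^ (p - s) * (max x y) ^ s :=
          mul_le_mul h1 h2 (Real.rpow_nonneg hy _) (Real.rpow_nonneg hm _)
      _ = (max x y) ^ p := h3
      _ ≤ _ := h4

lemma smooth_pt {p : ℝ} (hp : 1 < p) (hp3 : p ≤ 3) : ∃ C s : ℝ, 0 < C ∧ 1 < s ∧ ∀ a b t : ℝ,
    0 ≤ t → t ≤ 1 → |a + t * b| ^ p ≤ |a| ^ p + p * t * (j p a * b) + C * t ^ s * (|a| ^ p + |b| ^ p) := by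
  refine ⟨24, min p 2, by norm_num, lt_min hp (by norm_num), ?_⟩
  intro a b t ht0 ht1
  have hs1 : 1 < min p 2 := lt_min hp (by norm_num)
  have hsp : min p 2 ≤ p := min_le_left _ _
  have hpa : 0 ≤ |a| ^ p := Real.rpow_nonneg (abs_nonneg _) _
  have hpb : 0 ≤ |b| ^ p := Real.rpow_nonneg (abs_nonneg _) _
  have hts : 0 ≤ t ^ (min p 2) := Real.rpow_nonneg ht0 _
  have htp : t ^ p ≤ t ^ (min p 2) := by
    rcases eq_or_lt_of_le ht0 with h | h
    · rw [← h, Real.zero_rpow (by linarith), Real.zero_rpow (by linarith)]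
    · exact Real.rpow_le_rpow_of_exponent_ge h ht1 hsp
  rcases eq_or_ne a 0 with h | h
  · subst h
    have h1 : |0 + t * b| ^ p = t ^ p * |b| ^ p := by
      rw [zero_add, abs_mul, abs_of_nonneg ht0, Real.mul_rpow ht0 (abs_nonneg _)]
    rw [h1]
    have h2 : j p 0 = 0 := by simp [j]
    rw [h2, abs_zero, Real.zero_rpow (by linarith)]
    nlinarith [mul_le_mul_of_nonneg_right htp hpb, mul_nonneg hts hpb]
  · have ha : 0 < |a| := abs_pos.2 h
    have h1 : a + t * b = a * (1 + t * b / a) := by field_simp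
    have h2 := bern_one hp hp3 (t * b / a)
    have h3 : |a + t * b| ^ p = |a| ^ p * |1 + t * b / a| ^ p := by
      rw [h1, abs_mul, Real.mul_rpow (abs_nonneg _) (abs_nonneg _)]
    have h4 := mul_le_mul_of_nonneg_left h2 hpa
    have h5 : |a| ^ p * (p * (t * b / a)) = p * t * (j p a * b) := by
      have h6 : |a| ^ p = |a| ^ (p - 2) * a ^ 2 := by
        rw [← sq_abs a, ← Real.rpow_natCast |a| 2, ← Real.rpow_add ha]
        congr 1; norm_num
      rw [h6, j]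
      field_simp
    have h7 : ∀ r : ℝ, |t * b / a| ^ r = t ^ r * |b| ^ r * |a| ^ (-r) := by
      intro r
      rw [abs_div, abs_mul, abs_of_nonneg ht0, Real.div_rpow (by positivity) (abs_nonneg _),
        Real.mul_rpow ht0 (abs_nonneg _), Real.rpow_neg (abs_nonneg _), div_eq_mul_inv]
    have h8 : |a| ^ p * |t * b / a| ^ (min p 2) ≤ t ^ (min p 2) * (|a| ^ p + |b| ^ p) := by
      rw [h7]
      have h9 : |a| ^ p * (t ^ (min p 2) * |b| ^ (min p 2) * |a| ^ (-(min p 2)))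
          = t ^ (min p 2) * (|a| ^ (p - min p 2) * |b| ^ (min p 2)) := by
        rw [Real.rpow_sub ha, Real.rpow_neg ha.le]
        field_simp
      rw [h9]
      exact mul_le_mul_of_nonneg_left
        (mixed_le (abs_nonneg _) (abs_nonneg _) (by linarith) hsp) hts
    have h10 : |a| ^ p * |t * b / a| ^ p ≤ t ^ (min p 2) * (|a| ^ p + |b| ^ p) := by
      rw [h7]
      have h9 : |a| ^ p * (t ^ p * |b| ^ p * |a| ^ (-p)) = t ^ p * |b| ^ p := by
        rw [Real.rpow_neg ha.le]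
        field_simp
      rw [h9]
      nlinarith [mul_le_mul_of_nonneg_right htp hpb, mul_nonneg hts hpa]
    rw [h3]
    calc |a| ^ p * |1 + t * b / a| ^ p
        ≤ |a| ^ p * (1 + p * (t * b / a) + 12 * (|t * b / a| ^ (min p 2) + |t * b / a| ^ p)) := h4
      _ = |a| ^ p + |a| ^ p * (p * (t * b / a)) + 12 * (|a| ^ p * |t * b / a| ^ (min p 2)
          + |a| ^ p * |t * b / a| ^ p) := by ring
      _ ≤ |a| ^ p + p * t * (j p a * b) + 24 * t ^ (min p 2) * (|a| ^ p + |b| ^ p) := by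
          rw [h5]; nlinarith

end Pool.Agent.H47.NT
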