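import Mathlib
import Pool.Agent.H47.NT.Defs
import Pool.Agent.H47.NT.Smooth

/-!
Homogeneous form of the numerical radius bound. `g` is the norming functional of `f`, so
`g h = ∫ j(f) h` (`NI.norming_eq` with `J_eq_j`). For `x ∈ L_p`, `x ≠ 0`, let `x' = x/‖x‖` and `h` a
norming functional of `x'` (`exists_dual_vector`), `h u = ∫ j(x') u`; then
`|g x' * h u| ≤ M`, and `j(c x) = c^(r-1) j(x)`, `‖x‖^r = ∫ |x|^r`.
-/

set_option autoImplicit false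

namespace Pool.Agent.H47.NT

open MeasureTheory
open scoped ENNReal

variable {Ω : Type*} [MeasurableSpace Ω] {μ : Measure Ω} {p : ℝ≥0∞} [Fact (1 ≤ p)]

private lemma j_smul {r c : ℝ} (hc : 0 < c) (x : ℝ) : j r (c * x) = c ^ (r - 1) * j r x := by
  unfold j
  rw [abs_mul, abs_of_pos hc, Real.mul_rpow hc.le (abs_nonneg _)]
  have h1 : c ^ (r - 1) = c ^ (r - 2) * c := by
    rw [← Real.rpow_add_one hc.ne']; congr 1; ring
  rw [h1]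
  ring

lemma hom_bound (hp1 : 1 < p) (hp : p ≠ ∞) (f u : Lp ℝ p μ) (g : Lp ℝ p μ →L[ℝ] ℝ)
    (hf : ‖f‖ = 1) (hg : ‖g‖ = 1) (hgf : g f = 1) {M : ℝ} (hM0 : 0 ≤ M)
    (hM : ∀ (x : Lp ℝ p μ) (h : Lp ℝ p μ →L[ℝ] ℝ), ‖x‖ = 1 → ‖h‖ = 1 → h x = 1 → |g x * h u| ≤ M)
    (x : Ω → ℝ) (hx : MemLp x p μ) :
    |(∫ ω, j p.toReal (f ω) * x ω ∂μ) * ∫ ω, j p.toReal (x ω) * u ω ∂μ|
      ≤ M * ∫ ω, |x ω| ^ p.toReal ∂μ := by
  have hr := NI.one_lt_toReal hp1 hp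
  have hint0 : 0 ≤ ∫ ω, |x ω| ^ p.toReal ∂μ :=
    integral_nonneg fun ω => Real.rpow_nonneg (abs_nonneg _) _
  obtain ⟨X, hX⟩ : ∃ X : Lp ℝ p μ, X = hx.toLp x := ⟨_, rfl⟩
  have hXx : X =ᵐ[μ] x := by rw [hX]; exact hx.coeFn_toLp
  have hnorm : ‖X‖ ^ p.toReal = ∫ ω, |x ω| ^ p.toReal ∂μ := by
    rw [NI.Lp_norm_rpow hp1 hp]
    refine integral_congr_ae ?_
    filter_upwards [hXx] with ω hω
    rw [hω, Real.norm_eq_abs]
  have hgX : g X = ∫ ω, j p.toReal (f ω) * x ω ∂μ := by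
    rw [NI.norming_eq hp1 hp f g hf hg hgf X]
    refine integral_congr_ae ?_
    filter_upwards [hXx] with ω hω
    rw [hω, J_eq_j]
  rcases eq_or_ne X 0 with h0 | h0
  · have h1 : g X = 0 := by rw [h0, map_zero]
    rw [← hgX, h1, zero_mul, abs_zero]
    positivity
  · have hn : 0 < ‖X‖ := norm_pos_iff.2 h0
    obtain ⟨X', hX'⟩ : ∃ X' : Lp ℝ p μ, X' = ‖X‖⁻¹ • X := ⟨_, rfl⟩
    have hX'n : ‖X'‖ = 1 := by
      rw [hX', norm_smul, norm_inv, norm_norm, inv_mul_cancel₀ hn.ne']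
    have hX'0 : X' ≠ 0 := by
      intro h
      rw [h, norm_zero] at hX'n
      exact zero_ne_one hX'n
    obtain ⟨h, hh1, hh2⟩ := exists_dual_vector ℝ X' (by rw [hX'n]; exact one_ne_zero)
    have hhx : h X' = 1 := by
      rw [hh2, hX'n]; simp
    have h2 := hM X' h hX'n hh1 hhx
    have h3 : g X' = ‖X‖⁻¹ * ∫ ω, j p.toReal (f ω) * x ω ∂μ := by
      rw [hX', map_smul, hgX, smul_eq_mul]
    have h4 : h u = ‖X‖⁻¹ ^ (p.toReal - 1) * ∫ ω, j p.toReal (x ω) * u ω ∂μ := by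
      rw [NI.norming_eq hp1 hp X' h hX'n hh1 hhx u, ← integral_const_mul]
      refine integral_congr_ae ?_
      have h5 : X' =ᵐ[μ] fun ω => ‖X‖⁻¹ * X ω := by
        rw [hX']
        filter_upwards [Lp.coeFn_smul ‖X‖⁻¹ X] with ω hω
        rw [hω, Pi.smul_apply, smul_eq_mul]
      filter_upwards [hXx, h5] with ω hω hω'
      rw [J_eq_j, hω', hω, j_smul (inv_pos.2 hn)]
      ring
    rw [h3, h4] at h2
    have h5 : ‖X‖⁻¹ * (∫ ω, j p.toReal (f ω) * x ω ∂μ) * (‖X‖⁻¹ ^ (p.toReal - 1) *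
        ∫ ω, j p.toReal (x ω) * u ω ∂μ) = (‖X‖ ^ p.toReal)⁻¹ *
        ((∫ ω, j p.toReal (f ω) * x ω ∂μ) * ∫ ω, j p.toReal (x ω) * u ω ∂μ) := by
      have h6 : ‖X‖⁻¹ * ‖X‖⁻¹ ^ (p.toReal - 1) = (‖X‖ ^ p.toReal)⁻¹ := by
        rw [← Real.inv_rpow hn.le, mul_comm, ← Real.rpow_add_one (inv_pos.2 hn).ne']
        congr 1
        ring
      rw [← h6]
      ring
    have hpos : 0 < ‖X‖ ^ p.toReal := Real.rpow_pos_of_pos hn _
    rw [h5, abs_mul, abs_of_pos (inv_pos.2 hpos), inv_mul_le_iff₀ hpos, hnorm] at h2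
    linarith

end Pool.Agent.H47.NT
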