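import Mathlib
import Pool.Agent.H47.NT.Defs
import Pool.Agent.H47.NT.Root
import Pool.Agent.H47.NT.Iden
import Pool.Agent.H47.NT.Num

/-!
Pointwise inequalities for the upper bound, `y/k = C/(p-1)`.
* `K0`: Young.
* `Kplus`: for `ξ ≤ 0` the left side is `≤ 0`. For `ξ > 0`, `h = ξ + C/(p-1) ξ^(p-1) - ξ^p/p`,
  `ξ^(2-p) h' = ξ^(2-p) + C - ξ` is decreasing and vanishes at `ξ = 1 + y`
  (`C = y + 1 - (y+1)^(2-p)`).
* `Kminus`: for `ξ = -η ≤ 0`, `h = -η + C/(p-1) η^(p-1) - η^p/p`, `h' = η^(p-2)(C - η - η^(2-p))`;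
  `η + η^(2-p)` is decreasing then increasing on `(0,∞)` (its value at `y-1` is `C`, and `y - 1` is
  on the increasing part: `(p-2)(y-1)^(1-p) < 1`), so `h ≤ max(0, h(y-1))`.
  For `ξ > 0`, `h ≤ ξ - C/(p-1) ξ^(p-1) ≤ (p-2)/(p-1) C^(-1/(p-2))` (maximum at
  `ξ^(p-2) = 1/C`), and `Kminus_num`. The right side equals
  `(y-1)/(p(p-1)) ((y-1)^(p-1) + 1 - (p-1)^2) ≥ 0`.
* `Ksum`: `m = 2(p-1)/RR`.
-/

set_option autoImplicit false

namespace Pool.Agent.H47.NT

/-- Maximal value at `z = y`. -/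
noncomputable def kap (p y : ℝ) : ℝ := (1 - 1 / p) * (1 + y) + 1 / p * (y / kk p y) * (1 + y) ^ (p - 1)

/-- Maximal value at `z = -y`. -/
noncomputable def kam (p y : ℝ) : ℝ := (1 - 1 / p) * (1 - y) + 1 / p * (y / kk p y) * (y - 1) ^ (p - 1)

lemma Par.y_div_kk {p y : ℝ} (h : Par p y) : y / kk p y = CC p y / (p - 1) := by
  have hC : 0 < CC p y := by linarith [h.CC_gt, h.hy]
  have hp : 0 < p - 1 := by linarith [h.hp]
  have hy : 0 < y := by linarith [h.hy]
  unfold kk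
  field_simp

lemma K0 {p : ℝ} (hp : 1 < p) (ξ : ℝ) : ξ - |ξ| ^ p / p ≤ 1 - 1 / p := by
  have hp0 : 0 < p := by linarith
  have h1 := one_add_mul_self_le_rpow_one_add (s := |ξ| - 1) (by linarith [abs_nonneg ξ]) hp.le
  have h2 : 1 + (|ξ| - 1) = |ξ| := by ring
  rw [h2] at h1
  have h3 : (1 + p * (|ξ| - 1)) / p ≤ |ξ| ^ p / p := by gcongr
  have h4 : (1 + p * (|ξ| - 1)) / p = 1 / p + |ξ| - 1 := by field_simp; ring
  have h5 := le_abs_self ξ
  linarith

lemma kap_nonneg {p y : ℝ} (h : Par p y) : 0 ≤ kap p y := by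
  have hC : 0 < CC p y := by linarith [h.CC_gt, h.hy]
  have hp : 0 < p - 1 := by linarith [h.hp]
  have hp0 : 0 < p := by linarith [h.hp]
  have hy : 0 < y := by linarith [h.hy]
  have h1 : 1 / p ≤ 1 := by rw [div_le_one hp0]; linarith
  unfold kap
  rw [h.y_div_kk]
  have h2 : 0 ≤ (1 - 1 / p) * (1 + y) := mul_nonneg (by linarith) (by linarith)
  have h3 : 0 ≤ 1 / p * (CC p y / (p - 1)) * (1 + y) ^ (p - 1) := by positivity
  linarith

/-- the function of `Kplus` for positive argument -/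
noncomputable def hK (p y : ℝ) (x : ℝ) : ℝ := x + CC p y / (p - 1) * x ^ (p - 1) - x ^ p / p

lemma hK_deriv {p y : ℝ} (h : Par p y) {x : ℝ} (hx : 0 < x) :
    HasDerivAt (hK p y) (1 + CC p y * x ^ (p - 2) - x ^ (p - 1)) x := by
  have hp : p - 1 ≠ 0 := by linarith [h.hp]
  have hp0 : p ≠ 0 := by linarith [h.hp]
  have h1 : HasDerivAt (fun x : ℝ => x ^ (p - 1)) ((p - 1) * x ^ (p - 1 - 1)) x :=
    Real.hasDerivAt_rpow_const (Or.inl hx.ne')
  have h2 : HasDerivAt (fun x : ℝ => x ^ p) (p * x ^ (p - 1)) x :=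
    Real.hasDerivAt_rpow_const (Or.inl hx.ne')
  have h3 := ((hasDerivAt_id x).add (h1.const_mul (CC p y / (p - 1)))).sub (h2.div_const p)
  have e1 : p - 1 - 1 = p - 2 := by ring
  have e2 : 1 + CC p y / (p - 1) * ((p - 1) * x ^ (p - 1 - 1)) - p * x ^ (p - 1) / p =
      1 + CC p y * x ^ (p - 2) - x ^ (p - 1) := by
    rw [e1]
    field_simp
  rw [← e2]
  exact h3

lemma hK_fac {p y : ℝ} {x : ℝ} (hx : 0 < x) :
    1 + CC p y * x ^ (p - 2) - x ^ (p - 1) = x ^ (p - 2) * (x ^ (2 - p) + CC p y - x) := by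
  have h1 : x ^ (p - 1) = x ^ (p - 2) * x := by
    have : p - 1 = (p - 2) + 1 := by ring
    rw [this, Real.rpow_add_one hx.ne']
  have h2 : x ^ (p - 2) * x ^ (2 - p) = 1 := by
    rw [← Real.rpow_add hx]
    have : p - 2 + (2 - p) = 0 := by ring
    rw [this, Real.rpow_zero]
  rw [h1]
  linear_combination -h2

lemma hK_le {p y : ℝ} (h : Par p y) {x : ℝ} (hx : 0 < x) : hK p y x ≤ hK p y (1 + y) := by
  have hy := h.hy
  have hpp := h.hp
  have hfac0 : (1 + y) ^ (2 - p) + CC p y - (1 + y) = 0 := by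
    unfold CC
    rw [add_comm 1 y]
    ring
  rcases le_total x (1 + y) with hx1 | hx1
  · have hmono : MonotoneOn (hK p y) (Set.Icc x (1 + y)) := by
      apply monotoneOn_of_deriv_nonneg (convex_Icc _ _)
      · intro z hz
        exact (hK_deriv h (lt_of_lt_of_le hx hz.1)).continuousAt.continuousWithinAt
      · intro z hz
        rw [interior_Icc] at hz
        exact (hK_deriv h (hx.trans hz.1)).differentiableAt.differentiableWithinAt
      · intro z hz
        rw [interior_Icc] at hz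
        have hz0 : 0 < z := hx.trans hz.1
        rw [(hK_deriv h hz0).deriv, hK_fac hz0]
        apply mul_nonneg (Real.rpow_nonneg hz0.le _)
        have h1 : (1 + y) ^ (2 - p) ≤ z ^ (2 - p) :=
          Real.rpow_le_rpow_of_nonpos hz0 hz.2.le (by linarith)
        linarith [hz.2]
    exact hmono (Set.left_mem_Icc.2 hx1) (Set.right_mem_Icc.2 hx1) hx1
  · have hanti : AntitoneOn (hK p y) (Set.Icc (1 + y) x) := by
      apply antitoneOn_of_deriv_nonpos (convex_Icc _ _)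
      · intro z hz
        exact (hK_deriv h (by linarith [hz.1])).continuousAt.continuousWithinAt
      · intro z hz
        rw [interior_Icc] at hz
        exact (hK_deriv h (by linarith [hz.1])).differentiableAt.differentiableWithinAt
      · intro z hz
        rw [interior_Icc] at hz
        have hz0 : 0 < z := by linarith [hz.1]
        rw [(hK_deriv h hz0).deriv, hK_fac hz0]
        apply mul_nonpos_of_nonneg_of_nonpos (Real.rpow_nonneg hz0.le _)
        have h1 : z ^ (2 - p) ≤ (1 + y) ^ (2 - p) :=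
          Real.rpow_le_rpow_of_nonpos (by linarith) hz.1.le (by linarith)
        linarith [hz.1]
    exact hanti (Set.left_mem_Icc.2 hx1) (Set.right_mem_Icc.2 hx1) hx1

lemma hK_top {p y : ℝ} (h : Par p y) : hK p y (1 + y) = kap p y := by
  have hp : p - 1 ≠ 0 := by linarith [h.hp]
  have hp0 : p ≠ 0 := by linarith [h.hp]
  have hy : (0 : ℝ) < y + 1 := by linarith [h.hy]
  have h1 := h.CC_mul_plus
  have h2 : (y + 1) ^ (p - 1) = (y + 1) ^ (p - 2) * (y + 1) := by
    have : p - 1 = (p - 2) + 1 := by ring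
    rw [this, Real.rpow_add_one hy.ne']
  have h3 : (y + 1) ^ p = (y + 1) ^ (p - 1) * (y + 1) := by
    have : p = (p - 1) + 1 := by ring
    conv_lhs => rw [this]
    rw [Real.rpow_add_one hy.ne']
  have h4 : (y + 1) ^ p = CC p y * (y + 1) ^ (p - 1) + (y + 1) := by
    rw [h3]
    linear_combination (-(y + 1)) * h1 - CC p y * h2
  unfold hK kap
  rw [h.y_div_kk, add_comm 1 y, h4]
  field_simp
  ring

lemma Par.Kplus {p y : ℝ} (h : Par p y) (ξ : ℝ) :
    ξ + y / kk p y * j p ξ - |ξ| ^ p / p ≤ kap p y := by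
  have hC : 0 < CC p y := by linarith [h.CC_gt, h.hy]
  have hp : 0 < p - 1 := by linarith [h.hp]
  have hp0 : 0 < p := by linarith [h.hp]
  rw [h.y_div_kk]
  rcases le_or_gt ξ 0 with hξ | hξ
  · have h1 : j p ξ ≤ 0 := by
      unfold j
      exact mul_nonpos_of_nonneg_of_nonpos (Real.rpow_nonneg (abs_nonneg _) _) hξ
    have h2 : CC p y / (p - 1) * j p ξ ≤ 0 := mul_nonpos_of_nonneg_of_nonpos (by positivity) h1
    have h3 : 0 ≤ |ξ| ^ p / p := div_nonneg (Real.rpow_nonneg (abs_nonneg _) _) hp0.le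
    have h4 := kap_nonneg h
    linarith
  · have h1 : j p ξ = ξ ^ (p - 1) := by
      unfold j
      rw [abs_of_pos hξ]
      have : p - 1 = (p - 2) + 1 := by ring
      rw [this, Real.rpow_add_one hξ.ne']
    rw [h1, abs_of_pos hξ, ← hK_top h]
    exact hK_le h hξ

lemma Par.kam_eq {p y : ℝ} (h : Par p y) :
    kam p y = (y - 1) / (p * (p - 1)) * ((y - 1) ^ (p - 1) + 1 - (p - 1) ^ 2) := by
  have hp : p - 1 ≠ 0 := by linarith [h.hp]
  have hp0 : p ≠ 0 := by linarith [h.hp]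
  have hy : (0 : ℝ) < y - 1 := by linarith [h.hy]
  have h1 := h.CC_mul_minus
  have h2 : (y - 1) ^ (p - 1) = (y - 1) ^ (p - 2) * (y - 1) := by
    have : p - 1 = (p - 2) + 1 := by ring
    rw [this, Real.rpow_add_one hy.ne']
  have h3 : CC p y * (y - 1) ^ (p - 1) = (y - 1) * ((y - 1) ^ (p - 1) + 1) := by
    linear_combination (y - 1) * h1 + CC p y * h2
  unfold kam
  rw [h.y_div_kk]
  have h4 : 1 / p * (CC p y / (p - 1)) * (y - 1) ^ (p - 1) =
      (CC p y * (y - 1) ^ (p - 1)) / (p * (p - 1)) := by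
    field_simp
  rw [h4, h3]
  field_simp
  ring

/-- `m = 2(p-1)/RR ∈ (0, 1)`. -/
lemma Par.m_mem {p y : ℝ} (h : Par p y) :
    0 < 2 * (p - 1) / RR p y ∧ 2 * (p - 1) / RR p y < 1 := by
  have hR := h.RR_pos
  have hp : 0 < p - 1 := by linarith [h.hp]
  refine ⟨by positivity, ?_⟩
  rw [div_lt_one hR]
  have hlo := h.lo'
  have h1 : (y + 1) ^ (2 : ℝ) ≤ (y + 1) ^ p :=
    Real.rpow_le_rpow_of_exponent_le (by linarith) h.hp.le
  rw [Real.rpow_two] at h1
  have h5 : (5 : ℝ) ≤ (y + 1) ^ 2 := by nlinarith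
  have h3 : 0 ≤ (y - 1) ^ p := Real.rpow_nonneg (by linarith) _
  have h4 := h.hp'
  unfold RR
  linarith

lemma Par.Ksum {p y : ℝ} (h : Par p y) :
    (1 - 2 * (p - 1) / RR p y) * (1 - 1 / p) + (p - 1) / RR p y * (kap p y + kam p y) = 1 := by
  have hp : p - 1 ≠ 0 := by linarith [h.hp]
  have hp0 : p ≠ 0 := by linarith [h.hp]
  have hR := h.RR_pos.ne'
  have h1 := h.CC_mul_sum
  have h2 : kap p y + kam p y = 2 * (1 - 1 / p) +
      (CC p y * ((y + 1) ^ (p - 1) + (y - 1) ^ (p - 1))) / (p * (p - 1)) := by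
    unfold kap kam
    rw [h.y_div_kk, add_comm 1 y]
    field_simp
    ring
  rw [h2, h1]
  field_simp
  ring

end Pool.Agent.H47.NT
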