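import Mathlib
import Pool.Agent.H47.NT.Defs
import Pool.Agent.H47.NT.Root
import Pool.Agent.H47.NT.Iden
import Pool.Agent.H47.NT.Num
import Pool.Agent.H47.NT.KP

/-!
Pointwise inequalities for the upper bound, `y/k = C/(p-1)`.
* `K0`: Young.
* `Kplus`: for `ξ ≤ 0` the left side is `≤ 0`. For `ξ > 0`, `h = ξ + C/(p-1) ξ^(p-1) - ξ^p/p`,
  `ξ^(2-p) h' = ξ^(2-p) + C - ξ` is decreasing and vanishes at `ξ = 1 + y`
  (`C = y + 1 - (y+1)^(2-p)`).
* `Kminus`: for `ξ = -η ≤ 0`, `h = -η + C/(p-1) η^(p-1) - η^p/p`, `h' = η^(p-2)(C - η - η^(2-p))`;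
  `η + η^(2-p)` is decreasing then increasing on `(0,∞)` (its value at `y-1` is `C`, and `y - 1` is
  on the increasing part: `(p-2)(y-1)^(1-p) < 1`), so `h ≤ max(0, h(y-1))`.
  For `ξ > 0`, `h ≤ ξ - C/(p-1) ξ^(p-1) ≤ (p-2)/(p-1) C^(-1/(p-2))` (maximum at
  `ξ^(p-2) = 1/C`), and `Kminus_num`. The right side equals
  `(y-1)/(p(p-1)) ((y-1)^(p-1) + 1 - (p-1)^2) ≥ 0`.
* `Ksum`: `m = 2(p-1)/RR`.
-/

set_option autoImplicit false

namespace Pool.Agent.H47.NT

private noncomputable def hm (p y η : ℝ) : ℝ := -η + CC p y / (p - 1) * η ^ (p - 1) - η ^ p / p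

private noncomputable def km (p y η : ℝ) : ℝ := -1 + CC p y * η ^ (p - 2) - η ^ (p - 1)

private lemma hm_deriv {p y : ℝ} (h : Par p y) (η : ℝ) : HasDerivAt (hm p y) (km p y η) η := by
  have hp := h.hp
  have h1 : HasDerivAt (fun x : ℝ => x ^ (p - 1)) ((p - 1) * η ^ (p - 1 - 1)) η :=
    Real.hasDerivAt_rpow_const (Or.inr (by linarith))
  have h2 : HasDerivAt (fun x : ℝ => x ^ p) (p * η ^ (p - 1)) η :=
    Real.hasDerivAt_rpow_const (Or.inr (by linarith))
  have h3 : HasDerivAt (hm p y)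
      (-1 + CC p y / (p - 1) * ((p - 1) * η ^ (p - 1 - 1)) - p * η ^ (p - 1) / p) η :=
    (((hasDerivAt_id η).neg).add (h1.const_mul (CC p y / (p - 1)))).sub (h2.div_const p)
  convert! h3 using 1
  unfold km
  have e1 : p - 1 - 1 = p - 2 := by ring
  have hp1 : p - 1 ≠ 0 := by linarith
  have hp0 : p ≠ 0 := by linarith
  rw [e1]
  field_simp

private lemma km_concave {p y : ℝ} (h : Par p y) : ConcaveOn ℝ (Set.Ici 0) (km p y) := by
  have hp := h.hp
  have hp' := h.hp'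
  have hC : 0 < CC p y := by linarith [h.CC_gt, h.hy]
  have h1 : ConcaveOn ℝ (Set.Ici 0) fun x : ℝ => x ^ (p - 2) :=
    Real.concaveOn_rpow (by linarith) (by linarith)
  have h2 : ConvexOn ℝ (Set.Ici 0) fun x : ℝ => x ^ (p - 1) := convexOn_rpow (by linarith)
  have h3 : ConcaveOn ℝ (Set.Ici 0) fun x : ℝ => (-1 : ℝ) + CC p y * x ^ (p - 2) :=
    (concaveOn_const (-1) (convex_Ici 0)).add (h1.smul hC.le)
  exact h3.sub h2

private lemma a_pos {p y : ℝ} (h : Par p y) : 0 < y - 1 := by linarith [h.hy]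

private lemma km_a {p y : ℝ} (h : Par p y) : km p y (y - 1) = 0 := by
  unfold km
  rw [h.CC_mul_minus]
  ring

private lemma eps_le {p y : ℝ} (h : Par p y) : (p - 2) * (y - 1) ^ (2 - p) ≤ y - 1 := by
  have ha := a_pos h
  have hlo := h.lo'
  have hhi := h.hi
  have hp := h.hp
  have hp' := h.hp'
  have h1 : (y - 1) ^ (p - 1) * (y - 1) ^ (2 - p) = y - 1 := by
    rw [← Real.rpow_add ha]
    have : p - 1 + (2 - p) = 1 := by ring
    rw [this, Real.rpow_one]
  have h2 : (y - 1) ^ (2 : ℝ) ≤ (y - 1) ^ (p - 1) :=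
    Real.rpow_le_rpow_of_exponent_ge ha (by linarith) (by linarith)
  have h3 : (y - 1) ^ (2 : ℝ) = (y - 1) ^ 2 := by
    exact_mod_cast Real.rpow_natCast (y - 1) 2
  have h4 : p - 2 ≤ (y - 1) ^ (p - 1) := by
    rw [h3] at h2
    nlinarith
  calc (p - 2) * (y - 1) ^ (2 - p) ≤ (y - 1) ^ (p - 1) * (y - 1) ^ (2 - p) := by
        have : 0 ≤ (y - 1) ^ (2 - p) := Real.rpow_nonneg ha.le _
        gcongr
    _ = y - 1 := h1

private lemma km_nonpos {p y : ℝ} (h : Par p y) {η : ℝ} (hη : y - 1 ≤ η) : km p y η ≤ 0 := by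
  have ha := a_pos h
  have hp := h.hp
  have hη0 : 0 < η := by linarith
  have hC := h.CC_eq
  have h1 : η ^ (p - 1) = η ^ (p - 2) * η := by
    rw [← Real.rpow_add_one hη0.ne']
    congr 1
    ring
  have h2 : η ^ (p - 2) * η ^ (2 - p) = 1 := by
    rw [← Real.rpow_add hη0]
    have : p - 2 + (2 - p) = 0 := by ring
    rw [this, Real.rpow_zero]
  -- `η^(2-p) ≥ a^(2-p) (1 - (p-2)(η/a - 1))`
  have h3 : (y - 1) ^ (2 - p) * (1 - (p - 2) * (η / (y - 1) - 1)) ≤ η ^ (2 - p) := by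
    have h4 : η = (y - 1) * (η / (y - 1)) := by field_simp
    have hq : 0 < η / (y - 1) := by positivity
    have h5 : η ^ (2 - p) = (y - 1) ^ (2 - p) * (η / (y - 1)) ^ (2 - p) := by
      rw [← Real.mul_rpow ha.le hq.le, ← h4]
    rw [h5]
    have h6 : 0 ≤ (y - 1) ^ (2 - p) := Real.rpow_nonneg ha.le _
    refine mul_le_mul_of_nonneg_left ?_ h6
    rw [Real.rpow_def_of_pos hq]
    have h7 := Real.add_one_le_exp (Real.log (η / (y - 1)) * (2 - p))
    have h8 := Real.log_le_sub_one_of_pos hq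
    nlinarith
  have h4 := eps_le h
  have h5 : CC p y ≤ η + η ^ (2 - p) := by
    rw [hC]
    have h6 : (y - 1) ^ (2 - p) * ((p - 2) * (η / (y - 1) - 1)) ≤ η - (y - 1) := by
      have h7 : (y - 1) ^ (2 - p) * ((p - 2) * (η / (y - 1) - 1)) =
          ((p - 2) * (y - 1) ^ (2 - p)) * ((η - (y - 1)) / (y - 1)) := by
        field_simp
      rw [h7]
      calc ((p - 2) * (y - 1) ^ (2 - p)) * ((η - (y - 1)) / (y - 1))
          ≤ (y - 1) * ((η - (y - 1)) / (y - 1)) := by
            have : 0 ≤ (η - (y - 1)) / (y - 1) := div_nonneg (by linarith) ha.le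
            gcongr
        _ = η - (y - 1) := by field_simp
    have h8 : (y - 1) ^ (2 - p) * (1 - (p - 2) * (η / (y - 1) - 1)) =
        (y - 1) ^ (2 - p) - (y - 1) ^ (2 - p) * ((p - 2) * (η / (y - 1) - 1)) := by ring
    rw [h8] at h3
    linarith
  have h6 : 0 ≤ η ^ (p - 2) := Real.rpow_nonneg hη0.le _
  have h7 := mul_le_mul_of_nonneg_left h5 h6
  unfold km
  rw [h1]
  nlinarith

private lemma hm_zero {p y : ℝ} (h : Par p y) : hm p y 0 = 0 := by
  have hp := h.hp
  unfold hm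
  rw [Real.zero_rpow (by linarith), Real.zero_rpow (by linarith)]
  ring

private lemma hm_a {p y : ℝ} (h : Par p y) : hm p y (y - 1) = kam p y := by
  have ha := a_pos h
  have hp := h.hp
  unfold hm kam
  rw [h.y_div_kk]
  have h1 : (y - 1) ^ p = (y - 1) ^ (p - 1) * (y - 1) := by
    rw [← Real.rpow_add_one ha.ne']
    congr 1
    ring
  have h2 : (y - 1) ^ (p - 1) = (y - 1) ^ (p - 2) * (y - 1) := by
    rw [← Real.rpow_add_one ha.ne']
    congr 1
    ring
  have h3 := h.CC_mul_minus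
  have hp1 : p - 1 ≠ 0 := by linarith
  have hp0 : p ≠ 0 := by linarith
  have h4 : (y - 1) ^ p = CC p y * (y - 1) ^ (p - 1) - (y - 1) := by
    have h5 : CC p y * (y - 1) ^ (p - 1) = (CC p y * (y - 1) ^ (p - 2)) * (y - 1) := by
      rw [h2]
      ring
    rw [h5, h3, h1]
    ring
  rw [h4]
  field_simp
  ring

private lemma hm_mono {p y : ℝ} (h : Par p y) {a b : ℝ} (hab : a ≤ b)
    (hk : ∀ x ∈ Set.Ioo a b, 0 ≤ km p y x) : hm p y a ≤ hm p y b := by
  have hcont : ContinuousOn (hm p y) (Set.Icc a b) := fun x _ => (hm_deriv h x).continuousAt.continuousWithinAt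
  have hdiff : DifferentiableOn ℝ (hm p y) (interior (Set.Icc a b)) := fun x _ =>
    (hm_deriv h x).differentiableAt.differentiableWithinAt
  have hm' := monotoneOn_of_deriv_nonneg (convex_Icc a b) hcont hdiff (fun x hx => by
    rw [interior_Icc] at hx
    rw [(hm_deriv h x).deriv]
    exact hk x hx)
  exact hm' (Set.left_mem_Icc.2 hab) (Set.right_mem_Icc.2 hab) hab

private lemma hm_anti {p y : ℝ} (h : Par p y) {a b : ℝ} (hab : a ≤ b)
    (hk : ∀ x ∈ Set.Ioo a b, km p y x ≤ 0) : hm p y b ≤ hm p y a := by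
  have hcont : ContinuousOn (hm p y) (Set.Icc a b) := fun x _ => (hm_deriv h x).continuousAt.continuousWithinAt
  have hdiff : DifferentiableOn ℝ (hm p y) (interior (Set.Icc a b)) := fun x _ =>
    (hm_deriv h x).differentiableAt.differentiableWithinAt
  have hm' := antitoneOn_of_deriv_nonpos (convex_Icc a b) hcont hdiff (fun x hx => by
    rw [interior_Icc] at hx
    rw [(hm_deriv h x).deriv]
    exact hk x hx)
  exact hm' (Set.left_mem_Icc.2 hab) (Set.right_mem_Icc.2 hab) hab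

private lemma kam_nonneg {p y : ℝ} (h : Par p y) : 0 ≤ kam p y := by
  rw [h.kam_eq]
  exact h.Kminus_nonneg

private lemma hm_le {p y : ℝ} (h : Par p y) {η : ℝ} (hη : 0 ≤ η) : hm p y η ≤ kam p y := by
  have ha := a_pos h
  rcases le_total (y - 1) η with h1 | h1
  · rw [← hm_a h]
    exact hm_anti h h1 fun x hx => km_nonpos h hx.1.le
  · by_cases h2 : 0 ≤ km p y η
    · rw [← hm_a h]
      refine hm_mono h h1 fun x hx => ?_
      have h3 := (km_concave h).min_le_of_mem_Icc (x := η) (y := y - 1) (z := x) hη ha.le ⟨hx.1.le, hx.2.le⟩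
      rw [km_a h] at h3
      exact (le_min h2 le_rfl).trans h3
    · have h3 : hm p y η ≤ hm p y 0 := by
        refine hm_anti h hη fun x hx => ?_
        by_contra h4
        push Not at h4 h2
        have h5 := (km_concave h).min_le_of_mem_Icc (x := x) (y := y - 1) (z := η) hx.1.le ha.le
          ⟨hx.2.le, h1⟩
        rw [km_a h, min_eq_right h4.le] at h5
        linarith
      rw [hm_zero h] at h3
      exact h3.trans (kam_nonneg h)

lemma Par.Kminus_neg {p y : ℝ} (h : Par p y) {ξ : ℝ} (hξ : ξ ≤ 0) :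
    ξ - y / kk p y * j p ξ - |ξ| ^ p / p ≤ kam p y := by
  have h1 := hm_le h (η := -ξ) (by linarith)
  have hp := h.hp
  rw [h.y_div_kk]
  have habs : |ξ| = -ξ := abs_of_nonpos hξ
  have h2 : j p ξ = -((-ξ) ^ (p - 1)) := by
    unfold j
    rw [habs]
    rcases eq_or_lt_of_le hξ with h3 | h3
    · rw [h3, neg_zero, Real.zero_rpow (by linarith : p - 1 ≠ 0)]
      ring
    · have h4 : 0 < -ξ := by linarith
      have h5 : (-ξ) ^ (p - 1) = (-ξ) ^ (p - 2) * (-ξ) := by
        rw [← Real.rpow_add_one h4.ne']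
        congr 1
        ring
      rw [h5]
      ring
  rw [h2, habs]
  unfold hm at h1
  linarith

lemma Par.Kminus_pos {p y : ℝ} (h : Par p y) {ξ : ℝ} (hξ : 0 ≤ ξ) :
    ξ - y / kk p y * j p ξ - |ξ| ^ p / p ≤ kam p y := by
  have hp := h.hp
  have hp' := h.hp'
  have hC : 0 < CC p y := by linarith [h.CC_gt, h.hy]
  rw [h.y_div_kk, h.kam_eq]
  refine le_trans ?_ h.Kminus_num
  have habs : |ξ| = ξ := abs_of_nonneg hξ
  have h2 : j p ξ = ξ ^ (p - 1) := by
    unfold j
    rw [habs]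
    rcases eq_or_lt_of_le hξ with h3 | h3
    · rw [← h3, Real.zero_rpow (by linarith : p - 1 ≠ 0)]
      ring
    · rw [← Real.rpow_add_one h3.ne']
      congr 1
      ring
  rw [h2, habs]
  set x0 : ℝ := CC p y ^ (-(1 / (p - 2))) with hx0
  have hx0p : 0 < x0 := Real.rpow_pos_of_pos hC _
  have h3 : CC p y * x0 ^ (p - 1) = x0 := by
    have h4 : x0 ^ (p - 2) = (CC p y)⁻¹ := by
      rw [hx0, ← Real.rpow_mul hC.le]
      have : -(1 / (p - 2)) * (p - 2) = -1 := by
        have : p - 2 ≠ 0 := by linarith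
        field_simp
      rw [this, Real.rpow_neg_one]
    have h5 : x0 ^ (p - 1) = x0 ^ (p - 2) * x0 := by
      rw [← Real.rpow_add_one hx0p.ne']
      congr 1
      ring
    rw [h5, h4]
    field_simp
  have h6 : x0 + (p - 1) * (ξ - x0) ≤ CC p y * ξ ^ (p - 1) := by
    have h7 := one_add_mul_self_le_rpow_one_add (s := ξ / x0 - 1) (p := p - 1) (by
      have : 0 ≤ ξ / x0 := by positivity
      linarith) (by linarith)
    have h8 : 1 + (ξ / x0 - 1) = ξ / x0 := by ring
    rw [h8, Real.div_rpow hξ hx0p.le] at h7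
    have h9 : 0 < x0 ^ (p - 1) := Real.rpow_pos_of_pos hx0p _
    have h10 : x0 * (ξ ^ (p - 1) / x0 ^ (p - 1)) = CC p y * ξ ^ (p - 1) := by
      rw [mul_div_assoc', div_eq_iff h9.ne']
      calc x0 * ξ ^ (p - 1) = (CC p y * x0 ^ (p - 1)) * ξ ^ (p - 1) := by rw [h3]
        _ = _ := by ring
    rw [← h10]
    calc x0 + (p - 1) * (ξ - x0) = x0 * (1 + (p - 1) * (ξ / x0 - 1)) := by
          field_simp
      _ ≤ _ := mul_le_mul_of_nonneg_left h7 hx0p.le
  have h11 : 0 ≤ ξ ^ p / p := div_nonneg (Real.rpow_nonneg hξ _) (by linarith)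
  have hp1 : 0 < p - 1 := by linarith
  have h12 : CC p y / (p - 1) * ξ ^ (p - 1) = (CC p y * ξ ^ (p - 1)) / (p - 1) := by ring
  have h13 : (x0 + (p - 1) * (ξ - x0)) / (p - 1) ≤ (CC p y * ξ ^ (p - 1)) / (p - 1) :=
    div_le_div_of_nonneg_right h6 hp1.le
  have h14 : (x0 + (p - 1) * (ξ - x0)) / (p - 1) = x0 / (p - 1) + (ξ - x0) := by
    field_simp
  have h15 : (p - 2) / (p - 1) * x0 = x0 - x0 / (p - 1) := by
    field_simp
    ring
  rw [h12, h15]
  linarith

end Pool.Agent.H47.NT
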