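import Mathlib
import Pool.Agent.H47.NT.Defs
import Pool.Agent.H47.NT.Iden
import Pool.Agent.H47.NT.Core
import Pool.Agent.H47.NT.Hom

/-!
Lower bound. `p > 2`: apply `Par.core` (`P = r = p.toReal`) to `f, u` and `hom_bound` to
`x = f ± b u` (note `∫ j(f)(f ± b u) = 1 ± δ`): `(k/r)(N₊+N₋) ≤ b M (N₊+N₋)`, so `M ≥ k/(r b) = F`.
`p < 2`: `q = p/(p-1)`; apply `Par.core` with `P = q` to `F₀ = j_r(u)`, `U₀ = j_r(f)`
(`j_q(j_r(x)) = x`, `|j_r(x)|^q = |x|^r`) and `hom_bound` to `x = j_q(F₀ ± b U₀)`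
(`j_r(x) = F₀ ± b U₀`, `|x|^r = |F₀ ± b U₀|^q`), `∫ j_r(x) u = 1 ± δ`.
-/

set_option autoImplicit false

namespace Pool.Agent.H47.NT

open MeasureTheory
open scoped ENNReal

variable {Ω : Type*} [MeasurableSpace Ω] {μ : Measure Ω} {p : ℝ≥0∞} [Fact (1 ≤ p)]

/-- `p > 2`. -/
lemma low_norming (hp : p ≠ ∞) {y : ℝ} (h : Par p.toReal y) (f u : Lp ℝ p μ)
    (g : Lp ℝ p μ →L[ℝ] ℝ) (hf : ‖f‖ = 1) (hu : ‖u‖ = 1) (hg : ‖g‖ = 1) (hgf : g f = 1) {M : ℝ}
    (hM0 : 0 ≤ M)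
    (hM : ∀ (x : Lp ℝ p μ) (h : Lp ℝ p μ →L[ℝ] ℝ), ‖x‖ = 1 → ‖h‖ = 1 → h x = 1 → |g x * h u| ≤ M) :
    F p.toReal y ≤ M := by
  have hr : (2 : ℝ) < p.toReal := h.hp
  have hp1 : 1 < p := by
    rw [← ENNReal.toReal_lt_toReal ENNReal.one_ne_top hp, ENNReal.toReal_one]
    linarith
  obtain ⟨r, hrdef⟩ : ∃ r : ℝ, r = p.toReal := ⟨_, rfl⟩
  have hbd := fun x hx => hom_bound hp1 hp f u g hf hg hgf hM0 hM x hx
  have hfi := NI.Lp_integrable_rpow hp1 hp f
  have hui := NI.Lp_integrable_rpow hp1 hp u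
  have hf1 := NI.Lp_norm_rpow hp1 hp f
  have hu1 := NI.Lp_norm_rpow hp1 hp u
  rw [hf, Real.one_rpow] at hf1
  rw [hu, Real.one_rpow] at hu1
  simp only [Real.norm_eq_abs] at hfi hui hf1 hu1
  rw [← hrdef] at hr h hbd hfi hui hf1 hu1 ⊢
  have hfm : AEStronglyMeasurable (fun ω => f ω) μ := Lp.aestronglyMeasurable f
  have hum : AEStronglyMeasurable (fun ω => u ω) μ := Lp.aestronglyMeasurable u
  set b : ℝ := (1 / ap r y) ^ (1 / r) with hb
  have hap := h.ap_pos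
  have hb0 : 0 < b := by positivity
  set δ : ℝ := b * ∫ ω, j r (f ω) * u ω ∂μ with hδ
  have hcore := h.core hb hfm hum hfi hui hf1.symm hu1.symm hδ
  have htwo := two_le_sum (b := b) (show 1 ≤ r by linarith) hfm hum hfi hui hf1.symm
  have hju : Integrable (fun ω => j r (f ω) * u ω) μ :=
    integrable_j_mul (by linarith) hfm hum hfi hui
  have hjf : Integrable (fun ω => j r (f ω) * f ω) μ :=
    integrable_j_mul (by linarith) hfm hfm hfi hfi
  have hjff : ∫ ω, j r (f ω) * f ω ∂μ = 1 := by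
    rw [hf1]
    refine integral_congr_ae (Filter.Eventually.of_forall fun ω => ?_)
    simp only [j]
    rcases eq_or_ne (f ω) 0 with h0 | h0
    · simp [h0, Real.zero_rpow (show r ≠ 0 by linarith)]
    · have h1 : 0 < |f ω| := abs_pos.2 h0
      have h2 : |f ω| ^ r = |f ω| ^ (r - 2) * |f ω| ^ (2 : ℝ) := by
        rw [← Real.rpow_add h1]; congr 1; ring
      rw [h2, Real.rpow_two, sq_abs]
      ring
  have hplus := hbd (fun ω => f ω + b * u ω) ((Lp.memLp f).add ((Lp.memLp u).const_mul b))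
  have hminus := hbd (fun ω => f ω - b * u ω) ((Lp.memLp f).sub ((Lp.memLp u).const_mul b))
  have e1 : ∫ ω, j r (f ω) * (f ω + b * u ω) ∂μ = 1 + δ := by
    have : (fun ω => j r (f ω) * (f ω + b * u ω))
        = fun ω => j r (f ω) * f ω + b * (j r (f ω) * u ω) := by
      funext ω; ring
    rw [this, integral_add hjf (hju.const_mul b), integral_const_mul, hjff]
  have e2 : ∫ ω, j r (f ω) * (f ω - b * u ω) ∂μ = 1 - δ := by
    have : (fun ω => j r (f ω) * (f ω - b * u ω))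
        = fun ω => j r (f ω) * f ω - b * (j r (f ω) * u ω) := by
      funext ω; ring
    rw [this, integral_sub hjf (hju.const_mul b), integral_const_mul, hjff]
  rw [e1] at hplus
  rw [e2] at hminus
  set Np := ∫ ω, |f ω + b * u ω| ^ r ∂μ
  set Nm := ∫ ω, |f ω - b * u ω| ^ r ∂μ
  have h1 := (le_abs_self _).trans hplus
  have h2 := (neg_le_abs _).trans hminus
  have h3 : kk r y / r * (Np + Nm) ≤ b * M * (Np + Nm) := by
    refine hcore.trans ?_
    rw [mul_assoc]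
    refine mul_le_mul_of_nonneg_left ?_ hb0.le
    rw [mul_add]
    linarith
  have h4 : kk r y / r ≤ b * M := le_of_mul_le_mul_right h3 (by linarith)
  rw [h.F_eq, ← hb, div_le_iff₀ (by positivity)]
  rw [div_le_iff₀ (by linarith)] at h4
  nlinarith [h4]

end Pool.Agent.H47.NT
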