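import Mathlib
import Pool.Agent.H47.NT.Defs
import Pool.Agent.H47.NT.Iden
import Pool.Agent.H47.NT.Core
import Pool.Agent.H47.NT.Hom

/-!
Lower bound for `p < 2`: `q = p/(p-1)`; apply `Par.core` with `P = q` to `F₀ = j_r(u)`,
`U₀ = j_r(f)` (`j_q(j_r(x)) = x`, `|j_r(x)|^q = |x|^r`) and `hom_bound` to `x = j_q(F₀ ± b U₀)`
(`j_r(x) = F₀ ± b U₀`, `|x|^r = |F₀ ± b U₀|^q`), `∫ j_r(x) u = 1 ± δ`, `∫ j_r(f) x = ∫ U₀ j_q(F₀ ± b U₀)`.
-/

set_option autoImplicit false

namespace Pool.Agent.H47.NT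

open MeasureTheory
open scoped ENNReal

lemma j_j {r : ℝ} (hr : 1 < r) (x : ℝ) : j (r / (r - 1)) (j r x) = x := by
  have h := NI.J_J (𝕜 := ℝ) hr x
  rwa [J_eq_j, J_eq_j] at h

lemma abs_j_rpow {r : ℝ} (hr : 1 < r) (x : ℝ) : |j r x| ^ (r / (r - 1)) = |x| ^ r := by
  rw [abs_j hr, ← Real.rpow_mul (abs_nonneg x)]
  congr 1
  have : r - 1 ≠ 0 := by linarith
  field_simp

lemma lowD_j_mul_self {r : ℝ} (hr : 1 < r) (x : ℝ) : j r x * x = |x| ^ r := by
  simp only [j]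
  rcases eq_or_ne x 0 with h0 | h0
  · simp [h0, Real.zero_rpow (show r ≠ 0 by linarith)]
  · have h1 : 0 < |x| := abs_pos.2 h0
    have h2 : |x| ^ r = |x| ^ (r - 2) * |x| ^ (2 : ℝ) := by
      rw [← Real.rpow_add h1]; congr 1; ring
    rw [h2, Real.rpow_two, sq_abs]
    ring

variable {Ω : Type*} [MeasurableSpace Ω] {μ : Measure Ω} {p : ℝ≥0∞} [Fact (1 ≤ p)]

/-- `p < 2`. -/
lemma low_norming_dual (hp1 : 1 < p) (hp : p ≠ ∞) {y : ℝ} (h : Par (p.toReal / (p.toReal - 1)) y)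
    (f u : Lp ℝ p μ) (g : Lp ℝ p μ →L[ℝ] ℝ) (hf : ‖f‖ = 1) (hu : ‖u‖ = 1) (hg : ‖g‖ = 1)
    (hgf : g f = 1) {M : ℝ} (hM0 : 0 ≤ M)
    (hM : ∀ (x : Lp ℝ p μ) (h : Lp ℝ p μ →L[ℝ] ℝ), ‖x‖ = 1 → ‖h‖ = 1 → h x = 1 → |g x * h u| ≤ M) :
    F (p.toReal / (p.toReal - 1)) y ≤ M := by
  have hr : (1 : ℝ) < p.toReal := NI.one_lt_toReal hp1 hp
  obtain ⟨r, hrdef⟩ : ∃ r : ℝ, r = p.toReal := ⟨_, rfl⟩
  have hbd := fun x hx => hom_bound hp1 hp f u g hf hg hgf hM0 hM x hx
  have hfi := NI.Lp_integrable_rpow hp1 hp f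
  have hui := NI.Lp_integrable_rpow hp1 hp u
  have hf1 := NI.Lp_norm_rpow hp1 hp f
  have hu1 := NI.Lp_norm_rpow hp1 hp u
  rw [hf, Real.one_rpow] at hf1
  rw [hu, Real.one_rpow] at hu1
  simp only [Real.norm_eq_abs] at hfi hui hf1 hu1
  have hmemiff : ∀ x : Ω → ℝ, AEStronglyMeasurable x μ →
      Integrable (fun ω => |x ω| ^ p.toReal) μ → MemLp x p μ := by
    intro x hx hxi
    have := (integrable_norm_rpow_iff hx (by positivity) hp).1
      (by simpa only [Real.norm_eq_abs] using hxi)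
    exact this
  rw [← hrdef] at hr h hbd hfi hui hf1 hu1 hmemiff ⊢
  obtain ⟨q, hq⟩ : ∃ q : ℝ, q = r / (r - 1) := ⟨_, rfl⟩
  rw [← hq] at h ⊢
  have hrm : 0 < r - 1 := by linarith
  have hq2 : (2 : ℝ) < q := h.hp
  have hq1 : (1 : ℝ) < q := by linarith
  have hqr : q / (q - 1) = r := by
    rw [hq]; field_simp; ring
  have hfm : AEStronglyMeasurable (fun ω => f ω) μ := Lp.aestronglyMeasurable f
  have hum : AEStronglyMeasurable (fun ω => u ω) μ := Lp.aestronglyMeasurable u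
  have hmj : ∀ {s : ℝ} {x : Ω → ℝ}, AEStronglyMeasurable x μ →
      AEStronglyMeasurable (fun ω => j s (x ω)) μ := fun hx =>
    ((measurable_j _).comp_aemeasurable hx.aemeasurable).aestronglyMeasurable
  have hFm : AEStronglyMeasurable (fun ω => j r (u ω)) μ := hmj hum
  have hUm : AEStronglyMeasurable (fun ω => j r (f ω)) μ := hmj hfm
  have eF : (fun ω => |j r (u ω)| ^ q) = fun ω => |u ω| ^ r := by
    funext ω; rw [hq]; exact abs_j_rpow hr _
  have eU : (fun ω => |j r (f ω)| ^ q) = fun ω => |f ω| ^ r := by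
    funext ω; rw [hq]; exact abs_j_rpow hr _
  have hFi : Integrable (fun ω => |j r (u ω)| ^ q) μ := by rw [eF]; exact hui
  have hUi : Integrable (fun ω => |j r (f ω)| ^ q) μ := by rw [eU]; exact hfi
  have hF1 : ∫ ω, |j r (u ω)| ^ q ∂μ = 1 := by rw [eF]; exact hu1.symm
  have hU1 : ∫ ω, |j r (f ω)| ^ q ∂μ = 1 := by rw [eU]; exact hf1.symm
  set b : ℝ := (1 / ap q y) ^ (1 / q) with hb
  have hap := h.ap_pos
  have hb0 : 0 < b := by positivity
  set δ : ℝ := b * ∫ ω, j q (j r (u ω)) * j r (f ω) ∂μ with hδ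
  have hcore := h.core hb hFm hUm hFi hUi hF1 hU1 hδ
  have htwo := two_le_sum (b := b) (show 1 ≤ q by linarith) hFm hUm hFi hUi hF1
  have hju : Integrable (fun ω => j r (f ω) * u ω) μ :=
    integrable_j_mul (by linarith) hfm hum hfi hui
  have hjuu : Integrable (fun ω => j r (u ω) * u ω) μ :=
    integrable_j_mul (by linarith) hum hum hui hui
  have hjuu1 : ∫ ω, j r (u ω) * u ω ∂μ = 1 := by
    rw [hu1]
    refine integral_congr_ae (Filter.Eventually.of_forall fun ω => ?_)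
    exact lowD_j_mul_self hr _
  have hδ' : δ = b * ∫ ω, j r (f ω) * u ω ∂μ := by
    rw [hδ]
    congr 1
    refine integral_congr_ae (Filter.Eventually.of_forall fun ω => ?_)
    simp only
    rw [hq, j_j hr, mul_comm]
  -- test vectors
  have hjq : ∀ X : ℝ, j r (j q X) = X := by
    intro X
    have := j_j hq1 X
    rwa [hqr] at this
  have hjqabs : ∀ X : ℝ, |j q X| ^ r = |X| ^ q := by
    intro X
    have := abs_j_rpow hq1 X
    rwa [hqr] at this
  have hip : Integrable (fun ω => |j r (u ω) + b * j r (f ω)| ^ q) μ :=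
    integrable_add_rpow (by linarith) hFm hUm hFi hUi b
  have him : Integrable (fun ω => |j r (u ω) - b * j r (f ω)| ^ q) μ := by
    have := integrable_add_rpow (show 1 ≤ q by linarith) hFm hUm hFi hUi (-b)
    simpa only [neg_mul, ← sub_eq_add_neg] using this
  have hplus := hbd (fun ω => j q (j r (u ω) + b * j r (f ω)))
    (hmemiff _ (hmj (hFm.add (hUm.const_mul b))) (by simpa only [hjqabs] using hip))
  have hminus := hbd (fun ω => j q (j r (u ω) - b * j r (f ω)))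
    (hmemiff _ (hmj (hFm.sub (hUm.const_mul b))) (by simpa only [hjqabs] using him))
  simp only [hjqabs, hjq] at hplus hminus
  have e1 : ∫ ω, (j r (u ω) + b * j r (f ω)) * u ω ∂μ = 1 + δ := by
    have : (fun ω => (j r (u ω) + b * j r (f ω)) * u ω)
        = fun ω => j r (u ω) * u ω + b * (j r (f ω) * u ω) := by
      funext ω; ring
    rw [this, integral_add hjuu (hju.const_mul b), integral_const_mul, hjuu1, hδ']
  have e2 : ∫ ω, (j r (u ω) - b * j r (f ω)) * u ω ∂μ = 1 - δ := by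
    have : (fun ω => (j r (u ω) - b * j r (f ω)) * u ω)
        = fun ω => j r (u ω) * u ω - b * (j r (f ω) * u ω) := by
      funext ω; ring
    rw [this, integral_sub hjuu (hju.const_mul b), integral_const_mul, hjuu1, hδ']
  have e3 : ∫ ω, j r (f ω) * j q (j r (u ω) + b * j r (f ω)) ∂μ
      = ∫ ω, j q (j r (u ω) + b * j r (f ω)) * j r (f ω) ∂μ := by
    simp only [mul_comm]
  have e4 : ∫ ω, j r (f ω) * j q (j r (u ω) - b * j r (f ω)) ∂μ
      = ∫ ω, j q (j r (u ω) - b * j r (f ω)) * j r (f ω) ∂μ := by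
    simp only [mul_comm]
  rw [e1, e3] at hplus
  rw [e2, e4] at hminus
  set Np := ∫ ω, |j r (u ω) + b * j r (f ω)| ^ q ∂μ
  set Nm := ∫ ω, |j r (u ω) - b * j r (f ω)| ^ q ∂μ
  have h1 := (le_abs_self _).trans hplus
  have h2 := (neg_le_abs _).trans hminus
  have h3 : kk q y / q * (Np + Nm) ≤ b * M * (Np + Nm) := by
    refine hcore.trans ?_
    rw [mul_assoc]
    refine mul_le_mul_of_nonneg_left ?_ hb0.le
    rw [mul_add]
    linarith
  have h4 : kk q y / q ≤ b * M := le_of_mul_le_mul_right h3 (by linarith)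
  rw [h.F_eq, ← hb, div_le_iff₀ (by positivity)]
  rw [div_le_iff₀ (by linarith)] at h4
  nlinarith [h4]

end Pool.Agent.H47.NT
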