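import Mathlib
import Pool.Agent.H47.NT.Defs
import Pool.Agent.H47.NIOper

/-!
Norm of a combination of three disjoint normalised indicators (see `NI.norm_comb` for two).
-/

set_option autoImplicit false

namespace Pool.Agent.H47.NT

open MeasureTheory
open scoped ENNReal

variable {Ω : Type*} [MeasurableSpace Ω] {μ : Measure Ω} {p : ℝ≥0∞} [Fact (1 ≤ p)]

lemma norm_three (hp1 : 1 < p) (hp : p ≠ ∞) {A : Fin 3 → Set Ω} (hA : ∀ i, MeasurableSet (A i))
    (hdis : Pairwise fun i k => Disjoint (A i) (A k)) (hM : ∀ i, 0 < μ.real (A i))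
    (hμ : ∀ i, μ (A i) ≠ ∞) (a b c : ℝ) :
    ‖a • NI.eA ℝ p (hA 0) (hμ 0) + b • NI.eA ℝ p (hA 1) (hμ 1) + c • NI.eA ℝ p (hA 2) (hμ 2)‖ ^ p.toReal
      = |a| ^ p.toReal + |b| ^ p.toReal + |c| ^ p.toReal := by
  have hr := NI.one_lt_toReal hp1 hp
  obtain ⟨r, hrdef⟩ : ∃ r : ℝ, r = p.toReal := ⟨_, rfl⟩
  have hr0 : 0 < r := by rw [hrdef]; linarith
  rw [NI.Lp_norm_rpow hp1 hp]
  have key : ∀ (M : ℝ) (_ : 0 < M) (γ : ℝ),
      ‖γ * (((M ^ (-(1 / r)) : ℝ)) : ℝ)‖ ^ r = |γ| ^ r * M⁻¹ := by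
    intro M hM γ
    rw [norm_mul, Real.norm_eq_abs, Real.norm_eq_abs, abs_of_pos (a := M ^ (-(1 / r))) (by positivity),
      Real.mul_rpow (abs_nonneg _) (by positivity), ← Real.rpow_mul hM.le]
    congr 1
    have : -(1 / r) * r = -1 := by field_simp
    rw [this, Real.rpow_neg_one]
  have d01 : Disjoint (A 0) (A 1) := hdis (by decide)
  have d02 : Disjoint (A 0) (A 2) := hdis (by decide)
  have d12 : Disjoint (A 1) (A 2) := hdis (by decide)
  have h1 : ∫ ω, ‖(a • NI.eA ℝ p (hA 0) (hμ 0) + b • NI.eA ℝ p (hA 1) (hμ 1) +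
        c • NI.eA ℝ p (hA 2) (hμ 2) : Lp ℝ p μ) ω‖ ^ p.toReal ∂μ
      = ∫ ω, (((A 0).indicator (fun _ => |a| ^ r * (μ.real (A 0))⁻¹) ω
        + (A 1).indicator (fun _ => |b| ^ r * (μ.real (A 1))⁻¹) ω)
        + (A 2).indicator (fun _ => |c| ^ r * (μ.real (A 2))⁻¹) ω) ∂μ := by
    refine integral_congr_ae ?_
    filter_upwards [Lp.coeFn_add (a • NI.eA ℝ p (hA 0) (hμ 0) + b • NI.eA ℝ p (hA 1) (hμ 1))
        (c • NI.eA ℝ p (hA 2) (hμ 2)),
      Lp.coeFn_add (a • NI.eA ℝ p (hA 0) (hμ 0)) (b • NI.eA ℝ p (hA 1) (hμ 1)),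
      Lp.coeFn_smul a (NI.eA ℝ p (hA 0) (hμ 0)), Lp.coeFn_smul b (NI.eA ℝ p (hA 1) (hμ 1)),
      Lp.coeFn_smul c (NI.eA ℝ p (hA 2) (hμ 2)),
      NI.eA_coe (𝕜 := ℝ) (p := p) (hA 0) (hμ 0), NI.eA_coe (𝕜 := ℝ) (p := p) (hA 1) (hμ 1),
      NI.eA_coe (𝕜 := ℝ) (p := p) (hA 2) (hμ 2)] with ω h1 h2 h3 h4 h5 h6 h7 h8
    rw [h1, Pi.add_apply, h2, Pi.add_apply, h3, h4, h5, Pi.smul_apply, Pi.smul_apply, Pi.smul_apply,
      h6, h7, h8, ← hrdef, smul_eq_mul, smul_eq_mul, smul_eq_mul]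
    by_cases hω0 : ω ∈ A 0
    · have hω1 : ω ∉ A 1 := fun h => Set.disjoint_left.1 d01 hω0 h
      have hω2 : ω ∉ A 2 := fun h => Set.disjoint_left.1 d02 hω0 h
      simp only [Set.indicator_of_mem hω0, Set.indicator_of_notMem hω1, Set.indicator_of_notMem hω2,
        mul_zero, add_zero]
      exact key _ (hM 0) a
    · by_cases hω1 : ω ∈ A 1
      · have hω2 : ω ∉ A 2 := fun h => Set.disjoint_left.1 d12 hω1 h
        simp only [Set.indicator_of_notMem hω0, Set.indicator_of_mem hω1, Set.indicator_of_notMem hω2,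
          mul_zero, add_zero, zero_add]
        exact key _ (hM 1) b
      · by_cases hω2 : ω ∈ A 2
        · simp only [Set.indicator_of_notMem hω0, Set.indicator_of_notMem hω1,
            Set.indicator_of_mem hω2, mul_zero, zero_add]
          exact key _ (hM 2) c
        · simp only [Set.indicator_of_notMem hω0, Set.indicator_of_notMem hω1,
            Set.indicator_of_notMem hω2, mul_zero, add_zero, norm_zero]
          exact Real.zero_rpow hr0.ne'
  have hi : ∀ (i : Fin 3) (x : ℝ), Integrable ((A i).indicator fun _ => x) μ := fun i x =>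
    (integrable_indicator_iff (hA i)).2 (integrableOn_const (hμ i))
  have hs : Integrable (fun ω => (A 0).indicator (fun _ => |a| ^ r * (μ.real (A 0))⁻¹) ω
      + (A 1).indicator (fun _ => |b| ^ r * (μ.real (A 1))⁻¹) ω) μ := (hi 0 _).add (hi 1 _)
  rw [h1, integral_add hs (hi 2 _), integral_add (hi 0 _) (hi 1 _),
    integral_indicator (hA 0), integral_indicator (hA 1), integral_indicator (hA 2),
    setIntegral_const, setIntegral_const, setIntegral_const, smul_eq_mul, smul_eq_mul, smul_eq_mul,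
    ← hrdef]
  have m0 := (hM 0).ne'
  have m1 := (hM 1).ne'
  have m2 := (hM 2).ne'
  field_simp

/-- Values of the averaging functionals `NI.phi` on such a combination. -/
lemma phi_three (hp1 : 1 < p) (hp : p ≠ ∞) {A : Fin 3 → Set Ω} (hA : ∀ i, MeasurableSet (A i))
    (hdis : Pairwise fun i k => Disjoint (A i) (A k)) (hM : ∀ i, 0 < μ.real (A i))
    (hμ : ∀ i, μ (A i) ≠ ∞) (a b c : ℝ) (x : Lp ℝ p μ)
    (hx : x = a • NI.eA ℝ p (hA 0) (hμ 0) + b • NI.eA ℝ p (hA 1) (hμ 1) + c • NI.eA ℝ p (hA 2) (hμ 2)) :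
    NI.phi hp1 hp (hM 0) (hμ 0) x = a ∧ NI.phi hp1 hp (hM 1) (hμ 1) x = b ∧
      NI.phi hp1 hp (hM 2) (hμ 2) x = c := by
  have same : ∀ i, NI.phi (𝕜 := ℝ) hp1 hp (hM i) (hμ i) (NI.eA ℝ p (hA i) (hμ i)) = 1 := fun i => by
    rw [NI.phi_apply]
    exact NI.mA_eA hp1 hp (hA i) (hM i) (hμ i)
  have diff : ∀ i k, i ≠ k →
      NI.phi (𝕜 := ℝ) hp1 hp (hM i) (hμ i) (NI.eA ℝ p (hA k) (hμ k)) = 0 := fun i k hik => by
    rw [NI.phi_apply]
    exact NI.mA_eB hp1 hp (hA i) (hA k) (hdis hik) (hμ k)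
  subst hx
  refine ⟨?_, ?_, ?_⟩
  · rw [map_add, map_add, map_smul, map_smul, map_smul, same 0, diff 0 1 (by decide),
      diff 0 2 (by decide)]
    simp
  · rw [map_add, map_add, map_smul, map_smul, map_smul, same 1, diff 1 0 (by decide),
      diff 1 2 (by decide)]
    simp
  · rw [map_add, map_add, map_smul, map_smul, map_smul, same 2, diff 2 0 (by decide),
      diff 2 1 (by decide)]
    simp

end Pool.Agent.H47.NT
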