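import Mathlib

/-!
Rank-one operators of norm one are `x ↦ φ x • u` with `‖φ‖ = ‖u‖ = 1`.
-/

set_option autoImplicit false

namespace Pool.Agent.H47.NT

variable {X : Type*} [NormedAddCommGroup X] [NormedSpace ℝ X]

lemma rank_one_decomp (T : X →L[ℝ] X) (hrank : LinearMap.rank (T : X →ₗ[ℝ] X) = 1)
    (hT : ‖T‖ = 1) : ∃ (φ : X →L[ℝ] ℝ) (u : X), ‖φ‖ = 1 ∧ ‖u‖ = 1 ∧ ∀ x, T x = φ x • u := by
  rw [LinearMap.rank, Module.rank_eq_one_iff_finrank_eq_one, finrank_eq_one_iff'] at hrank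
  obtain ⟨v, hv, hvs⟩ := hrank
  have hv0 : (v : X) ≠ 0 := by
    intro h
    exact hv (Subtype.ext h)
  have hvn : 0 < ‖(v : X)‖ := norm_pos_iff.2 hv0
  obtain ⟨u, hu⟩ : ∃ u : X, u = (‖(v : X)‖⁻¹ : ℝ) • (v : X) := ⟨_, rfl⟩
  have hu1 : ‖u‖ = 1 := by
    rw [hu, norm_smul, Real.norm_of_nonneg (by positivity), inv_mul_cancel₀ hvn.ne']
  have hu0 : u ≠ 0 := by
    intro h; rw [h, norm_zero] at hu1; norm_num at hu1
  obtain ⟨ψ, hψ1, hψu⟩ := exists_dual_vector ℝ u (norm_ne_zero_iff.2 hu0)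
  have hψu' : ψ u = 1 := by
    rw [hψu, hu1]; norm_num
  have hTu : ∀ x, T x = ψ (T x) • u := by
    intro x
    obtain ⟨c, hc⟩ := hvs ⟨T x, LinearMap.mem_range_self _ x⟩
    have hc' : T x = c • (v : X) := by
      have := congrArg Subtype.val hc
      simpa using this.symm
    have hvu : (v : X) = ‖(v : X)‖ • u := by
      rw [hu, smul_smul, mul_inv_cancel₀ hvn.ne', one_smul]
    have h1 : T x = (c * ‖(v : X)‖) • u := by
      rw [hc', mul_smul, ← hvu]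
    rw [h1, map_smul, hψu', smul_eq_mul, mul_one]
  refine ⟨ψ.comp T, u, ?_, hu1, fun x => hTu x⟩
  apply le_antisymm
  · refine ContinuousLinearMap.opNorm_le_bound _ zero_le_one fun x => ?_
    have h1 : ‖(ψ.comp T) x‖ = ‖T x‖ := by
      conv_rhs => rw [hTu x, norm_smul, hu1, mul_one]
      rfl
    rw [h1, ← hT]
    exact T.le_opNorm x
  · rw [← hT]
    refine T.opNorm_le_bound (norm_nonneg _) fun x => ?_
    rw [hTu x, norm_smul, hu1, mul_one]
    exact (ψ.comp T).le_opNorm x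

end Pool.Agent.H47.NT
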