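import Mathlib
import Pool.Agent.H47.NT.Defs
import Pool.Agent.H47.NT.Core
import Pool.Agent.H47.NT.KP

/-!
Set form of the pointwise inequalities. `P ∈ (2,2.1]`, `x₀ = P^(-1/P)`, `A` a set of finite positive
measure `M`, `X` with `|X|^P` integrable on `A`. Write
`mm = M^(-(1-1/P)) ∫_A X`, `nn = M^(-1/P) ∫_A j(X)`. If `ξ + z j(ξ) - |ξ|^P/P ≤ κ` for all real `ξ`
then, with `ξ = X(ω)/(x₀ α M^(-1/P))`, multiplying by `(α M^(-1/P))^P = α^P / M` and integrating over `A`: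
`α^(P-1) mm / x₀ + z α nn / x₀^(P-1) - ∫_A |X|^P ≤ κ α^P` (as `P x₀^P = 1`).
-/

set_option autoImplicit false

namespace Pool.Agent.H47.NT

open MeasureTheory

variable {Ω : Type*} [MeasurableSpace Ω]

/-- `M^(-(1-1/P)) ∫_A X`. -/
noncomputable def mm (P : ℝ) (μ : Measure Ω) (A : Set Ω) (X : Ω → ℝ) : ℝ :=
  μ.real A ^ (-(1 - 1 / P)) * ∫ ω in A, X ω ∂μ

/-- `M^(-1/P) ∫_A j(X)`. -/
noncomputable def nn (P : ℝ) (μ : Measure Ω) (A : Set Ω) (X : Ω → ℝ) : ℝ :=
  μ.real A ^ (-(1 / P)) * ∫ ω in A, j P (X ω) ∂μ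

private lemma abs_j_le {P : ℝ} (hP : 1 < P) (x : ℝ) : |j P x| ≤ 1 + |x| ^ P := by
  unfold j
  have h0 : 0 ≤ |x| ^ P := Real.rpow_nonneg (abs_nonneg _) _
  rw [abs_mul, abs_of_nonneg (Real.rpow_nonneg (abs_nonneg _) _)]
  rcases eq_or_ne x 0 with h | h
  · subst h; simp; positivity
  · have hx : 0 < |x| := abs_pos.2 h
    have h1 : |x| ^ (P - 2) * |x| = |x| ^ (P - 1) := by
      rw [← Real.rpow_add_one hx.ne']; congr 1; ring
    rw [h1]
    rcases le_total |x| 1 with h2 | h2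
    · have := Real.rpow_le_one hx.le h2 (by linarith : (0 : ℝ) ≤ P - 1)
      linarith
    · have := Real.rpow_le_rpow_of_exponent_le h2 (by linarith : P - 1 ≤ P)
      linarith

private lemma abs_le_one_add_rpow {P : ℝ} (hP : 1 < P) (x : ℝ) : |x| ≤ 1 + |x| ^ P := by
  have h0 : 0 ≤ |x| ^ P := Real.rpow_nonneg (abs_nonneg _) _
  rcases le_total |x| 1 with h2 | h2
  · linarith
  · have := Real.rpow_le_rpow_of_exponent_le h2 hP.le
    rw [Real.rpow_one] at this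
    linarith

lemma set_upper {P : ℝ} (hP : 1 < P) {μ : Measure Ω} {A : Set Ω} (hM : 0 < μ.real A)
    {X : Ω → ℝ} (hX : AEStronglyMeasurable X μ) (hXP : Integrable (fun ω => |X ω| ^ P) μ)
    {z κ α : ℝ} (hα : 0 < α) (hpt : ∀ ξ : ℝ, ξ + z * j P ξ - |ξ| ^ P / P ≤ κ) :
    α ^ (P - 1) * mm P μ A X / P ^ (-(1 / P)) + z * α * nn P μ A X / (P ^ (-(1 / P))) ^ (P - 1)
      - ∫ ω in A, |X ω| ^ P ∂μ ≤ κ * α ^ P := by
  have hP0 : 0 < P := by linarith
  have hfin : μ A ≠ ⊤ := by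
    intro h
    rw [Measure.real, h] at hM
    simp at hM
  have : IsFiniteMeasure (μ.restrict A) := ⟨by
    rw [Measure.restrict_apply_univ]; exact lt_top_iff_ne_top.2 hfin⟩
  have hXr : AEStronglyMeasurable X (μ.restrict A) := hX.restrict
  have hPi : Integrable (fun ω => |X ω| ^ P) (μ.restrict A) := hXP.restrict
  have hdom : Integrable (fun ω => 1 + |X ω| ^ P) (μ.restrict A) := (integrable_const 1).add hPi
  have hXi : Integrable X (μ.restrict A) := by
    refine hdom.mono' hXr (Filter.Eventually.of_forall fun ω => ?_)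
    rw [Real.norm_eq_abs]
    exact abs_le_one_add_rpow hP _
  have hji : Integrable (fun ω => j P (X ω)) (μ.restrict A) := by
    refine hdom.mono' ?_ (Filter.Eventually.of_forall fun ω => ?_)
    · exact ((measurable_j P).comp_aemeasurable hXr.aemeasurable).aestronglyMeasurable
    · rw [Real.norm_eq_abs]
      exact abs_j_le hP _
  obtain ⟨M, hMd⟩ : ∃ M : ℝ, M = μ.real A := ⟨_, rfl⟩
  obtain ⟨x0, hx0⟩ : ∃ x0 : ℝ, x0 = P ^ (-(1 / P)) := ⟨_, rfl⟩
  have hM' : 0 < M := hMd ▸ hM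
  have hx0p : 0 < x0 := by rw [hx0]; exact Real.rpow_pos_of_pos hP0 _
  obtain ⟨s, hs⟩ : ∃ s : ℝ, s = x0 * α * M ^ (-(1 / P)) := ⟨_, rfl⟩
  have hMp : 0 < M ^ (-(1 / P)) := Real.rpow_pos_of_pos hM' _
  have hsp : 0 < s := by rw [hs]; positivity
  -- the pointwise inequality multiplied
  have hpt' : ∀ ω, (α ^ P / M) * (X ω / s + z * (s ^ (P - 1))⁻¹ * j P (X ω) - (s ^ P)⁻¹ * |X ω| ^ P / P)
      ≤ (α ^ P / M) * κ := by
    intro ω
    refine mul_le_mul_of_nonneg_left ?_ (by positivity)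
    have h1 := hpt (X ω / s)
    have h2 : j P (X ω / s) = (s ^ (P - 1))⁻¹ * j P (X ω) := by
      unfold j
      rw [abs_div, abs_of_pos hsp, Real.div_rpow (abs_nonneg _) hsp.le]
      have h3 : s ^ (P - 1) = s ^ (P - 2) * s := by
        rw [← Real.rpow_add_one hsp.ne']; congr 1; ring
      rw [h3]
      field_simp
    have h4 : |X ω / s| ^ P = (s ^ P)⁻¹ * |X ω| ^ P := by
      rw [abs_div, abs_of_pos hsp, Real.div_rpow (abs_nonneg _) hsp.le]
      field_simp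
    rw [h2, h4] at h1
    linarith
  have hint : ∫ ω in A, (α ^ P / M) * (X ω / s + z * (s ^ (P - 1))⁻¹ * j P (X ω)
      - (s ^ P)⁻¹ * |X ω| ^ P / P) ∂μ ≤ ∫ ω in A, (α ^ P / M) * κ ∂μ := by
    refine integral_mono ?_ (integrable_const _) hpt'
    refine Integrable.const_mul ?_ _
    refine ((hXi.div_const s).add (hji.const_mul _)).sub ?_
    exact (hPi.const_mul _).div_const _
  have hI1 : Integrable (fun ω => X ω / s) (μ.restrict A) := hXi.div_const s
  have hI2 : Integrable (fun ω => z * (s ^ (P - 1))⁻¹ * j P (X ω)) (μ.restrict A) :=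
    hji.const_mul _
  have hI3 : Integrable (fun ω => (s ^ P)⁻¹ * |X ω| ^ P / P) (μ.restrict A) :=
    (hPi.const_mul _).div_const _
  have hI12 : Integrable (fun ω => X ω / s + z * (s ^ (P - 1))⁻¹ * j P (X ω)) (μ.restrict A) :=
    hI1.add hI2
  rw [integral_const_mul, integral_sub hI12 hI3, integral_add hI1 hI2,
    integral_div, integral_const_mul, integral_div, integral_const_mul, integral_const] at hint
  have e1 : (μ.restrict A).real Set.univ = M := by
    rw [hMd, Measure.real, Measure.real, Measure.restrict_apply_univ]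
  rw [e1, smul_eq_mul] at hint
  -- powers
  have hsP : s ^ P = P⁻¹ * α ^ P * M⁻¹ := by
    rw [hs, Real.mul_rpow (by positivity) hMp.le, Real.mul_rpow hx0p.le hα.le, hx0,
      ← Real.rpow_mul hP0.le, ← Real.rpow_mul hM'.le]
    have h1 : -(1 / P) * P = -1 := by field_simp
    rw [h1, Real.rpow_neg_one, Real.rpow_neg_one]
  have hsP1 : s ^ (P - 1) = x0 ^ (P - 1) * α ^ (P - 1) * (M⁻¹ * M ^ (1 / P)) := by
    rw [hs, Real.mul_rpow (by positivity) hMp.le, Real.mul_rpow hx0p.le hα.le]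
    congr 1
    rw [← Real.rpow_mul hM'.le]
    have h1 : -(1 / P) * (P - 1) = -1 + 1 / P := by field_simp; ring
    rw [h1, Real.rpow_add hM', Real.rpow_neg_one]
  have hαP : α ^ P = α ^ (P - 1) * α := by
    rw [← Real.rpow_add_one hα.ne']; congr 1; ring
  have hMq : M ^ (-(1 - 1 / P)) = M⁻¹ * M ^ (1 / P) := by
    rw [← Real.rpow_neg_one, ← Real.rpow_add hM']; congr 1; ring
  have hMn : M ^ (-(1 / P)) = (M ^ (1 / P))⁻¹ := Real.rpow_neg hM'.le _
  have hMr : 0 < M ^ (1 / P) := Real.rpow_pos_of_pos hM' _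
  have hαq : 0 < α ^ (P - 1) := Real.rpow_pos_of_pos hα _
  have hxq : 0 < x0 ^ (P - 1) := Real.rpow_pos_of_pos hx0p _
  have goal_eq : α ^ (P - 1) * mm P μ A X / x0 + z * α * nn P μ A X / x0 ^ (P - 1)
      - ∫ ω in A, |X ω| ^ P ∂μ = (α ^ P / M) * ((∫ ω in A, X ω ∂μ) / s
        + z * (s ^ (P - 1))⁻¹ * (∫ ω in A, j P (X ω) ∂μ)
        - (s ^ P)⁻¹ * (∫ ω in A, |X ω| ^ P ∂μ) / P) := by
    rw [hsP, hsP1, hs, mm, nn, ← hMd, hMq, hMn, hαP]
    field_simp
  rw [← hx0, goal_eq]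
  refine hint.trans (le_of_eq ?_)
  field_simp

end Pool.Agent.H47.NT
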