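import Mathlib
import Pool.Agent.H47.NT.Defs
import Pool.Agent.H47.NT.Iden
import Pool.Agent.H47.NT.KP
import Pool.Agent.H47.NT.KM
import Pool.Agent.H47.NT.SetU

/-!
Upper bound on three sets: with `x0 = P^(-1/P)`, `a` = first factor, `B` = second factor. Use
`set_upper` on `A 0` (`z = 0`, `κ = 1 - 1/P`, `α = (1-m)^(1/P)`), on `A 1` (`z = y/k`, `κ = kap`,
`α = (m/2)^(1/P)`), on `A 2` (`z = -y/k`, `κ = kam`), sum up, `∑ ∫_{A i} |X|^P ≤ 1`, `Par.Ksum`: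
`a/x0 + (y/k) (m/2)^(1/P) (nn₁ - nn₂)/x0^(P-1) ≤ 2`, and `(m/2)^(1/P) (nn₁ - nn₂) = m^(1/P) B`.
The same with `A 1`, `A 2` exchanged, and with `X` replaced by `-X`: so
`|a|/x0 + (y m^(1/P)/k) |B| / x0^(P-1) ≤ 2`, hence (AM-GM) `|a| |B| ≤ k x0^P/(y m^(1/P)) = F`
(`Par.F_eq`, `1/a^P = m y^P`).
-/

set_option autoImplicit false

namespace Pool.Agent.H47.NT

open MeasureTheory

variable {Ω : Type*} [MeasurableSpace Ω]

private lemma mm_neg (P : ℝ) (μ : Measure Ω) (A : Set Ω) (X : Ω → ℝ) :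
    mm P μ A (fun ω => -X ω) = -mm P μ A X := by
  unfold mm
  rw [integral_neg]
  ring

private lemma nn_neg (P : ℝ) (μ : Measure Ω) (A : Set Ω) (X : Ω → ℝ) :
    nn P μ A (fun ω => -X ω) = -nn P μ A X := by
  unfold nn
  have h : (fun ω => j P (-X ω)) = fun ω => -j P (X ω) := by
    funext ω
    unfold j
    rw [abs_neg]
    ring
  rw [h, integral_neg]
  ring

private lemma three_int {P : ℝ} {μ : Measure Ω} {S0 S1 S2 : Set Ω}
    (h1 : MeasurableSet S1) (h2 : MeasurableSet S2)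
    (h01 : Disjoint S0 S1) (h02 : Disjoint S0 S2) (h12 : Disjoint S1 S2) {X : Ω → ℝ}
    (hXP : Integrable (fun ω => |X ω| ^ P) μ) (hX1 : ∫ ω, |X ω| ^ P ∂μ ≤ 1) :
    ∫ ω in S0, |X ω| ^ P ∂μ + ∫ ω in S1, |X ω| ^ P ∂μ + ∫ ω in S2, |X ω| ^ P ∂μ ≤ 1 := by
  have e1 : ∫ ω in S0 ∪ S1, |X ω| ^ P ∂μ = ∫ ω in S0, |X ω| ^ P ∂μ + ∫ ω in S1, |X ω| ^ P ∂μ :=
    setIntegral_union h01 h1 hXP.integrableOn hXP.integrableOn
  have e2 : ∫ ω in (S0 ∪ S1) ∪ S2, |X ω| ^ P ∂μ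
      = ∫ ω in S0 ∪ S1, |X ω| ^ P ∂μ + ∫ ω in S2, |X ω| ^ P ∂μ :=
    setIntegral_union (Disjoint.union_left h02 h12) h2 hXP.integrableOn hXP.integrableOn
  have e3 : ∫ ω in (S0 ∪ S1) ∪ S2, |X ω| ^ P ∂μ ≤ ∫ ω, |X ω| ^ P ∂μ :=
    setIntegral_le_integral hXP
      (Filter.Eventually.of_forall fun ω => Real.rpow_nonneg (abs_nonneg _) _)
  linarith

/-- One-sided bound. -/
private lemma one_sided {P y : ℝ} (h : Par P y) {μ : Measure Ω} {S0 S1 S2 : Set Ω}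
    (h1 : MeasurableSet S1) (h2 : MeasurableSet S2)
    (h01 : Disjoint S0 S1) (h02 : Disjoint S0 S2) (h12 : Disjoint S1 S2)
    (hM0 : 0 < μ.real S0) (hM1 : 0 < μ.real S1) (hM2 : 0 < μ.real S2)
    {X : Ω → ℝ} (hX : AEStronglyMeasurable X μ)
    (hXP : Integrable (fun ω => |X ω| ^ P) μ) (hX1 : ∫ ω, |X ω| ^ P ∂μ ≤ 1) {m : ℝ}
    (hm : m = 2 * (P - 1) / RR P y) :
    (((1 - m) ^ (1 / P)) ^ (P - 1) * mm P μ S0 X
        + ((m / 2) ^ (1 / P)) ^ (P - 1) * (mm P μ S1 X + mm P μ S2 X)) / P ^ (-(1 / P))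
      + y * m ^ (1 / P) / kk P y * ((1 / 2 : ℝ) ^ (1 / P) * (nn P μ S1 X - nn P μ S2 X))
        / (P ^ (-(1 / P))) ^ (P - 1) ≤ 2 := by
  have hP1 : 1 < P := by linarith [h.hp]
  have hP0 : 0 < P := by linarith
  obtain ⟨hm0, hm1⟩ := h.m_mem
  rw [← hm] at hm0 hm1
  have hα0 : 0 < (1 - m) ^ (1 / P) := Real.rpow_pos_of_pos (by linarith) _
  have hα1 : 0 < (m / 2) ^ (1 / P) := Real.rpow_pos_of_pos (by linarith) _
  have hα0P : ((1 - m) ^ (1 / P)) ^ P = 1 - m := by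
    rw [← Real.rpow_mul (by linarith), one_div_mul_cancel hP0.ne', Real.rpow_one]
  have hα1P : ((m / 2) ^ (1 / P)) ^ P = m / 2 := by
    rw [← Real.rpow_mul (by linarith), one_div_mul_cancel hP0.ne', Real.rpow_one]
  have a0 := set_upper hP1 hM0 hX hXP (z := 0) (κ := 1 - 1 / P) hα0 (fun ξ => by
    have := K0 hP1 ξ
    linarith)
  have a1 := set_upper hP1 hM1 hX hXP (z := y / kk P y) (κ := kap P y) hα1 h.Kplus
  have a2 := set_upper hP1 hM2 hX hXP (z := -(y / kk P y)) (κ := kam P y) hα1 (fun ξ => by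
    rcases le_total ξ 0 with hξ | hξ
    · have := h.Kminus_neg hξ
      linarith
    · have := h.Kminus_pos hξ
      linarith)
  have hI := three_int h1 h2 h01 h02 h12 hXP hX1
  have hK := h.Ksum
  have hm2 : (P - 1) / RR P y = m / 2 := by rw [hm]; ring
  rw [← hm, hm2] at hK
  rw [hα0P] at a0
  rw [hα1P] at a1 a2
  have hmm : (m / 2) ^ (1 / P) = m ^ (1 / P) * (1 / 2 : ℝ) ^ (1 / P) := by
    rw [← Real.mul_rpow hm0.le (by norm_num)]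
    congr 1
    ring
  have e : y * m ^ (1 / P) / kk P y * ((1 / 2 : ℝ) ^ (1 / P) * (nn P μ S1 X - nn P μ S2 X))
        / (P ^ (-(1 / P))) ^ (P - 1)
      = y / kk P y * (m / 2) ^ (1 / P) * nn P μ S1 X / (P ^ (-(1 / P))) ^ (P - 1)
        + -(y / kk P y) * (m / 2) ^ (1 / P) * nn P μ S2 X / (P ^ (-(1 / P))) ^ (P - 1) := by
    rw [hmm]
    ring
  have e' : (((1 - m) ^ (1 / P)) ^ (P - 1) * mm P μ S0 X
        + ((m / 2) ^ (1 / P)) ^ (P - 1) * (mm P μ S1 X + mm P μ S2 X)) / P ^ (-(1 / P))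
      = ((1 - m) ^ (1 / P)) ^ (P - 1) * mm P μ S0 X / P ^ (-(1 / P))
        + ((m / 2) ^ (1 / P)) ^ (P - 1) * mm P μ S1 X / P ^ (-(1 / P))
        + ((m / 2) ^ (1 / P)) ^ (P - 1) * mm P μ S2 X / P ^ (-(1 / P)) := by
    ring
  rw [e, e']
  have a0' : ((1 - m) ^ (1 / P)) ^ (P - 1) * mm P μ S0 X / P ^ (-(1 / P))
      - ∫ ω in S0, |X ω| ^ P ∂μ ≤ (1 - 1 / P) * (1 - m) := by
    have : (0 : ℝ) * (1 - m) ^ (1 / P) * nn P μ S0 X / (P ^ (-(1 / P))) ^ (P - 1) = 0 := by ring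
    rw [this] at a0
    linarith
  linarith

/-- Upper bound on three sets. `m = 2(P-1)/RR`, `α₀ = (1-m)^(1/P)`, `α₁ = (m/2)^(1/P)`. -/
lemma Par.upper_core {P y : ℝ} (h : Par P y) {μ : Measure Ω} {A : Fin 3 → Set Ω}
    (hA : ∀ i, MeasurableSet (A i)) (hdis : Pairwise fun i k => Disjoint (A i) (A k))
    (hM : ∀ i, 0 < μ.real (A i)) {X : Ω → ℝ} (hX : AEStronglyMeasurable X μ)
    (hXP : Integrable (fun ω => |X ω| ^ P) μ) (hX1 : ∫ ω, |X ω| ^ P ∂μ ≤ 1) {m : ℝ}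
    (hm : m = 2 * (P - 1) / RR P y) :
    |(((1 - m) ^ (1 / P)) ^ (P - 1) * mm P μ (A 0) X
        + ((m / 2) ^ (1 / P)) ^ (P - 1) * (mm P μ (A 1) X + mm P μ (A 2) X))
      * ((1 / 2 : ℝ) ^ (1 / P) * (nn P μ (A 1) X - nn P μ (A 2) X))| ≤ F P y := by
  have hP1 : 1 < P := by linarith [h.hp]
  have hP0 : 0 < P := by linarith
  have hy : 0 < y := by linarith [h.hy]
  have hk := h.kk_pos
  have hR := h.RR_pos
  obtain ⟨hm0, hm1⟩ := h.m_mem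
  rw [← hm] at hm0 hm1
  have d01 : Disjoint (A 0) (A 1) := hdis (by decide)
  have d02 : Disjoint (A 0) (A 2) := hdis (by decide)
  have d12 : Disjoint (A 1) (A 2) := hdis (by decide)
  have hXn : AEStronglyMeasurable (fun ω => -X ω) μ := hX.neg
  have habs : (fun ω => |(-X ω)| ^ P) = fun ω => |X ω| ^ P := by
    funext ω
    rw [abs_neg]
  have hXPn : Integrable (fun ω => |(-X ω)| ^ P) μ := by rw [habs]; exact hXP
  have hX1n : ∫ ω, |(-X ω)| ^ P ∂μ ≤ 1 := by rw [habs]; exact hX1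
  have b1 := one_sided h (hA 1) (hA 2) d01 d02 d12 (hM 0) (hM 1) (hM 2) hX hXP hX1 hm
  have b2 := one_sided h (hA 2) (hA 1) d02 d01 d12.symm (hM 0) (hM 2) (hM 1) hX hXP hX1 hm
  have b3 := one_sided h (hA 1) (hA 2) d01 d02 d12 (hM 0) (hM 1) (hM 2) hXn hXPn hX1n hm
  have b4 := one_sided h (hA 2) (hA 1) d02 d01 d12.symm (hM 0) (hM 2) (hM 1)
    hXn hXPn hX1n hm
  simp only [mm_neg, nn_neg] at b3 b4
  obtain ⟨a, ha⟩ : ∃ a : ℝ, a = ((1 - m) ^ (1 / P)) ^ (P - 1) * mm P μ (A 0) X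
        + ((m / 2) ^ (1 / P)) ^ (P - 1) * (mm P μ (A 1) X + mm P μ (A 2) X) := ⟨_, rfl⟩
  obtain ⟨B, hB⟩ : ∃ B : ℝ, B = (1 / 2 : ℝ) ^ (1 / P) * (nn P μ (A 1) X - nn P μ (A 2) X) :=
    ⟨_, rfl⟩
  obtain ⟨x0, hx0⟩ : ∃ x0 : ℝ, x0 = P ^ (-(1 / P)) := ⟨_, rfl⟩
  have hx0p : 0 < x0 := by rw [hx0]; exact Real.rpow_pos_of_pos hP0 _
  have hmp : 0 < m ^ (1 / P) := Real.rpow_pos_of_pos hm0 _
  obtain ⟨c, hc⟩ : ∃ c : ℝ, c = y * m ^ (1 / P) / kk P y := ⟨_, rfl⟩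
  have hcp : 0 < c := by rw [hc]; positivity
  have hxq : 0 < x0 ^ (P - 1) := Real.rpow_pos_of_pos hx0p _
  rw [← ha, ← hB, ← hx0, ← hc] at b1
  have b2' : a / x0 - c * B / x0 ^ (P - 1) ≤ 2 := by
    rw [ha, hB, hc, hx0]
    refine le_trans (le_of_eq ?_) b2
    ring
  have b3' : -(a / x0) - c * B / x0 ^ (P - 1) ≤ 2 := by
    rw [ha, hB, hc, hx0]
    refine le_trans (le_of_eq ?_) b3
    ring
  have b4' : -(a / x0) + c * B / x0 ^ (P - 1) ≤ 2 := by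
    rw [ha, hB, hc, hx0]
    refine le_trans (le_of_eq ?_) b4
    ring
  rw [← ha, ← hB]
  obtain ⟨u, hu⟩ : ∃ u : ℝ, u = a / x0 := ⟨_, rfl⟩
  obtain ⟨v, hv⟩ : ∃ v : ℝ, v = c * B / x0 ^ (P - 1) := ⟨_, rfl⟩
  rw [← hu, ← hv] at b1 b2' b3' b4'
  have huv : |u| + |v| ≤ 2 := by
    rcases abs_cases u with ⟨hu1, _⟩ | ⟨hu1, _⟩ <;> rcases abs_cases v with ⟨hv1, _⟩ | ⟨hv1, _⟩ <;>
      rw [hu1, hv1] <;> linarith
  have huv1 : |u| * |v| ≤ 1 := by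
    nlinarith [sq_nonneg (|u| - |v|), abs_nonneg u, abs_nonneg v]
  -- x0 ^ P = 1 / P
  have hxP : x0 ^ (P - 1) * x0 = 1 / P := by
    rw [← Real.rpow_add_one hx0p.ne']
    have e1 : P - 1 + 1 = P := by ring
    rw [e1, hx0, ← Real.rpow_mul hP0.le]
    have e2 : -(1 / P) * P = -1 := by field_simp
    rw [e2, Real.rpow_neg_one, one_div]
  have haB : a * B = u * v * (1 / (P * c)) := by
    have : u * v = a * B * (c / (x0 ^ (P - 1) * x0)) := by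
      rw [hu, hv]
      field_simp
    rw [this, hxP]
    field_simp
  have hF : F P y = 1 / (P * c) := by
    have e1 : 1 / ap P y = m * y ^ P := by
      unfold ap
      rw [hm]
      have hp1 : P - 1 ≠ 0 := by linarith
      have hyP : y ^ P ≠ 0 := (Real.rpow_pos_of_pos hy _).ne'
      field_simp
    rw [h.F_eq, e1, Real.mul_rpow hm0.le (Real.rpow_nonneg hy.le _), ← Real.rpow_mul hy.le,
      mul_one_div_cancel hP0.ne', Real.rpow_one, hc]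
    field_simp
  rw [hF, haB, abs_mul, abs_mul, abs_of_pos (show 0 < 1 / (P * c) by positivity)]
  calc |u| * |v| * (1 / (P * c)) ≤ 1 * (1 / (P * c)) :=
        mul_le_mul_of_nonneg_right huv1 (by positivity)
    _ = 1 / (P * c) := one_mul _

end Pool.Agent.H47.NT
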