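import Mathlib
import Pool.Agent.H47.NT.Defs
import Pool.Agent.H47.NT.Smooth
import Pool.Agent.H47.NINorming

/-!
Norming functionals are dense: for `φ ∈ (L_p)^*` with `‖φ‖ = 1` and `η > 0` there are `f` and `g`
with `‖f‖ = ‖g‖ = g f = 1` and `‖φ - g‖ ≤ η` (real `L_p`, `1 < p ≤ 3`).
Pointwise: `|a + t b|^p ≤ |a|^p + p t j(a) b + C t^s (|a|^p + |b|^p)` for `0 ≤ t ≤ 1`, `s = min(p,2)`.
 By homogeneity `a = 1`, `u = t b`. `1 < p ≤ 2`: if `u ≥ -1`, `|u| ≤ 1`: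
 `(1+u)^p = (1+u)(1+u)^(p-1) ≤ (1+u)(1+(p-1)u) = 1 + p u + (p-1) u^2 ≤ 1 + p u + |u|^p`; if `|u| ≥ 1`
 everything is `≤ 10 |u|^p` and `|t b|^p ≤ t^p |b|^p`.
 `2 ≤ p ≤ 3`: `(1+u)^p ≤ (1+u)(1+(p-1)u+(p-2)u^2)` (previous case for `p-1`), so the error is
 `≤ C (u^2 + |u|^p)`, and `a^(p-2) (t b)^2 ≤ t^2 (|a|^p + |b|^p)`.
Then: choose `f`, `‖f‖ = 1`, `φ f ≥ 1 - τ`, `g` a norming functional of `f` (`norming_eq`:
`g h = ∫ j(f) h`). For `‖h‖ ≤ 1`: `φ(f + t h) ≤ ‖f + t h‖ ≤ 1 + t g(h) + (2C/p) t^s` (Bernoulli),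
so `φ h - g h ≤ τ/t + (2C/p) t^(s-1)`.
-/

set_option autoImplicit false

namespace Pool.Agent.H47.NT

open MeasureTheory
open scoped ENNReal

variable {Ω : Type*} [MeasurableSpace Ω] {μ : Measure Ω} {p : ℝ≥0∞} [Fact (1 ≤ p)]

lemma smooth_norm (hp1 : 1 < p) (hp : p ≠ ∞) (hp3 : p.toReal ≤ 3) : ∃ C s : ℝ, 0 < C ∧ 1 < s ∧
    ∀ (f h : Lp ℝ p μ) (g : Lp ℝ p μ →L[ℝ] ℝ), ‖f‖ = 1 → ‖g‖ = 1 → g f = 1 → ‖h‖ ≤ 1 →
    ∀ t : ℝ, 0 ≤ t → t ≤ 1 → ‖f + t • h‖ ≤ 1 + t * g h + C * t ^ s := by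
  have hr := NI.one_lt_toReal hp1 hp
  obtain ⟨C, s, hC, hs, hpt⟩ := smooth_pt hr hp3
  refine ⟨2 * C / p.toReal, s, by positivity, hs, ?_⟩
  intro f h g hf hg hgf hh t ht0 ht1
  obtain ⟨r, hrdef⟩ : ∃ r : ℝ, r = p.toReal := ⟨_, rfl⟩
  have hgh := NI.norming_eq hp1 hp f g hf hg hgf h
  have hjint := (NI.Lp_hasDerivAt hp1 hp f h).1
  have hfi := NI.Lp_integrable_rpow hp1 hp f
  have hhi := NI.Lp_integrable_rpow hp1 hp h
  have hf1 := NI.Lp_norm_rpow hp1 hp f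
  have hh1 := NI.Lp_norm_rpow hp1 hp h
  have hsum := NI.Lp_norm_rpow hp1 hp (f + t • h)
  have hsi := NI.Lp_integrable_rpow hp1 hp (f + t • h)
  rw [hf, Real.one_rpow] at hf1
  simp only [Real.norm_eq_abs, J_eq_j] at hfi hhi hf1 hh1 hsum hsi hgh hjint
  rw [← hrdef] at hr hpt hfi hhi hf1 hh1 hsum hsi hgh hjint ⊢
  have hr0 : 0 < r := by linarith
  have hts : 0 ≤ t ^ s := Real.rpow_nonneg ht0 _
  have hh2 : ∫ ω, |h ω| ^ r ∂μ ≤ 1 := by
    rw [← hh1]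
    exact Real.rpow_le_one (norm_nonneg _) hh hr0.le
  -- integrated inequality
  have hint : ‖f + t • h‖ ^ r ≤ 1 + r * t * g h + 2 * C * t ^ s := by
    rw [hsum]
    have hcoe : ∀ᵐ ω ∂μ, |(f + t • h : Lp ℝ p μ) ω| ^ r
        ≤ |f ω| ^ r + r * t * (j r (f ω) * h ω) + C * t ^ s * (|f ω| ^ r + |h ω| ^ r) := by
      filter_upwards [Lp.coeFn_add f (t • h), Lp.coeFn_smul t h] with ω h1 h2
      rw [h1, Pi.add_apply, h2, Pi.smul_apply, smul_eq_mul]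
      exact hpt (f ω) (h ω) t ht0 ht1
    have i1 : Integrable (fun ω => |f ω| ^ r + r * t * (j r (f ω) * h ω)) μ :=
      hfi.add (hjint.const_mul (r * t))
    have i2 : Integrable (fun ω => C * t ^ s * (|f ω| ^ r + |h ω| ^ r)) μ :=
      (hfi.add hhi).const_mul (C * t ^ s)
    refine (integral_mono_ae hsi (i1.add i2) hcoe).trans ?_
    simp only [Pi.add_apply]
    rw [integral_add i1 i2, integral_add hfi (hjint.const_mul (r * t)), integral_const_mul,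
      integral_const_mul, integral_add hfi hhi, ← hf1, ← hgh]
    have : C * t ^ s * (1 + ∫ ω, |h ω| ^ r ∂μ) ≤ 2 * C * t ^ s := by
      have h0 : 0 ≤ C * t ^ s := by positivity
      nlinarith
    linarith
  -- Bernoulli
  obtain ⟨v, hv⟩ : ∃ v : ℝ, v = t * g h + 2 * C / r * t ^ s := ⟨_, rfl⟩
  have hgle : |g h| ≤ 1 := by
    have := g.le_opNorm h
    rw [hg, one_mul, Real.norm_eq_abs] at this
    exact this.trans hh
  have hv1 : -1 ≤ v := by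
    have h1 : -1 ≤ t * g h := by
      have := (abs_le.1 hgle).1
      nlinarith
    have h2 : 0 ≤ 2 * C / r * t ^ s := by positivity
    linarith
  have hbern : 1 + r * v ≤ (1 + v) ^ r := one_add_mul_self_le_rpow_one_add hv1 hr.le
  have hrv : 1 + r * v = 1 + r * t * g h + 2 * C * t ^ s := by
    rw [hv]; field_simp; ring
  have hle : ‖f + t • h‖ ^ r ≤ (1 + v) ^ r := by linarith
  have hfin : ‖f + t • h‖ ≤ 1 + v :=
    (Real.rpow_le_rpow_iff (norm_nonneg _) (by linarith) hr0).1 hle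
  rw [hv] at hfin
  linarith

lemma approx_norming (hp1 : 1 < p) (hp : p ≠ ∞) (hp3 : p.toReal ≤ 3) (φ : Lp ℝ p μ →L[ℝ] ℝ)
    (hφ : ‖φ‖ = 1) {η : ℝ} (hη : 0 < η) :
    ∃ (f : Lp ℝ p μ) (g : Lp ℝ p μ →L[ℝ] ℝ), ‖f‖ = 1 ∧ ‖g‖ = 1 ∧ g f = 1 ∧ ‖φ - g‖ ≤ η := by
  obtain ⟨C, s, hC, hs, hsm⟩ := smooth_norm (μ := μ) hp1 hp hp3
  -- choose t with C t^(s-1) ≤ η/2
  obtain ⟨t, ht⟩ : ∃ t : ℝ, t = min 1 ((η / (2 * C)) ^ (1 / (s - 1))) := ⟨_, rfl⟩
  have hs1 : 0 < s - 1 := by linarith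
  have hbase : 0 < η / (2 * C) := by positivity
  have ht0 : 0 < t := by rw [ht]; exact lt_min one_pos (Real.rpow_pos_of_pos hbase _)
  have ht1 : t ≤ 1 := by rw [ht]; exact min_le_left _ _
  have hts : C * t ^ (s - 1) ≤ η / 2 := by
    have h1 : t ^ (s - 1) ≤ ((η / (2 * C)) ^ (1 / (s - 1))) ^ (s - 1) :=
      Real.rpow_le_rpow ht0.le (by rw [ht]; exact min_le_right _ _) hs1.le
    rw [← Real.rpow_mul hbase.le, one_div_mul_cancel hs1.ne', Real.rpow_one] at h1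
    calc C * t ^ (s - 1) ≤ C * (η / (2 * C)) := mul_le_mul_of_nonneg_left h1 hC.le
      _ = η / 2 := by field_simp
  obtain ⟨τ, hτ⟩ : ∃ τ : ℝ, τ = min (1 / 2) (t * η / 2) := ⟨_, rfl⟩
  have hτ0 : 0 < τ := by rw [hτ]; exact lt_min (by norm_num) (by positivity)
  have hτ1 : τ ≤ 1 / 2 := by rw [hτ]; exact min_le_left _ _
  have hτ2 : τ / t ≤ η / 2 := by
    rw [div_le_iff₀ ht0]
    have : τ ≤ t * η / 2 := by rw [hτ]; exact min_le_right _ _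
    linarith
  -- almost norming vector
  obtain ⟨x, hx⟩ : ∃ x : Lp ℝ p μ, (1 - τ) * ‖x‖ < φ x ∧ x ≠ 0 := by
    by_contra hcon
    push Not at hcon
    have h1 : ‖φ‖ ≤ 1 - τ := by
      refine φ.opNorm_le_bound (by linarith) fun x => ?_
      rw [Real.norm_eq_abs, abs_le]
      rcases eq_or_ne x 0 with h0 | h0
      · subst h0; simp
      · constructor
        · have h2 : ¬ ((1 - τ) * ‖-x‖ < φ (-x)) := fun h3 => (neg_ne_zero.2 h0) (hcon (-x) h3)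
          rw [norm_neg, map_neg] at h2
          linarith
        · by_contra h3
          push Not at h3
          exact h0 (hcon x h3)
    rw [hφ] at h1
    linarith
  obtain ⟨hx1, hx0⟩ := hx
  have hxn : 0 < ‖x‖ := norm_pos_iff.2 hx0
  obtain ⟨f, hf⟩ : ∃ f : Lp ℝ p μ, f = (‖x‖⁻¹ : ℝ) • x := ⟨_, rfl⟩
  have hf1 : ‖f‖ = 1 := by
    rw [hf, norm_smul, Real.norm_of_nonneg (by positivity), inv_mul_cancel₀ hxn.ne']
  have hφf : 1 - τ ≤ φ f := by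
    rw [hf, map_smul, smul_eq_mul, inv_mul_eq_div, le_div_iff₀ hxn]
    exact hx1.le
  obtain ⟨g, hg1, hgf⟩ := exists_dual_vector ℝ f (by rw [hf1]; norm_num)
  have hgf' : g f = 1 := by rw [hgf, hf1]; norm_num
  refine ⟨f, g, hf1, hg1, hgf', ?_⟩
  have hkey : ∀ h : Lp ℝ p μ, ‖h‖ ≤ 1 → φ h - g h ≤ η := by
    intro h hh
    have h1 := hsm f h g hf1 hg1 hgf' hh t ht0.le ht1
    have h2 : φ (f + t • h) ≤ ‖f + t • h‖ := by
      have := (le_abs_self _).trans (φ.le_opNorm (f + t • h))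
      rwa [hφ, one_mul] at this
    rw [map_add, map_smul, smul_eq_mul] at h2
    have h3 : t * (φ h - g h) ≤ τ + C * t ^ s := by nlinarith
    have h4 : t ^ s = t * t ^ (s - 1) := by
      rw [mul_comm, ← Real.rpow_add_one ht0.ne']; congr 1; ring
    have h5 : φ h - g h ≤ τ / t + C * t ^ (s - 1) := by
      rw [div_add' _ _ _ ht0.ne', le_div_iff₀ ht0]
      rw [h4] at h3
      nlinarith
    linarith
  refine ContinuousLinearMap.opNorm_le_of_unit_norm hη.le fun h hh => ?_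
  rw [Real.norm_eq_abs, sub_apply, abs_le]
  constructor
  · have := hkey (-h) (by rw [norm_neg, hh])
    rw [map_neg, map_neg] at this
    linarith
  · exact hkey h hh.le

end Pool.Agent.H47.NT
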