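import Mathlib
import Pool.Agent.H47.NIDisjoint

/-!
If `dim L_p(μ) ≥ 3` there are three disjoint sets of finite positive measure. Proof idea: take a
maximal family... or: `NI.exists_disjoint` gives `A, B`. If one of `A`, `B` splits into two sets of
positive measure, or some set of finite positive measure lies outside `A ∪ B`
(`NI.exists_set_pos`), done. Otherwise every `v ∈ L_p` is a.e. constant on `A`, a.e. constant on `B`
and a.e. zero outside (as in the proof of `NI.exists_disjoint`), so `L_p` is spanned by two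
indicators and the rank is at most `2`.
-/

set_option autoImplicit false

namespace Pool.Agent.H47.NT

open MeasureTheory
open scoped ENNReal

variable {𝕜 : Type*} [RCLike 𝕜] {Ω : Type*} [MeasurableSpace Ω] {μ : Measure Ω} {p : ℝ≥0∞}
  [Fact (1 ≤ p)]

/-- If a set of finite measure does not split, a measurable function is constant on it. -/
lemma const_on_of_not_split (f : Ω → 𝕜) (hmeas : Measurable f) (E : Set Ω) (hE : MeasurableSet E)
    (hns : ∀ U : Set Ω, MeasurableSet U → μ (E ∩ U) ≠ 0 → μ (E \ U) ≠ 0 → False) :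
    ∃ c : 𝕜, ∀ᵐ ω ∂μ, ω ∈ E → f ω = c := by
  have hconst : ∃ c : 𝕜, f =ᵐ[μ.restrict E] Function.const Ω c := by
    refine Filter.exists_eventuallyEq_const_of_forall_separating MeasurableSet (fun U hU => ?_)
    have hpre : MeasurableSet (f ⁻¹' U) := hmeas hU
    by_cases h0 : μ (E ∩ f ⁻¹' U) = 0
    · right
      rw [ae_restrict_iff' hE]
      have : ∀ᵐ ω ∂μ, ω ∉ E ∩ f ⁻¹' U := measure_eq_zero_iff_ae_notMem.1 h0
      filter_upwards [this] with ω hω h1 h2
      exact hω ⟨h1, h2⟩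
    · left
      have h1 : μ (E \ f ⁻¹' U) = 0 := by
        by_contra h1
        exact hns _ hpre h0 h1
      rw [ae_restrict_iff' hE]
      have : ∀ᵐ ω ∂μ, ω ∉ E \ f ⁻¹' U := measure_eq_zero_iff_ae_notMem.1 h1
      filter_upwards [this] with ω hω h2
      by_contra h3
      exact hω ⟨h2, h3⟩
  obtain ⟨c, hc⟩ := hconst
  refine ⟨c, ?_⟩
  rw [Filter.EventuallyEq, ae_restrict_iff' hE] at hc
  exact hc

lemma exists_three (hp0 : p ≠ 0) (hp : p ≠ ∞) (hdim : 3 ≤ Module.rank 𝕜 (Lp 𝕜 p μ)) :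
    ∃ A : Fin 3 → Set Ω, (∀ i, MeasurableSet (A i)) ∧ (Pairwise fun i k => Disjoint (A i) (A k)) ∧
      (∀ i, μ (A i) ≠ 0) ∧ ∀ i, μ (A i) ≠ ∞ := by
  by_contra hcon
  have key : ∀ A B C : Set Ω, MeasurableSet A → MeasurableSet B → MeasurableSet C →
      Disjoint A B → Disjoint A C → Disjoint B C → μ A ≠ 0 → μ B ≠ 0 → μ C ≠ 0 →
      μ A ≠ ∞ → μ B ≠ ∞ → μ C ≠ ∞ → False := by
    intro A B C hA hB hC hAB hAC hBC hA0 hB0 hC0 hAt hBt hCt
    apply hcon
    refine ⟨![A, B, C], ?_, ?_, ?_, ?_⟩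
    · intro i; fin_cases i <;> simpa
    · intro i k hik
      fin_cases i <;> fin_cases k <;> first | exact absurd rfl hik | simpa | simpa [disjoint_comm]
    · intro i; fin_cases i <;> simpa
    · intro i; fin_cases i <;> simpa
  have h1 : 1 < Module.rank 𝕜 (Lp 𝕜 p μ) := lt_of_lt_of_le (by norm_num) hdim
  obtain ⟨A, B, hA, hB, hAB, hA0, hAt, hB0, hBt⟩ := NI.exists_disjoint (𝕜 := 𝕜) hp0 hp h1
  have hspan : (Submodule.span 𝕜 ({indicatorConstLp p hA hAt (1 : 𝕜),
      indicatorConstLp p hB hBt (1 : 𝕜)} : Set (Lp 𝕜 p μ))) = ⊤ := by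
    rw [eq_top_iff]
    rintro v -
    have hmeas : Measurable (v : Ω → 𝕜) := (Lp.stronglyMeasurable v).measurable
    have hoff : ∀ᵐ ω ∂μ, ω ∈ (A ∪ B)ᶜ → v ω = 0 := by
      by_contra hv
      obtain ⟨C, hC, hCE, hC0, hCt⟩ := NI.exists_set_pos hp0 hp v (A ∪ B)ᶜ (hA.union hB).compl hv
      exact key A B C hA hB hC hAB
        (Set.disjoint_left.2 fun ω h1 h2 => hCE h2 (Or.inl h1))
        (Set.disjoint_left.2 fun ω h1 h2 => hCE h2 (Or.inr h1)) hA0 hB0 hC0 hAt hBt hCt
    obtain ⟨c, hc⟩ := const_on_of_not_split (μ := μ) (v : Ω → 𝕜) hmeas A hA (by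
      intro U hU h0 h1
      exact key (A ∩ U) (A \ U) B (hA.inter hU) (hA.diff hU) hB
        (Set.disjoint_left.2 fun ω h2 h3 => h3.2 h2.2)
        (hAB.mono_left Set.inter_subset_left) (hAB.mono_left Set.sdiff_subset) h0 h1 hB0
        (ne_top_of_le_ne_top hAt (measure_mono Set.inter_subset_left))
        (ne_top_of_le_ne_top hAt (measure_mono Set.sdiff_subset)) hBt)
    obtain ⟨d, hd⟩ := const_on_of_not_split (μ := μ) (v : Ω → 𝕜) hmeas B hB (by
      intro U hU h0 h1
      exact key (B ∩ U) (B \ U) A (hB.inter hU) (hB.diff hU) hA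
        (Set.disjoint_left.2 fun ω h2 h3 => h3.2 h2.2)
        (hAB.symm.mono_left Set.inter_subset_left) (hAB.symm.mono_left Set.sdiff_subset) h0 h1 hA0
        (ne_top_of_le_ne_top hBt (measure_mono Set.inter_subset_left))
        (ne_top_of_le_ne_top hBt (measure_mono Set.sdiff_subset)) hAt)
    rw [Submodule.mem_span_pair]
    refine ⟨c, d, ?_⟩
    refine Lp.ext ?_
    filter_upwards [Lp.coeFn_add (c • indicatorConstLp p hA hAt (1 : 𝕜))
        (d • indicatorConstLp p hB hBt (1 : 𝕜)),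
      Lp.coeFn_smul c (indicatorConstLp p hA hAt (1 : 𝕜)),
      indicatorConstLp_coeFn (p := p) (hs := hA) (hμs := hAt) (c := (1 : 𝕜)),
      Lp.coeFn_smul d (indicatorConstLp p hB hBt (1 : 𝕜)),
      indicatorConstLp_coeFn (p := p) (hs := hB) (hμs := hBt) (c := (1 : 𝕜)), hoff, hc, hd]
      with ω e0 e1 e2 e3 e4 e5 e6 e7
    rw [e0, Pi.add_apply, e1, Pi.smul_apply, e2, e3, Pi.smul_apply, e4]
    by_cases hωA : ω ∈ A
    · have hωB : ω ∉ B := fun h => Set.disjoint_left.1 hAB hωA h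
      rw [Set.indicator_of_mem hωA, Set.indicator_of_notMem hωB, e6 hωA]; simp
    · by_cases hωB : ω ∈ B
      · rw [Set.indicator_of_notMem hωA, Set.indicator_of_mem hωB, e7 hωB]; simp
      · rw [Set.indicator_of_notMem hωA, Set.indicator_of_notMem hωB,
          e5 (fun h => h.elim hωA hωB)]; simp
  have hle : Module.rank 𝕜 (Lp 𝕜 p μ) ≤ 2 := by
    rw [← rank_top, ← hspan]
    refine (rank_span_le _).trans ?_
    refine (Cardinal.mk_insert_le).trans ?_
    rw [Cardinal.mk_singleton]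
    norm_num
  exact absurd (hdim.trans hle) (by norm_num)

end Pool.Agent.H47.NT
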