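import Mathlib
import Pool.Agent.H47.NT.Defs
import Pool.Agent.H47.NT.Smooth
import Pool.Agent.H47.NT.SetU
import Pool.Agent.H47.NT.SetV
import Pool.Agent.H47.NT.NormT
import Pool.Agent.H47.NT.LowD

/-!
Upper bound. `p > 2` (`r = p.toReal`): `φ = α₀^(r-1) φ₀ + α₁^(r-1)(φ₁ + φ₂)`, `u = (1/2)^(1/r)(e₁ - e₂)`,
tested on `α₀ e₀ + α₁ e₁ + α₁ e₂`. `p < 2` (`q = p/(p-1)`): `φ = (1/2)^(1/q)(φ₁ - φ₂)`,
`u = α₀^(q-1) e₀ + α₁^(q-1)(e₁ + e₂)`, tested on `(1/2)^(1/r)(e₁ - e₂)`; apply `upper_core` with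
`P = q` to `X = j_r(x)` (`j_q(X) = x`, `|X|^q = |x|^r`, `mm q A X = nA r A x`, `nn q A X = mA r A x`).
-/

set_option autoImplicit false

namespace Pool.Agent.H47.NT

open MeasureTheory
open scoped ENNReal

variable {Ω : Type*} [MeasurableSpace Ω] {μ : Measure Ω} {p : ℝ≥0∞} [Fact (1 ≤ p)]

/-- `p > 2`. -/
lemma upp (hp1 : 1 < p) (hp : p ≠ ∞) {y : ℝ} (h : Par p.toReal y) {A : Fin 3 → Set Ω}
    (hA : ∀ i, MeasurableSet (A i)) (hdis : Pairwise fun i k => Disjoint (A i) (A k))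
    (hμ0 : ∀ i, μ (A i) ≠ 0) (hμ : ∀ i, μ (A i) ≠ ∞) :
    ∃ (φ : Lp ℝ p μ →L[ℝ] ℝ) (u : Lp ℝ p μ), 1 ≤ ‖φ‖ ∧ 1 ≤ ‖u‖ ∧
      ∀ (x : Lp ℝ p μ) (f : Lp ℝ p μ →L[ℝ] ℝ), ‖x‖ = 1 → ‖f‖ = 1 → f x = 1 →
        |φ x * f u| ≤ F p.toReal y := by
  have hM : ∀ i, 0 < μ.real (A i) := fun i => ENNReal.toReal_pos (hμ0 i) (hμ i)
  have hr1 : 1 < p.toReal := NI.one_lt_toReal hp1 hp
  have hr0 : 0 < p.toReal := by linarith
  obtain ⟨r, hr⟩ : ∃ r : ℝ, r = p.toReal := ⟨_, rfl⟩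
  rw [← hr] at hr0 hr1
  obtain ⟨m, hm⟩ : ∃ m : ℝ, m = 2 * (p.toReal - 1) / RR p.toReal y := ⟨_, rfl⟩
  obtain ⟨hm0, hm1⟩ := h.m_mem
  rw [← hm] at hm0 hm1
  obtain ⟨α₀, hα₀⟩ : ∃ a : ℝ, a = (1 - m) ^ (1 / p.toReal) := ⟨_, rfl⟩
  obtain ⟨α₁, hα₁⟩ : ∃ a : ℝ, a = (m / 2) ^ (1 / p.toReal) := ⟨_, rfl⟩
  obtain ⟨β, hβ⟩ : ∃ a : ℝ, a = (1 / 2 : ℝ) ^ (1 / p.toReal) := ⟨_, rfl⟩
  have hα₀0 : 0 < α₀ := by rw [hα₀]; exact Real.rpow_pos_of_pos (by linarith) _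
  have hα₁0 : 0 < α₁ := by rw [hα₁]; exact Real.rpow_pos_of_pos (by linarith) _
  have hβ0 : 0 < β := by rw [hβ]; exact Real.rpow_pos_of_pos (by norm_num) _
  have pw : ∀ x : ℝ, 0 ≤ x → (x ^ (1 / r)) ^ r = x := by
    intro x hx
    rw [← Real.rpow_mul hx, one_div_mul_cancel hr0.ne', Real.rpow_one]
  have e0 : α₀ ^ r = 1 - m := by rw [hα₀, ← hr]; exact pw _ (by linarith)
  have e1 : α₁ ^ r = m / 2 := by rw [hα₁, ← hr]; exact pw _ (by linarith)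
  have eβ : β ^ r = 1 / 2 := by rw [hβ, ← hr]; exact pw _ (by norm_num)
  have sp : ∀ x : ℝ, 0 < x → x ^ (r - 1) * x = x ^ r := by
    intro x hx
    rw [← Real.rpow_add_one hx.ne']
    congr 1
    ring
  have nrm_one : ∀ v : Lp ℝ p μ, ‖v‖ ^ r = 1 → ‖v‖ = 1 := by
    intro v hv
    have h1 : (‖v‖ ^ r) ^ (1 / r) = ‖v‖ := by
      rw [← Real.rpow_mul (norm_nonneg _), mul_one_div_cancel hr0.ne', Real.rpow_one]
    rw [← h1, hv, Real.one_rpow]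
  obtain ⟨φ, hφ⟩ : ∃ φ : Lp ℝ p μ →L[ℝ] ℝ, φ = α₀ ^ (r - 1) • NI.phi hp1 hp (hM 0) (hμ 0)
    + α₁ ^ (r - 1) • (NI.phi hp1 hp (hM 1) (hμ 1) + NI.phi hp1 hp (hM 2) (hμ 2)) := ⟨_, rfl⟩
  obtain ⟨u, hu⟩ : ∃ u : Lp ℝ p μ, u = (0 : ℝ) • NI.eA ℝ p (hA 0) (hμ 0)
    + β • NI.eA ℝ p (hA 1) (hμ 1) + (-β) • NI.eA ℝ p (hA 2) (hμ 2) := ⟨_, rfl⟩
  have hφx : ∀ x : Lp ℝ p μ, φ x = α₀ ^ (r - 1) * NI.phi hp1 hp (hM 0) (hμ 0) x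
      + α₁ ^ (r - 1) * (NI.phi hp1 hp (hM 1) (hμ 1) x + NI.phi hp1 hp (hM 2) (hμ 2) x) := by
    intro x
    rw [hφ]
    simp
    ring
  refine ⟨φ, u, ?_, ?_, ?_⟩
  · obtain ⟨v, hv⟩ : ∃ v : Lp ℝ p μ, v = α₀ • NI.eA ℝ p (hA 0) (hμ 0)
      + α₁ • NI.eA ℝ p (hA 1) (hμ 1) + α₁ • NI.eA ℝ p (hA 2) (hμ 2) := ⟨_, rfl⟩
    have hn : ‖v‖ = 1 := by
      apply nrm_one
      rw [hv, hr, norm_three hp1 hp hA hdis hM hμ, abs_of_pos hα₀0, abs_of_pos hα₁0, ← hr, e0, e1]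
      ring
    obtain ⟨f0, f1, f2⟩ := phi_three hp1 hp hA hdis hM hμ α₀ α₁ α₁ v hv
    have hval : φ v = 1 := by
      rw [hφx, f0, f1, f2, sp _ hα₀0]
      have : α₁ ^ (r - 1) * (α₁ + α₁) = 2 * (α₁ ^ (r - 1) * α₁) := by ring
      rw [this, sp _ hα₁0, e0, e1]
      ring
    have h1 := φ.le_opNorm v
    rw [hval, hn, mul_one, norm_one] at h1
    exact h1
  · refine (nrm_one u ?_).ge
    rw [hu, hr, norm_three hp1 hp hA hdis hM hμ, abs_neg, abs_of_pos hβ0, abs_zero, ← hr, eβ,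
      Real.zero_rpow hr0.ne']
    norm_num
  · intro x f hx hf hfx
    have h1 := h.upper_core (μ := μ) hA hdis hM (X := (x : Ω → ℝ)) (Lp.aestronglyMeasurable x)
      (NI.Lp_integrable_rpow hp1 hp x) (by
        have h2 := NI.Lp_norm_rpow hp1 hp x
        rw [hx, Real.one_rpow] at h2
        exact h2.symm.le) hm
    have hfu : f u = β * (nn p.toReal μ (A 1) x - nn p.toReal μ (A 2) x) := by
      have n1 : ∀ i, f (NI.eA ℝ p (hA i) (hμ i)) = nn p.toReal μ (A i) x := by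
        intro i
        rw [NI.norming_eA hp1 hp x f hx hf hfx (hA i) (hμ i)]
        unfold NI.nA nn
        simp only [J_eq_j]
        rfl
      rw [hu, map_add, map_add, map_smul, map_smul, map_smul, n1, n1, n1]
      simp only [smul_eq_mul]
      ring
    have hφe : φ x = α₀ ^ (r - 1) * mm p.toReal μ (A 0) x
        + α₁ ^ (r - 1) * (mm p.toReal μ (A 1) x + mm p.toReal μ (A 2) x) := by
      rw [hφx]
      rfl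
    rw [hfu, hφe, hα₀, hα₁, hβ, hr]
    exact h1

end Pool.Agent.H47.NT
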