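import Mathlib
import Pool.Agent.H47.NT.Defs
import Pool.Agent.H47.NT.Smooth
import Pool.Agent.H47.NT.SetU
import Pool.Agent.H47.NT.SetV
import Pool.Agent.H47.NT.NormT
import Pool.Agent.H47.NT.LowD

/-!
Upper bound for `p < 2` (`q = p/(p-1)`, `r = p.toReal`): `φ = (1/2)^(1/q)(φ₁ - φ₂)`,
`u = α₀^(q-1) e₀ + α₁^(q-1)(e₁ + e₂)`, `φ` tested on `(1/2)^(1/r)(e₁ - e₂)`; apply `upper_core` with
`P = q` to `X = j_r(x)` (`j_q(X) = x`, `|X|^q = |x|^r`, `mm q A X = nA r A x`, `nn q A X = mA r A x`).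
-/

set_option autoImplicit false

namespace Pool.Agent.H47.NT

open MeasureTheory
open scoped ENNReal

variable {Ω : Type*} [MeasurableSpace Ω] {μ : Measure Ω} {p : ℝ≥0∞} [Fact (1 ≤ p)]

/-- `p < 2`. -/
lemma upp_dual (hp1 : 1 < p) (hp : p ≠ ∞) {y : ℝ} (h : Par (p.toReal / (p.toReal - 1)) y)
    {A : Fin 3 → Set Ω}
    (hA : ∀ i, MeasurableSet (A i)) (hdis : Pairwise fun i k => Disjoint (A i) (A k))
    (hμ0 : ∀ i, μ (A i) ≠ 0) (hμ : ∀ i, μ (A i) ≠ ∞) :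
    ∃ (φ : Lp ℝ p μ →L[ℝ] ℝ) (u : Lp ℝ p μ), 1 ≤ ‖φ‖ ∧ 1 ≤ ‖u‖ ∧
      ∀ (x : Lp ℝ p μ) (f : Lp ℝ p μ →L[ℝ] ℝ), ‖x‖ = 1 → ‖f‖ = 1 → f x = 1 →
        |φ x * f u| ≤ F (p.toReal / (p.toReal - 1)) y := by
  have hM : ∀ i, 0 < μ.real (A i) := fun i => ENNReal.toReal_pos (hμ0 i) (hμ i)
  have hr1 : 1 < p.toReal := NI.one_lt_toReal hp1 hp
  obtain ⟨r, hr⟩ : ∃ r : ℝ, r = p.toReal := ⟨_, rfl⟩
  obtain ⟨q, hq⟩ : ∃ q : ℝ, q = p.toReal / (p.toReal - 1) := ⟨_, rfl⟩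
  rw [← hq] at h ⊢
  have hqr : q = r / (r - 1) := by rw [hq, hr]
  rw [← hr] at hr1
  have hr0 : 0 < r := by linarith
  have hrm : 0 < r - 1 := by linarith
  have hq2 : 2 < q := h.hp
  have hq0 : 0 < q := by linarith
  have hconj : 1 / q + 1 / r = 1 := by
    rw [hqr]
    field_simp
    ring
  have hqm : (q - 1) * r = q := by
    rw [hqr]
    field_simp
    ring
  obtain ⟨m, hm⟩ : ∃ m : ℝ, m = 2 * (q - 1) / RR q y := ⟨_, rfl⟩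
  obtain ⟨hm0, hm1⟩ := h.m_mem
  rw [← hm] at hm0 hm1
  obtain ⟨α₀, hα₀⟩ : ∃ a : ℝ, a = (1 - m) ^ (1 / q) := ⟨_, rfl⟩
  obtain ⟨α₁, hα₁⟩ : ∃ a : ℝ, a = (m / 2) ^ (1 / q) := ⟨_, rfl⟩
  obtain ⟨β, hβ⟩ : ∃ a : ℝ, a = (1 / 2 : ℝ) ^ (1 / q) := ⟨_, rfl⟩
  obtain ⟨γ, hγ⟩ : ∃ a : ℝ, a = (1 / 2 : ℝ) ^ (1 / r) := ⟨_, rfl⟩
  have hα₀0 : 0 < α₀ := by rw [hα₀]; exact Real.rpow_pos_of_pos (by linarith) _
  have hα₁0 : 0 < α₁ := by rw [hα₁]; exact Real.rpow_pos_of_pos (by linarith) _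
  have hγ0 : 0 < γ := by rw [hγ]; exact Real.rpow_pos_of_pos (by norm_num) _
  have pw : ∀ s x : ℝ, 0 < s → 0 ≤ x → (x ^ (1 / s)) ^ s = x := by
    intro s x hs hx
    rw [← Real.rpow_mul hx, one_div_mul_cancel hs.ne', Real.rpow_one]
  have e0 : α₀ ^ q = 1 - m := by rw [hα₀]; exact pw _ _ hq0 (by linarith)
  have e1 : α₁ ^ q = m / 2 := by rw [hα₁]; exact pw _ _ hq0 (by linarith)
  have eγ : γ ^ r = 1 / 2 := by rw [hγ]; exact pw _ _ hr0 (by norm_num)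
  have sp : ∀ x : ℝ, 0 < x → (x ^ (q - 1)) ^ r = x ^ q := by
    intro x hx
    rw [← Real.rpow_mul hx.le, hqm]
  have hβγ : β * γ = 1 / 2 := by
    rw [hβ, hγ, ← Real.rpow_add (by norm_num), hconj, Real.rpow_one]
  have nrm_one : ∀ v : Lp ℝ p μ, ‖v‖ ^ r = 1 → ‖v‖ = 1 := by
    intro v hv
    have h1 : (‖v‖ ^ r) ^ (1 / r) = ‖v‖ := by
      rw [← Real.rpow_mul (norm_nonneg _), mul_one_div_cancel hr0.ne', Real.rpow_one]
    rw [← h1, hv, Real.one_rpow]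
  obtain ⟨φ, hφ⟩ : ∃ φ : Lp ℝ p μ →L[ℝ] ℝ,
      φ = β • (NI.phi hp1 hp (hM 1) (hμ 1) - NI.phi hp1 hp (hM 2) (hμ 2)) := ⟨_, rfl⟩
  obtain ⟨u, hu⟩ : ∃ u : Lp ℝ p μ, u = (α₀ ^ (q - 1)) • NI.eA ℝ p (hA 0) (hμ 0)
    + (α₁ ^ (q - 1)) • NI.eA ℝ p (hA 1) (hμ 1) + (α₁ ^ (q - 1)) • NI.eA ℝ p (hA 2) (hμ 2) :=
    ⟨_, rfl⟩
  have hφx : ∀ x : Lp ℝ p μ, φ x
      = β * (NI.phi hp1 hp (hM 1) (hμ 1) x - NI.phi hp1 hp (hM 2) (hμ 2) x) := by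
    intro x
    rw [hφ]
    rfl
  refine ⟨φ, u, ?_, ?_, ?_⟩
  · obtain ⟨v, hv⟩ : ∃ v : Lp ℝ p μ, v = (0 : ℝ) • NI.eA ℝ p (hA 0) (hμ 0)
      + γ • NI.eA ℝ p (hA 1) (hμ 1) + (-γ) • NI.eA ℝ p (hA 2) (hμ 2) := ⟨_, rfl⟩
    have hn : ‖v‖ = 1 := by
      apply nrm_one
      rw [hv, hr, norm_three hp1 hp hA hdis hM hμ, abs_neg, abs_of_pos hγ0, abs_zero, ← hr, eγ,
        Real.zero_rpow hr0.ne']
      norm_num
    obtain ⟨_, f1, f2⟩ := phi_three hp1 hp hA hdis hM hμ 0 γ (-γ) v hv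
    have hval : φ v = 1 := by
      rw [hφx, f1, f2]
      linarith
    have h1 := φ.le_opNorm v
    rw [hval, hn, mul_one, norm_one] at h1
    exact h1
  · refine (nrm_one u ?_).ge
    rw [hu, hr, norm_three hp1 hp hA hdis hM hμ, abs_of_pos (Real.rpow_pos_of_pos hα₀0 _),
      abs_of_pos (Real.rpow_pos_of_pos hα₁0 _), ← hr, sp _ hα₀0, sp _ hα₁0, e0, e1]
    ring
  · intro x f hx hf hfx
    have hxm : AEStronglyMeasurable (fun ω => x ω) μ := Lp.aestronglyMeasurable x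
    have hxi := NI.Lp_integrable_rpow hp1 hp x
    have hx1 := NI.Lp_norm_rpow hp1 hp x
    rw [hx, Real.one_rpow] at hx1
    simp only [Real.norm_eq_abs] at hxi hx1
    rw [← hr] at hxi hx1
    have hXm : AEStronglyMeasurable (fun ω => j r (x ω)) μ :=
      ((measurable_j _).comp_aemeasurable hxm.aemeasurable).aestronglyMeasurable
    have eX : (fun ω => |j r (x ω)| ^ q) = fun ω => |x ω| ^ r := by
      funext ω
      rw [hqr]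
      exact abs_j_rpow hr1 _
    have h1 := h.upper_core (μ := μ) hA hdis hM (X := fun ω => j r (x ω)) hXm
      (by rw [eX]; exact hxi) (by rw [eX]; exact hx1.symm.le) hm
    have hMr : ∀ i, f (NI.eA ℝ p (hA i) (hμ i)) = mm q μ (A i) (fun ω => j r (x ω)) := by
      intro i
      rw [NI.norming_eA hp1 hp x f hx hf hfx (hA i) (hμ i)]
      unfold NI.nA mm
      simp only [J_eq_j]
      rw [← hr, show (1 : ℝ) - 1 / q = 1 / r by linarith]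
      rfl
    have hMq : ∀ i, NI.phi hp1 hp (hM i) (hμ i) x = nn q μ (A i) (fun ω => j r (x ω)) := by
      intro i
      rw [NI.phi_apply]
      unfold NI.mA nn
      rw [← hr, show (1 : ℝ) - 1 / r = 1 / q by linarith]
      have : ∀ ω, j q (j r (x ω)) = x ω := by
        intro ω
        rw [hqr]
        exact j_j hr1 _
      simp only [this]
      rfl
    have hfu : f u = α₀ ^ (q - 1) * mm q μ (A 0) (fun ω => j r (x ω))
        + α₁ ^ (q - 1) * (mm q μ (A 1) (fun ω => j r (x ω)) + mm q μ (A 2) (fun ω => j r (x ω))) := by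
      rw [hu, map_add, map_add, map_smul, map_smul, map_smul, hMr, hMr, hMr]
      simp only [smul_eq_mul]
      ring
    rw [hfu, hφx, hMq, hMq, mul_comm, hα₀, hα₁, hβ]
    exact h1

end Pool.Agent.H47.NT
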